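import Mathlib
import Pool.Agent.MP_5f7865_al.Basic

-- part MP_5f7865_al.Lin
section

namespace Pool.Agent.MP_5f7865_al

open Function

/-- A finite nilpotent group has a self-centralising abelian normal subgroup. -/
lemma exists_selfcent (Q : Type) [Group Q] [Finite Q] [Group.IsNilpotent Q] :
    ∃ T : Subgroup Q, T.Normal ∧ (∀ x ∈ T, ∀ y ∈ T, x * y = y * x) ∧
      ∀ g : Q, (∀ t ∈ T, g * t = t * g) → g ∈ T := by
  classical
  let S : Set (Subgroup Q) := {T | T.Normal ∧ ∀ x ∈ T, ∀ y ∈ T, x * y = y * x}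
  have hS : S.Nonempty := ⟨⊥, inferInstance, by
    intro x hx y hy; rw [Subgroup.mem_bot] at hx hy; simp [hx, hy]⟩
  obtain ⟨T, hT, hmax⟩ := (Set.toFinite S).exists_maximal hS
  obtain ⟨hTn, hTc⟩ := hT
  refine ⟨T, hTn, hTc, ?_⟩
  have key : ∀ i : ℕ, ∀ g ∈ Subgroup.upperCentralSeries Q i, (∀ t ∈ T, g * t = t * g) → g ∈ T := by
    intro i
    induction i with
    | zero =>
      intro g hg _
      have : g = 1 := by simpa using hg
      rw [this]; exact T.one_mem
    | succ i ih =>
      intro g hg hc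
      rw [Subgroup.mem_upperCentralSeries_succ_iff] at hg
      have hcomm : ∀ y : Q, g * y * g⁻¹ * y⁻¹ ∈ T := by
        intro y
        apply ih _ (hg y)
        intro t ht
        have h1 := hc t ht
        have h2 := hc (y⁻¹ * t * y) (by simpa using hTn.conj_mem t ht y⁻¹)
        have h3 : g⁻¹ * (y⁻¹ * t * y) = (y⁻¹ * t * y) * g⁻¹ := by
          calc g⁻¹ * (y⁻¹ * t * y) = g⁻¹ * ((y⁻¹ * t * y) * g) * g⁻¹ := by group
            _ = g⁻¹ * (g * (y⁻¹ * t * y)) * g⁻¹ := by rw [h2]
            _ = _ := by group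
        change g * y * g⁻¹ * y⁻¹ * t = t * (g * y * g⁻¹ * y⁻¹)
        calc g * y * g⁻¹ * y⁻¹ * t = g * y * (g⁻¹ * (y⁻¹ * t * y)) * y⁻¹ := by group
          _ = g * y * ((y⁻¹ * t * y) * g⁻¹) * y⁻¹ := by rw [h3]
          _ = (g * t) * (y * g⁻¹ * y⁻¹) := by group
          _ = _ := by rw [h1]; group
      let U : Subgroup Q := Subgroup.closure ((T : Set Q) ∪ {g})
      have hTU : T ≤ U := fun x hx => Subgroup.subset_closure (Or.inl hx)
      have hgU : g ∈ U := Subgroup.subset_closure (Or.inr rfl)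
      have hUn : U.Normal := by
        constructor
        intro x hx y
        induction hx using Subgroup.closure_induction with
        | mem x hx =>
          rcases hx with hx | hx
          · exact hTU (hTn.conj_mem x hx y)
          · rw [Set.mem_singleton_iff] at hx
            subst hx
            have : y * x * y⁻¹ = (x * y * x⁻¹ * y⁻¹)⁻¹ * x := by group
            rw [this]
            exact U.mul_mem (U.inv_mem (hTU (hcomm y))) hgU
        | one => simp
        | mul a b _ _ ha hb =>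
          have : y * (a * b) * y⁻¹ = (y * a * y⁻¹) * (y * b * y⁻¹) := by group
          rw [this]; exact U.mul_mem ha hb
        | inv a _ ha =>
          have : y * a⁻¹ * y⁻¹ = (y * a * y⁻¹)⁻¹ := by group
          rw [this]; exact U.inv_mem ha
      have hUc : ∀ x ∈ U, ∀ y ∈ U, x * y = y * x := by
        have hgen : ∀ a ∈ (T : Set Q) ∪ {g}, ∀ b ∈ (T : Set Q) ∪ {g}, a * b = b * a := by
          rintro a (ha | ha) b (hb | hb)
          · exact hTc a ha b hb
          · rw [Set.mem_singleton_iff] at hb; subst hb; exact (hc a ha).symm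
          · rw [Set.mem_singleton_iff] at ha; subst ha; exact hc b hb
          · rw [Set.mem_singleton_iff] at ha hb; rw [ha, hb]
        have := Subgroup.isMulCommutative_closure hgen
        intro x hx y hy
        exact congrArg Subtype.val (this.1.1 ⟨x, hx⟩ ⟨y, hy⟩)
      exact hmax (show U ∈ S from ⟨hUn, hUc⟩) hTU hgU
  obtain ⟨i, hi⟩ := Group.IsNilpotent.nilpotent' (G := Q)
  intro g hg
  exact key i g (by rw [hi]; trivial) hg

/-- In a finite commutative algebra over a field, an element killed by all characters into the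
algebraic closure is nilpotent. -/
lemma nilpotent_of_chars {F R : Type} [Field F] [CommRing R] [Algebra F R] [Finite R] (r : R)
    (h : ∀ χ : R →ₐ[F] AlgebraicClosure F, χ r = 0) : IsNilpotent r := by
  rw [nilpotent_iff_mem_prime]
  intro J hJ
  have hfin : Finite (R ⧸ J) := Finite.of_surjective _ Ideal.Quotient.mk_surjective
  have hf : IsField (R ⧸ J) := Finite.isField_of_domain _
  let := hf.toField
  have : Module.Finite F (R ⧸ J) := Module.Finite.of_finite
  let φ : (R ⧸ J) →ₐ[F] AlgebraicClosure F := IsAlgClosed.lift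
  have h1 := h (φ.comp (Ideal.Quotient.mkₐ F J))
  have h2 : φ (Ideal.Quotient.mk J r) = 0 := h1
  have h3 : Ideal.Quotient.mk J r = 0 := by
    by_contra hne
    have := congrArg φ (mul_inv_cancel₀ hne)
    rw [map_mul, h2, zero_mul, map_one] at this
    exact zero_ne_one this
  exact Ideal.Quotient.eq_zero_iff_mem.mp h3

open scoped IsMulCommutative in
lemma ab_linear {p ℓ : ℕ} [Fact p.Prime] [Fact ℓ.Prime] (hpl : p ≠ ℓ) {E : Type} [Ring E]
    [Algebra (ZMod p) E] [Module.Finite (ZMod p) E] {D : ℕ} (hD : Module.finrank (ZMod p) E ≤ D)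
    {Q : Type} [Group Q] [Finite Q] (hQ : IsPGroup ℓ Q) (θ : Q →* E) (hθ : Injective θ)
    {n : ℕ} (hn : 0 < n) : ABrel n (⊥ : Subgroup Q) ((D + 1) ^ D) (n ^ D) := by
  classical
  have := hQ.isNilpotent
  obtain ⟨T, hTn, hTc, hTs⟩ := exists_selfcent Q
  let R := Algebra.adjoin (ZMod p) (θ '' (T : Set Q))
  have hRc : IsMulCommutative R := by
    apply Algebra.isMulCommutative_adjoin
    rintro _ ⟨a, ha, rfl⟩ _ ⟨b, hb, rfl⟩
    rw [← map_mul, ← map_mul, hTc a ha b hb]
  have hEf : Finite E := Module.finite_of_finite (ZMod p)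
  have hmem : ∀ t ∈ T, θ t ∈ R := fun t ht => Algebra.subset_adjoin ⟨t, ht, rfl⟩
  let K := AlgebraicClosure (ZMod p)
  have hcard : Nat.card (R →ₐ[ZMod p] K) ≤ D := by
    refine (card_algHom_le_finrank (ZMod p) R K).trans (le_trans ?_ hD)
    exact Submodule.finrank_le (Subalgebra.toSubmodule R)
  have hfin : Finite (R →ₐ[ZMod p] K) := inferInstance
  -- characters separate the elements of `T`
  have hsep : ∀ t (ht : t ∈ T) s (hs : s ∈ T),
      (∀ χ : R →ₐ[ZMod p] K, χ ⟨θ t, hmem t ht⟩ = χ ⟨θ s, hmem s hs⟩) → t = s := by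
    intro t ht s hs h
    have hu : t * s⁻¹ ∈ T := T.mul_mem ht (T.inv_mem hs)
    have h1 : IsNilpotent ((⟨θ (t * s⁻¹), hmem _ hu⟩ : R) - 1) := by
      apply nilpotent_of_chars (F := ZMod p)
      intro χ
      have e1 : (⟨θ (t * s⁻¹), hmem _ hu⟩ : R) =
          ⟨θ t, hmem t ht⟩ * ⟨θ s⁻¹, hmem _ (T.inv_mem hs)⟩ := Subtype.ext (map_mul θ _ _)
      have e2 : (⟨θ s, hmem s hs⟩ : R) * ⟨θ s⁻¹, hmem _ (T.inv_mem hs)⟩ = 1 := by
        apply Subtype.ext
        change θ s * θ s⁻¹ = 1
        rw [← map_mul, mul_inv_cancel, map_one]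
      rw [map_sub, e1, map_mul, h χ, ← map_mul, e2, map_one, sub_self]
    obtain ⟨N, hN⟩ := h1
    by_cases hE : Nontrivial R
    · have : CharP R p := charP_of_injective_algebraMap (algebraMap (ZMod p) R).injective p
      have h2 : ((⟨θ (t * s⁻¹), hmem _ hu⟩ : R) - 1) ^ (p ^ N) = 0 :=
        pow_eq_zero_of_le (Nat.lt_pow_self (Fact.out : p.Prime).one_lt).le hN
      rw [sub_pow_char_pow, one_pow, sub_eq_zero] at h2
      have h3 : θ ((t * s⁻¹) ^ (p ^ N)) = θ 1 := by
        rw [map_pow, map_one]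
        exact congrArg Subtype.val h2
      have h4 := hθ h3
      obtain ⟨j, hj⟩ := hQ (t * s⁻¹)
      have h5 : orderOf (t * s⁻¹) ∣ Nat.gcd (p ^ N) (ℓ ^ j) :=
        Nat.dvd_gcd (orderOf_dvd_of_pow_eq_one h4) (orderOf_dvd_of_pow_eq_one hj)
      have h6 : Nat.gcd (p ^ N) (ℓ ^ j) = 1 :=
        Nat.coprime_pow_primes N j Fact.out Fact.out hpl
      rw [h6, Nat.dvd_one, orderOf_eq_one_iff] at h5
      exact mul_inv_eq_one.mp h5
    · rw [not_nontrivial_iff_subsingleton] at hE
      apply hθ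
      exact congrArg Subtype.val (Subsingleton.elim (⟨θ t, hmem t ht⟩ : R) ⟨θ s, hmem s hs⟩)
  -- conjugation
  let cj : Q → (E →ₐ[ZMod p] E) := fun g =>
    { toFun := fun x => θ g * x * θ g⁻¹
      map_one' := by rw [mul_one, ← map_mul, mul_inv_cancel, map_one]
      map_mul' := fun x y => by
        have : θ g⁻¹ * θ g = 1 := by rw [← map_mul, inv_mul_cancel, map_one]
        calc θ g * (x * y) * θ g⁻¹ = θ g * x * (θ g⁻¹ * θ g) * y * θ g⁻¹ := by
              rw [this]; noncomm_ring
          _ = _ := by noncomm_ring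
      map_zero' := by simp
      map_add' := fun x y => by noncomm_ring
      commutes' := fun r => by
        rw [← Algebra.commutes, mul_assoc, ← map_mul, mul_inv_cancel, map_one, mul_one] }
  have hcj : ∀ g x, cj g x = θ g * x * θ g⁻¹ := fun _ _ => rfl
  have hcjR : ∀ g, ∀ x ∈ R, cj g x ∈ R := by
    intro g x hx
    have : R ≤ R.comap (cj g) := by
      apply Algebra.adjoin_le
      rintro _ ⟨t, ht, rfl⟩
      change cj g (θ t) ∈ R
      rw [hcj, ← map_mul, ← map_mul]
      exact hmem _ (hTn.conj_mem t ht g)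
    exact this hx
  let cR : Q → (R →ₐ[ZMod p] R) := fun g =>
    ((cj g).comp R.val).codRestrict R (fun x => hcjR g x.1 x.2)
  have hcR : ∀ g t (ht : t ∈ T), cR g ⟨θ t, hmem t ht⟩ =
      ⟨θ (g * t * g⁻¹), hmem _ (hTn.conj_mem t ht g)⟩ := by
    intro g t ht
    apply Subtype.ext
    change cj g (θ t) = θ (g * t * g⁻¹)
    rw [hcj, map_mul, map_mul]
  refine ⟨T, ?_, ?_, ?_⟩
  · rw [Subgroup.index_eq_card]
    apply Lab.card_le
    refine Lab.of_map (β := (R →ₐ[ZMod p] K) → (R →ₐ[ZMod p] K))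
      (fun q χ => χ.comp (cR q.out)) ?_ ?_
    · rw [Nat.card_fun]
      calc _ ≤ (D + 1) ^ Nat.card (R →ₐ[ZMod p] K) := Nat.pow_le_pow_left (by omega) _
        _ ≤ (D + 1) ^ D := Nat.pow_le_pow_right (by omega) hcard
    · intro q q' e
      rw [← q.out_eq, ← q'.out_eq]
      apply QuotientGroup.eq.mpr
      apply hTs
      intro t ht
      have h1 : q.out * t * q.out⁻¹ = q'.out * t * q'.out⁻¹ := by
        apply hsep _ (hTn.conj_mem t ht _) _ (hTn.conj_mem t ht _)
        intro χ
        rw [← hcR _ t ht, ← hcR _ t ht]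
        exact DFunLike.congr_fun (congrFun e χ) ⟨θ t, hmem t ht⟩
      calc q.out⁻¹ * q'.out * t = q.out⁻¹ * (q'.out * t * q'.out⁻¹) * q'.out := by group
        _ = q.out⁻¹ * (q.out * t * q.out⁻¹) * q'.out := by rw [h1]
        _ = _ := by group
  · intro x hx y hy
    rw [Subgroup.mem_bot, hTc x hx y hy]; group
  · have hroots : Nat.card {z : K // z ^ n = 1} ≤ n := by
      have : Nat.card {z : K // z ^ n = 1} ≤ Nat.card (Polynomial.nthRoots n (1 : K)).toFinset := by
        apply Nat.card_le_card_of_injective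
          (fun z => (⟨z.1, by simpa [Polynomial.mem_nthRoots hn] using z.2⟩ :
            (Polynomial.nthRoots n (1 : K)).toFinset))
        intro z w e
        exact Subtype.ext (Subtype.mk.inj e)
      refine this.trans ?_
      rw [Nat.card_eq_fintype_card, Fintype.card_coe]
      exact (Multiset.toFinset_card_le _).trans (Polynomial.card_nthRoots n 1)
    have hrf : Finite {z : K // z ^ n = 1} := by
      apply Finite.of_injective
          (fun z => (⟨z.1, by simpa [Polynomial.mem_nthRoots hn] using z.2⟩ :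
            (Polynomial.nthRoots n (1 : K)).toFinset))
      intro z w e
      exact Subtype.ext (Subtype.mk.inj e)
    refine Lab.of_map (β := (R →ₐ[ZMod p] K) → {z : K // z ^ n = 1})
      (fun t χ => ⟨χ ⟨θ t.1, hmem _ t.2.1⟩, ?_⟩) ?_ ?_
    · rw [← map_pow]
      have : (⟨θ t.1, hmem _ t.2.1⟩ : R) ^ n = 1 := by
        apply Subtype.ext
        change θ t.1 ^ n = 1
        rw [← map_pow, Subgroup.mem_bot.mp t.2.2, map_one]
      rw [this, map_one]
    · rw [Nat.card_fun]
      calc _ ≤ n ^ Nat.card (R →ₐ[ZMod p] K) := Nat.pow_le_pow_left hroots _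
        _ ≤ n ^ D := Nat.pow_le_pow_right hn hcard
    · intro x y e
      have : x.1 = y.1 := hsep _ x.2.1 _ y.2.1 (fun χ => congrArg Subtype.val (congrFun e χ))
      rw [this]; simp

end Pool.Agent.MP_5f7865_al

end

-- part MP_5f7865_al.Aut
section

namespace Pool.Agent.MP_5f7865_al

open Function ArithmeticFunction

/-- the kernel of an action -/
def fixK (P X : Type) [Group P] [MulAction P X] : Subgroup P where
  carrier := {g | ∀ x : X, g • x = x}
  one_mem' := fun x => one_smul P x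
  mul_mem' := fun {a b} ha hb x => by rw [mul_smul, hb x, ha x]
  inv_mem' := fun {a} ha x => by rw [inv_smul_eq_iff, ha x]

lemma mem_fixK {P X : Type} [Group P] [MulAction P X] {g : P} :
    g ∈ fixK P X ↔ ∀ x : X, g • x = x := Iff.rfl

def Main (ℓ n k c M : ℕ) : Prop :=
  ∀ (X : Type) [Group X] [Finite X], cardFactors (Nat.card X) ≤ k →
    ∀ (P : Type) [Group P] [Finite P] [MulDistribMulAction P X], IsPGroup ℓ P →
      ABrel n (fixK P X) c M

lemma om_mul_le {a b k : ℕ} (ha : a ≠ 0) (hb : b ≠ 0) (hb1 : b ≠ 1)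
    (h : cardFactors (a * b) ≤ k + 1) : cardFactors a ≤ k := by
  rw [cardFactors_mul ha hb] at h
  have : 0 < cardFactors b := cardFactors_pos_iff_one_lt.mpr (by omega)
  omega

lemma om_pow_dvd {ℓ j N : ℕ} (hℓ : ℓ.Prime) (hN : N ≠ 0) (h : ℓ ^ j ∣ N) :
    j ≤ cardFactors N := by
  obtain ⟨b, rfl⟩ := h
  rw [cardFactors_mul (left_ne_zero_of_mul hN) (right_ne_zero_of_mul hN),
    cardFactors_apply_prime_pow hℓ]
  omega

lemma exists_small_orbit {ℓ j : ℕ} [Fact ℓ.Prime] {P A : Type} [Group P] [Finite P] [Finite A]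
    [MulAction P A] (hP : IsPGroup ℓ P) (h : ¬ ℓ ^ (j + 1) ∣ Nat.card A) :
    ∃ a : A, (MulAction.stabilizer P a).index ≤ ℓ ^ j := by
  classical
  by_contra hc
  push Not at hc
  apply h
  have := Fintype.ofFinite (MulAction.orbitRel.Quotient P A)
  rw [Nat.card_congr (MulAction.selfEquivSigmaOrbits P A), Nat.card_sigma]
  apply Finset.dvd_sum
  intro ω _
  rw [Nat.card_coe_set_eq, ← MulAction.index_stabilizer]
  obtain ⟨i, hi⟩ := hP.index (MulAction.stabilizer P (Quotient.out ω))
  have h1 := hc (Quotient.out ω)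
  rw [hi] at h1 ⊢
  exact pow_dvd_pow _ ((Nat.pow_lt_pow_iff_right (Fact.out : ℓ.Prime).one_lt).mp h1)

/-- restriction of an action to an invariant subgroup -/
@[reducible] def subAct {P X : Type} [Group P] [Group X] [MulDistribMulAction P X]
    (H : Subgroup P) (S : Subgroup X) (h : ∀ g ∈ H, ∀ x ∈ S, g • x ∈ S) :
    MulDistribMulAction H S where
  smul g x := ⟨g.1 • x.1, h g.1 g.2 x.1 x.2⟩
  one_smul x := Subtype.ext (one_smul P x.1)
  mul_smul a b x := Subtype.ext (mul_smul a.1 b.1 x.1)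
  smul_mul g x y := Subtype.ext (smul_mul' g.1 x.1 y.1)
  smul_one g := Subtype.ext (smul_one g.1)

/-- the induced action on a quotient -/
@[reducible] def quotAct {P X : Type} [Group P] [Group X] [MulDistribMulAction P X]
    (Y : Subgroup X) [Y.Normal] (h : ∀ g : P, ∀ x ∈ Y, g • x ∈ Y) :
    MulDistribMulAction P (X ⧸ Y) where
  smul g := QuotientGroup.map Y Y (MulDistribMulAction.toMonoidHom X g) (fun x hx => h g x hx)
  one_smul q := by
    induction q using QuotientGroup.induction_on with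
    | H x => exact congrArg QuotientGroup.mk (one_smul P x)
  mul_smul a b q := by
    induction q using QuotientGroup.induction_on with
    | H x => exact congrArg QuotientGroup.mk (mul_smul a b x)
  smul_mul g x y := map_mul (QuotientGroup.map Y Y (MulDistribMulAction.toMonoidHom X g)
    (fun x hx => h g x hx)) x y
  smul_one g := map_one (QuotientGroup.map Y Y (MulDistribMulAction.toMonoidHom X g)
    (fun x hx => h g x hx))

/-- pointwise stabiliser of a subgroup -/
def fixS (P : Type) {X : Type} [Group P] [Group X] [MulDistribMulAction P X] (S : Subgroup X) :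
    Subgroup P where
  carrier := {g | ∀ x ∈ S, g • x = x}
  one_mem' := fun x _ => one_smul P x
  mul_mem' := fun {a b} ha hb x hx => by rw [mul_smul, hb x hx, ha x hx]
  inv_mem' := fun {a} ha x hx => by rw [inv_smul_eq_iff, ha x hx]

lemma ab_fixS {ℓ n k c M j : ℕ} (ih : Main ℓ n k c M) {X : Type} [Group X] [Finite X]
    {P : Type} [Group P] [Finite P] [MulDistribMulAction P X] (hP : IsPGroup ℓ P)
    (H : Subgroup P) (S : Subgroup X) (h : ∀ g ∈ H, ∀ x ∈ S, g • x ∈ S) (hj : H.index ≤ j)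
    (hS : cardFactors (Nat.card S) ≤ k) : ABrel n (fixS P S) (c * j) M := by
  let := subAct H S h
  have h1 := ih S hS H (hP.to_subgroup H)
  apply ABrel.of_subgroup H hj
  convert h1 using 1
  ext g
  rw [mem_fixK, Subgroup.mem_subgroupOf]
  constructor
  · intro hg x; exact Subtype.ext (hg x.1 x.2)
  · intro hg x hx; exact congrArg Subtype.val (hg ⟨x, hx⟩)

lemma case_ext {p ℓ n k c M : ℕ} [Fact p.Prime] [Fact ℓ.Prime] (hpl : p ≠ ℓ)
    (ih : Main ℓ n k c M) {X : Type} [Group X] [Finite X] (hX : IsPGroup p X)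
    (hk : cardFactors (Nat.card X) ≤ k + 1)
    {P : Type} [Group P] [Finite P] [MulDistribMulAction P X] (hP : IsPGroup ℓ P)
    (Y : Subgroup X) [Y.Normal] (h : ∀ g : P, ∀ x ∈ Y, g • x ∈ Y) (hb : Y ≠ ⊥) (ht : Y ≠ ⊤) :
    ABrel n (fixK P X) (c * c) (M * M) := by
  have hc := Y.card_mul_index
  have h0 : Nat.card Y ≠ 0 := Nat.card_pos.ne'
  have h0' : Y.index ≠ 0 := Subgroup.index_ne_zero_of_finite
  have h1 := ab_fixS (j := 1) ih hP ⊤ Y (fun g _ => h g) (by simp)
    (om_mul_le h0 h0' (fun e => ht (Subgroup.index_eq_one.mp e)) (hc ▸ hk))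
  rw [mul_one] at h1
  let := quotAct Y h
  have h2 := ih (X ⧸ Y) (om_mul_le (b := Nat.card Y) h0' h0
    (fun e => hb (Subgroup.card_eq_one.mp e)) (by rw [mul_comm]; exact hc ▸ hk)) P hP
  convert h1.inf h2 using 1
  ext g
  constructor
  · intro hg
    refine ⟨fun x _ => hg x, fun q => ?_⟩
    induction q using QuotientGroup.induction_on with
    | H x => exact congrArg QuotientGroup.mk (hg x)
  · rintro ⟨hg1, hg2⟩
    have key : g ^ Nat.card X ∈ fixK P X := by
      intro x
      have hy : x⁻¹ * g • x ∈ Y := QuotientGroup.eq.mp (hg2 (x : X ⧸ Y)).symm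
      have : ∀ i : ℕ, g ^ i • x = x * (x⁻¹ * g • x) ^ i := by
        intro i
        induction i with
        | zero => simp
        | succ i ih =>
          rw [pow_succ', mul_smul, ih, smul_mul', hg1 _ (Y.pow_mem hy i), pow_succ',
            ← mul_assoc, mul_inv_cancel_left]
      rw [this, pow_card_eq_one', mul_one]
    obtain ⟨a, ha⟩ := hX.exists_card_eq
    obtain ⟨b, hb⟩ := hP g
    have hcop : (Nat.card X).Coprime (orderOf g) := by
      rw [ha]
      exact Nat.Coprime.coprime_dvd_right (orderOf_dvd_of_pow_eq_one hb)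
        (Nat.coprime_pow_primes a b Fact.out Fact.out hpl)
    obtain ⟨m, hm⟩ := exists_pow_eq_self_of_coprime hcop
    rw [← hm]
    exact Subgroup.pow_mem _ key m

lemma ab_addaut {p ℓ n k : ℕ} [Fact p.Prime] [Fact ℓ.Prime] (hpl : p ≠ ℓ) (hn : 0 < n)
    {V : Type} [AddCommGroup V] [Module (ZMod p) V] [Finite V]
    (hk : cardFactors (Nat.card V) ≤ k) {Q : Type} [Group Q] [Finite Q] (hQ : IsPGroup ℓ Q)
    (θ : Q → (V →+ V)) (h1 : ∀ v, θ 1 v = v) (h2 : ∀ a b v, θ (a * b) v = θ a (θ b v))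
    (h3 : Injective θ) :
    ABrel n (⊥ : Subgroup Q) ((k * k + 1) ^ (k * k)) (n ^ (k * k)) := by
  have hfin : Module.Finite (ZMod p) V := Module.Finite.of_finite
  have hrk : Module.finrank (ZMod p) V ≤ k := by
    have h1 := Module.natCard_eq_pow_finrank (K := ZMod p) (V := V)
    rw [Nat.card_zmod] at h1
    rw [h1, cardFactors_apply_prime_pow Fact.out] at hk
    exact hk
  let θ0 : Q →* Module.End (ZMod p) V :=
    { toFun := fun a => (θ a).toZModLinearMap p
      map_one' := by ext v; exact h1 v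
      map_mul' := fun a b => by ext v; exact h2 a b v }
  have hθ0 : Injective θ0 := by
    intro a b e
    apply h3
    ext x
    exact LinearMap.congr_fun e x
  have hD : Module.finrank (ZMod p) (Module.End (ZMod p) V) ≤ k * k := by
    rw [Module.finrank_linearMap]
    exact Nat.mul_le_mul hrk hrk
  exact ab_linear hpl hD hQ θ0 hθ0 hn

lemma case_elem {p ℓ n k : ℕ} [Fact p.Prime] [Fact ℓ.Prime] (hpl : p ≠ ℓ) (hn : 0 < n)
    {X : Type} [CommGroup X] [Finite X] (hX : ∀ x : X, x ^ p = 1)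
    (hk : cardFactors (Nat.card X) ≤ k)
    {P : Type} [Group P] [Finite P] [MulDistribMulAction P X] (hP : IsPGroup ℓ P) :
    ABrel n (fixK P X) ((k * k + 1) ^ (k * k)) (n ^ (k * k)) := by
  let ρ := MulDistribMulAction.toMulAut P X
  have hQ : IsPGroup ℓ ρ.range := hP.of_surjective ρ.rangeRestrict ρ.rangeRestrict_surjective
  have h1 := @ab_addaut p ℓ n k _ _ hpl hn (Additive X) _
    (AddCommGroup.zmodModule (fun x => hX x.toMul)) _ hk ρ.range _ _ hQ
    (fun a => MonoidHom.toAdditive a.1.toMonoidHom) (fun _ => rfl) (fun _ _ _ => rfl) (by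
      intro a b e
      apply Subtype.ext
      ext x
      exact DFunLike.congr_fun e (Additive.ofMul x))
  convert h1.comap ρ.rangeRestrict using 1
  ext g
  rw [mem_fixK, Subgroup.mem_comap, Subgroup.mem_bot]
  constructor
  · intro hg; apply Subtype.ext; ext x; exact hg x
  · intro hg x; exact DFunLike.congr_fun (congrArg Subtype.val hg) x

lemma case_small {n c : ℕ} {X : Type} [Finite X] (hX : Nat.card X ≤ c)
    {P : Type} [Group P] [MulAction P X] : ABrel n (fixK P X) c.factorial 1 := by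
  have h1 : ABrel n (⊥ : Subgroup (Equiv.Perm X)) c.factorial 1 :=
    ABrel.bot_of_card (by rw [Nat.card_perm]; exact Nat.factorial_le hX)
  convert h1.comap (MulAction.toPermHom P X) using 1
  ext g
  rw [mem_fixK, Subgroup.mem_comap, Subgroup.mem_bot]
  constructor
  · intro hg; ext x; exact hg x
  · intro hg x; exact DFunLike.congr_fun hg x

lemma case_sylow {ℓ n k c M : ℕ} [Fact ℓ.Prime]
    (ih : Main ℓ n k c M) {X : Type} [Group X] [Finite X]
    (hX : ∀ p : ℕ, p.Prime → ¬ IsPGroup p X)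
    (hk : cardFactors (Nat.card X) ≤ k + 1)
    {P : Type} [Group P] [Finite P] [MulDistribMulAction P X] (hP : IsPGroup ℓ P) :
    ABrel n (fixK P X) ((c * ℓ ^ (k + 1) + 1) ^ (k + 1)) ((M + 1) ^ (k + 1)) := by
  have h0 : Nat.card X ≠ 0 := Nat.card_pos.ne'
  have key : ∀ p : ℕ, ∃ S : Subgroup X, p.Prime →
      (Nat.card S = p ^ (Nat.card X).factorization p ∧
        ABrel n (fixS P S) (c * ℓ ^ (k + 1)) M) := by
    intro p
    by_cases hp : p.Prime
    swap
    · exact ⟨⊥, fun h => absurd h hp⟩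
    have := Fact.mk hp
    obtain ⟨S0⟩ : Nonempty (Sylow p X) := inferInstance
    have hnd : ¬ ℓ ^ (k + 1 + 1) ∣ Nat.card (Sylow p X) := by
      intro hd
      have := om_pow_dvd Fact.out h0 ((hd.trans S0.card_dvd_index).trans (Subgroup.index_dvd_card _))
      omega
    obtain ⟨S, hS⟩ := exists_small_orbit hP hnd
    refine ⟨S, fun _ => ⟨S.card_eq_multiplicity, ?_⟩⟩
    refine ab_fixS ih hP (MulAction.stabilizer P S) (S : Subgroup X) ?_ hS ?_
    · intro g hg x hx
      have e : g • S = S := hg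
      have : g • x ∈ ((g • S : Sylow p X) : Subgroup X) := by
        rw [Sylow.pointwise_smul_def]
        exact Subgroup.smul_mem_pointwise_smul _ _ _ hx
      rwa [e] at this
    · have hc := (S : Subgroup X).card_mul_index
      refine om_mul_le Nat.card_pos.ne' Subgroup.index_ne_zero_of_finite ?_ (hc ▸ hk)
      intro e
      apply hX p hp
      have e' := Subgroup.index_eq_one.mp e
      have h2 := S.isPGroup'
      rw [e'] at h2
      exact h2.of_equiv Subgroup.topEquiv
  choose S hS using key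
  have h1 := ABrel.iInf (n := n) (Nat.card X).primeFactors (fun p => fixS P (S p))
    (c := c * ℓ ^ (k + 1) + 1) (M := M + 1)
    (fun p hp => (hS p (Nat.prime_of_mem_primeFactors hp)).2.mono (by omega) (by omega))
  have hcard : (Nat.card X).primeFactors.card ≤ k + 1 := by
    refine le_trans ?_ hk
    rw [cardFactors_apply]
    exact List.toFinset_card_le _
  refine ABrel.mono ?_ (Nat.pow_le_pow_right (by omega) hcard)
    (Nat.pow_le_pow_right (by omega) hcard)
  convert h1 using 1
  ext g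
  simp only [Subgroup.mem_iInf]
  constructor
  · intro hg p _ x _; exact hg x
  · intro hg
    let F : Subgroup X := (MulDistribMulAction.toMonoidHom X g).eqLocus (MonoidHom.id X)
    have hF : Nat.card X ∣ Nat.card F := by
      rw [← Nat.factorization_prime_le_iff_dvd h0 Nat.card_pos.ne']
      intro p hp
      by_cases hpd : p ∈ (Nat.card X).primeFactors
      · have hle : S p ≤ F := fun x hx => hg p hpd x hx
        have := Subgroup.card_dvd_of_le hle
        rw [(hS p hp).1] at this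
        exact (hp.pow_dvd_iff_le_factorization Nat.card_pos.ne').mp this
      · rw [← Nat.support_factorization, Finsupp.notMem_support_iff] at hpd
        rw [hpd]; exact Nat.zero_le _
    have hT : F = ⊤ := Subgroup.eq_top_of_le_card F (Nat.le_of_dvd Nat.card_pos hF)
    intro x
    have : x ∈ F := by rw [hT]; trivial
    exact this

open scoped IsMulCommutative in
theorem main_exists (ℓ n : ℕ) [Fact ℓ.Prime] (hn : 0 < n) (k : ℕ) : ∃ c M, Main ℓ n k c M := by
  induction k with
  | zero =>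
    refine ⟨Nat.factorial 1, 1, ?_⟩
    intro X _ _ hk P _ _ _ _
    apply case_small
    by_contra hc
    have : 0 < cardFactors (Nat.card X) := cardFactors_pos_iff_one_lt.mpr (by omega)
    omega
  | succ k ih =>
    obtain ⟨c, M, ih⟩ := ih
    refine ⟨(ℓ ^ (k + 1)).factorial + c * c + ((k + 1) * (k + 1) + 1) ^ ((k + 1) * (k + 1)) +
      (c * ℓ ^ (k + 1) + 1) ^ (k + 1), 1 + M * M + n ^ ((k + 1) * (k + 1)) + (M + 1) ^ (k + 1), ?_⟩
    intro X _ _ hk P _ _ _ hP
    by_cases hX : ∀ p : ℕ, p.Prime → ¬ IsPGroup p X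
    · exact (case_sylow ih hX hk hP).mono (by omega) (by omega)
    push Not at hX
    obtain ⟨p, hp, hX⟩ := hX
    have := Fact.mk hp
    by_cases hpl : p = ℓ ∨ Subsingleton X
    · have : Nat.card X ≤ ℓ ^ (k + 1) := by
        rcases hpl with rfl | hs
        · obtain ⟨a, ha⟩ := hX.exists_card_eq
          rw [ha, cardFactors_apply_prime_pow hp] at hk
          rw [ha]
          exact Nat.pow_le_pow_right hp.pos hk
        · rw [Nat.card_unique]
          exact Nat.one_le_pow _ _ (Fact.out : ℓ.Prime).pos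
      exact (case_small this).mono (by omega) (by omega)
    push Not at hpl
    obtain ⟨hpl, hnt⟩ := hpl
    by_cases hY : ∃ Y : Subgroup X, Y.Normal ∧ (∀ g : P, ∀ x ∈ Y, g • x ∈ Y) ∧ Y ≠ ⊥ ∧ Y ≠ ⊤
    · obtain ⟨Y, hYn, h1, h2, h3⟩ := hY
      exact (case_ext hpl ih hX hk hP Y h1 h2 h3).mono (by omega) (by omega)
    push Not at hY
    have hz : Subgroup.center X = ⊤ := by
      apply hY _ inferInstance
      · intro g x hx
        rw [Subgroup.mem_center_iff] at hx ⊢
        intro y
        have := congrArg (fun z => g • z) (hx (g⁻¹ • y))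
        simpa [smul_mul'] using this
      · exact hX.bot_lt_center.ne'
    have hcomm : ∀ x y : X, x * y = y * x := by
      intro x y
      have : y ∈ Subgroup.center X := by rw [hz]; trivial
      exact Subgroup.mem_center_iff.mp this x
    have hmc : IsMulCommutative X := ⟨⟨hcomm⟩⟩
    have hexp : (powMonoidHom p : X →* X).ker = ⊤ := by
      apply hY _ inferInstance
      · intro g x hx
        rw [MonoidHom.mem_ker, powMonoidHom_apply] at hx ⊢
        rw [← smul_pow', hx, smul_one]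
      · obtain ⟨a, ha⟩ := hX.exists_card_eq
        have ha0 : a ≠ 0 := by
          rintro rfl
          rw [pow_zero] at ha
          exact not_subsingleton X (Nat.card_eq_one_iff_unique.mp ha).1
        obtain ⟨x, hx⟩ := exists_prime_orderOf_dvd_card' (G := X) p
          (by rw [ha]; exact dvd_pow_self p ha0)
        intro e
        have : x ∈ (powMonoidHom p : X →* X).ker := by
          rw [MonoidHom.mem_ker, powMonoidHom_apply, ← hx, pow_orderOf_eq_one]
        rw [e, Subgroup.mem_bot] at this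
        rw [this, orderOf_one] at hx
        exact hp.one_lt.ne hx
    have hx : ∀ x : X, x ^ p = 1 := by
      intro x
      have : x ∈ (powMonoidHom p : X →* X).ker := by rw [hexp]; trivial
      exact this
    exact (case_elem hpl hn hx hk hP).mono (by omega) (by omega)

end Pool.Agent.MP_5f7865_al

end

-- part MP_5f7865_al.Final
section

namespace Pool.Agent.MP_5f7865_al

open Function ArithmeticFunction

def Good (m c M : ℕ) (A : Type) [Group A] : Prop :=
  ∀ ℓ : ℕ, ℓ.Prime → ℓ ∣ m → ∀ (P : Type) [Group P] [Finite P], IsPGroup ℓ P →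
    ∀ ι : P →* A, Injective ι → ABrel m (⊥ : Subgroup P) c M

def HConj {G A : Type} [Group G] [Group A] (φ ψ : G →* A) : Prop :=
  ∃ a : A, ∀ g : G, ψ g = a * φ g * a⁻¹

lemma labElts {m c M ℓ : ℕ} {A : Type} [Group A] [Finite A] (hA : Good m c M A) (hℓ : ℓ.Prime)
    (hm : ℓ ∣ m) (N : Subgroup A) :
    Lab {x : N // x ^ m = 1 ∧ ∃ e : ℕ, x ^ (ℓ ^ e) = 1} (fun x y => IsConj x.1 y.1)
      (c.factorial * M) := by
  have := Fact.mk hℓ
  obtain ⟨S⟩ : Nonempty (Sylow ℓ N) := inferInstance
  have h1 := lab_elements (hA ℓ hℓ hm (S : Subgroup N) S.isPGroup'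
    (N.subtype.comp (S : Subgroup N).subtype)
    (Subtype.val_injective.comp Subtype.val_injective))
  have key : ∀ x : {x : N // x ^ m = 1 ∧ ∃ e : ℕ, x ^ (ℓ ^ e) = 1},
      ∃ y : {y : (S : Subgroup N) // y ^ m = 1}, IsConj (y.1 : N) x.1 := by
    rintro ⟨x, hx1, e, hx2⟩
    have hz : IsPGroup ℓ (Subgroup.zpowers x) := by
      rintro ⟨_, i, rfl⟩
      refine ⟨e, Subtype.ext ?_⟩
      change (x ^ i) ^ (ℓ ^ e) = 1
      rw [← zpow_natCast, ← zpow_mul, mul_comm, zpow_mul, zpow_natCast, hx2, one_zpow]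
    obtain ⟨Q, hQ⟩ := hz.exists_le_sylow
    obtain ⟨g, hg⟩ := MulAction.exists_smul_eq N S Q
    have hx : x ∈ ((g • S : Sylow ℓ N) : Subgroup N) := by
      rw [hg]; exact hQ (Subgroup.mem_zpowers x)
    rw [Sylow.coe_subgroup_smul, Subgroup.mem_smul_pointwise_iff_exists] at hx
    obtain ⟨y, hy, hyx⟩ := hx
    have hyx' : g * y * g⁻¹ = x := hyx
    refine ⟨⟨⟨y, hy⟩, Subtype.ext ?_⟩, isConj_iff.mpr ⟨g, hyx'⟩⟩
    change y ^ m = 1
    rw [← hyx', conj_pow, mul_inv_eq_one, mul_eq_left] at hx1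
    exact hx1
  choose f hf using key
  refine h1.pull f ?_
  intro x y e
  have e' : IsConj ((f x).1 : N) ((f y).1 : N) := (S : Subgroup N).subtype.map_isConj e
  exact ((hf x).symm.trans e').trans (hf y)

lemma exists_step (G : Type) [Group G] [Finite G] [Group.IsSolvable G] [Nontrivial G] :
    ∃ (K : Subgroup G) (ℓ e : ℕ) (g0 : G), K.Normal ∧ K ≠ ⊤ ∧ ℓ.Prime ∧ ℓ ∣ Nat.card G ∧
      g0 ^ (ℓ ^ e) = 1 ∧ K ⊔ Subgroup.zpowers g0 = ⊤ := by
  obtain ⟨K, hK, hle⟩ := (eq_top_or_exists_le_coatom (commutator G)).resolve_left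
    (Group.IsSolvable.commutator_lt_top_of_nontrivial G).ne
  have h0 : Nat.card G ≠ 0 := Nat.card_pos.ne'
  have : ∃ (ℓ e : ℕ) (g0 : G), ℓ.Prime ∧ ℓ ∣ Nat.card G ∧ g0 ^ (ℓ ^ e) = 1 ∧ g0 ∉ K := by
    by_contra hc
    push Not at hc
    apply hK.1
    have hF : Nat.card G ∣ Nat.card K := by
      rw [← Nat.factorization_prime_le_iff_dvd h0 Nat.card_pos.ne']
      intro p hp
      by_cases hpd : p ∣ Nat.card G
      · have := Fact.mk hp
        obtain ⟨S⟩ : Nonempty (Sylow p G) := inferInstance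
        have hle : (S : Subgroup G) ≤ K := by
          intro x hx
          obtain ⟨e, he⟩ := S.isPGroup' ⟨x, hx⟩
          exact hc p e x hp hpd (congrArg Subtype.val he)
        have := Subgroup.card_dvd_of_le hle
        rw [S.card_eq_multiplicity] at this
        exact (hp.pow_dvd_iff_le_factorization Nat.card_pos.ne').mp this
      · rw [Nat.factorization_eq_zero_of_not_dvd hpd]; exact Nat.zero_le _
    exact Subgroup.eq_top_of_le_card K (Nat.le_of_dvd Nat.card_pos hF)
  obtain ⟨ℓ, e, g0, h1, h2, h3, h4⟩ := this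
  refine ⟨K, ℓ, e, g0, Subgroup.Normal.of_commutator_le _ hle, hK.1, h1, h2, h3, ?_⟩
  apply hK.2
  refine lt_of_le_of_ne le_sup_left ?_
  intro e
  apply h4
  rw [e]
  exact Subgroup.mem_sup_right (Subgroup.mem_zpowers g0)

theorem lab_homs {m c M : ℕ} (hm : 0 < m) {A : Type} [Group A] [Finite A] (hA : Good m c M A)
    (j : ℕ) : ∀ (G : Type) [Group G] [Finite G] [Group.IsSolvable G], Nat.card G ≤ j →
      Nat.card G ∣ m → Lab (G →* A) HConj ((c.factorial * M * m ^ m + 1) ^ j) := by
  induction j with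
  | zero =>
    intro G _ _ _ h _
    exact absurd (Nat.card_pos (α := G)) (by omega)
  | succ j ih =>
    intro G _ _ _ hj hdvd
    rcases subsingleton_or_nontrivial G with hs | hnt
    · refine Lab.mono (n := 1) ⟨fun _ => 0, fun φ ψ _ => ⟨1, fun g => ?_⟩⟩
        (Nat.one_le_pow _ _ (by omega))
      rw [Subsingleton.elim g 1]; simp
    obtain ⟨K, ℓ, e, g0, hKn, hKt, hℓ, hℓd, hg0, hsup⟩ := exists_step G
    have hKc : Nat.card K ≤ j := by
      by_contra hc
      exact hKt (Subgroup.eq_top_of_le_card K (by omega))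
    have hKm : Nat.card K ∣ m := (Subgroup.card_subgroup_dvd_card K).trans hdvd
    have L1 : Lab (G →* A) (fun φ ψ => HConj (φ.comp K.subtype) (ψ.comp K.subtype))
        ((c.factorial * M * m ^ m + 1) ^ j) :=
      (ih K hKc hKm).pull (fun φ => φ.comp K.subtype) (fun _ _ h => h)
    rw [pow_succ]
    refine L1.refine ?_
    intro φ0
    refine Lab.mono ?_ (Nat.le_succ _)
    let H : Subgroup A := K.map φ0
    let N : Subgroup A := Subgroup.normalizer (H : Set A)
    have hHc : Nat.card H ≤ m :=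
      (Nat.le_of_dvd Nat.card_pos (Subgroup.card_map_dvd K φ0)).trans (Nat.le_of_dvd hm hKm)
    have L2 := labElts hA hℓ (hℓd.trans hdvd) N
    have L3 : Lab {x : N // x ^ m = 1 ∧ ∃ e : ℕ, x ^ (ℓ ^ e) = 1}
        (fun x y => ∃ b : A, (∀ h ∈ H, b * h * b⁻¹ = h) ∧ (y.1 : A) = b * x.1 * b⁻¹)
        (c.factorial * M * m ^ m) := by
      refine L2.refine ?_
      intro x0
      have hb : ∀ x : {x // IsConj x0.1 (x : {x : N // x ^ m = 1 ∧ ∃ e : ℕ, x ^ (ℓ ^ e) = 1}).1},
          ∃ b : N, b * x0.1 * b⁻¹ = x.1.1 := fun x => isConj_iff.mp x.2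
      choose b hb using hb
      refine Lab.of_map (β := H → H) (fun x h => ⟨(b x : A)⁻¹ * h * (b x : A),
        (Subgroup.mem_normalizer_iff''.mp (b x).2 h.1).mp h.2⟩) ?_ ?_
      · rw [Nat.card_fun]
        exact (Nat.pow_le_pow_left hHc _).trans (Nat.pow_le_pow_right hm hHc)
      · intro x y e
        refine ⟨(b y : A) * (b x : A)⁻¹, ?_, ?_⟩
        · intro h hh
          have e1 : (b x : A)⁻¹ * h * (b x : A) = (b y : A)⁻¹ * h * (b y : A) :=
            congrArg Subtype.val (congrFun e ⟨h, hh⟩)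
          calc (b y : A) * (b x : A)⁻¹ * h * ((b y : A) * (b x : A)⁻¹)⁻¹
              = b y * ((b x : A)⁻¹ * h * (b x : A)) * (b y : A)⁻¹ := by group
            _ = h := by rw [e1]; group
        · rw [← hb x, ← hb y]
          simp only [Subgroup.coe_mul, Subgroup.coe_inv]
          group
    have ha : ∀ φ : {φ : G →* A // HConj (φ0.comp K.subtype) (φ.comp K.subtype)},
        ∃ a : A, ∀ κ ∈ K, a⁻¹ * φ.1 κ * a = φ0 κ := by
      rintro ⟨φ, a, ha⟩
      refine ⟨a, fun κ hκ => ?_⟩
      have : φ κ = a * φ0 κ * a⁻¹ := ha ⟨κ, hκ⟩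
      change a⁻¹ * φ κ * a = φ0 κ
      rw [this]; group
    choose a ha using ha
    have hpow : ∀ (φ : {φ : G →* A // HConj (φ0.comp K.subtype) (φ.comp K.subtype)}) (i : ℕ),
        g0 ^ i = 1 → ((a φ)⁻¹ * φ.1 g0 * a φ) ^ i = 1 := by
      intro φ i hi
      have := conj_pow (a := (a φ)⁻¹) (b := φ.1 g0) (i := i)
      rw [inv_inv] at this
      rw [this, ← map_pow, hi, map_one]; group
    refine L3.pull (fun φ => ⟨⟨(a φ)⁻¹ * φ.1 g0 * a φ, ?_⟩, ?_, e, ?_⟩) ?_
    · apply Subgroup.mem_normalizer_fintype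
      rintro _ ⟨κ, hκ, rfl⟩
      refine ⟨g0 * κ * g0⁻¹, hKn.conj_mem κ hκ g0, ?_⟩
      rw [← ha φ _ (hKn.conj_mem κ hκ g0), ← ha φ κ hκ, map_mul, map_mul, map_inv]
      group
    · apply Subtype.ext
      apply hpow
      obtain ⟨d, hd⟩ := hdvd
      rw [hd, pow_mul, pow_card_eq_one', one_pow]
    · exact Subtype.ext (hpow φ _ hg0)
    · rintro φ ψ ⟨b, hb1, hb2⟩
      have hb2' : (a ψ)⁻¹ * ψ.1 g0 * a ψ = b * ((a φ)⁻¹ * φ.1 g0 * a φ) * b⁻¹ := hb2
      let d : A := a ψ * b * (a φ)⁻¹
      refine ⟨d, ?_⟩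
      have hle : K ⊔ Subgroup.zpowers g0 ≤
          ψ.1.eqLocus ((MulAut.conj d).toMonoidHom.comp φ.1) := by
        apply sup_le
        · intro κ hκ
          change ψ.1 κ = d * φ.1 κ * d⁻¹
          calc ψ.1 κ = a ψ * ((a ψ)⁻¹ * ψ.1 κ * a ψ) * (a ψ)⁻¹ := by group
            _ = a ψ * (b * ((a φ)⁻¹ * φ.1 κ * a φ) * b⁻¹) * (a ψ)⁻¹ := by
                rw [ha ψ κ hκ, ha φ κ hκ, hb1 _ ⟨κ, hκ, rfl⟩]
            _ = _ := by simp only [d]; group
        · rw [Subgroup.zpowers_le]
          change ψ.1 g0 = d * φ.1 g0 * d⁻¹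
          calc ψ.1 g0 = a ψ * ((a ψ)⁻¹ * ψ.1 g0 * a ψ) * (a ψ)⁻¹ := by group
            _ = _ := by rw [hb2']; simp only [d]; group
      intro g
      exact hle (by rw [hsup]; trivial)

lemma good_exists (m : ℕ) (hm : 0 < m) (k : ℕ) : ∃ c M, ∀ (X : Type) [Group X] [Finite X],
    cardFactors (Nat.card X) ≤ k → Good m c M (MulAut X) := by
  have key : ∀ ℓ : ℕ, ∃ c M, ℓ.Prime → Main ℓ m k c M := by
    intro ℓ
    by_cases h : ℓ.Prime
    · have := Fact.mk h
      obtain ⟨c, M, h⟩ := main_exists ℓ m hm k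
      exact ⟨c, M, fun _ => h⟩
    · exact ⟨0, 0, fun h' => absurd h' h⟩
  choose c M h using key
  refine ⟨∑ ℓ ∈ Finset.range (m + 1), c ℓ, ∑ ℓ ∈ Finset.range (m + 1), M ℓ, ?_⟩
  intro X _ _ hk ℓ hℓ hd P _ _ hP ι hι
  have hmem : ℓ ∈ Finset.range (m + 1) :=
    Finset.mem_range.mpr (Nat.lt_succ_of_le (Nat.le_of_dvd hm hd))
  let := MulDistribMulAction.compHom X ι
  have h1 := h ℓ hℓ X hk P hP
  have h2 : fixK P X = ⊥ := by
    rw [eq_bot_iff]
    intro g hg
    rw [Subgroup.mem_bot]
    apply hι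
    rw [map_one]
    ext x
    exact hg x
  rw [h2] at h1
  exact h1.mono (Finset.single_le_sum (f := c) (fun _ _ => Nat.zero_le _) hmem)
    (Finset.single_le_sum (f := M) (fun _ _ => Nat.zero_le _) hmem)

theorem final (G : Type) [Group G] [Finite G] [Group.IsSolvable G] : ∃ f : ℕ → ℕ,
    ∀ (X : Type) [Group X] [Finite X],
      Nat.card (Quot (fun φ ψ : G →* MulAut X =>
          ∃ a : MulAut X, ∀ g : G, ψ g = a * φ g * a⁻¹))
        ≤ f (Nat.primeFactorsList (Nat.card X)).length := by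
  have hm : 0 < Nat.card G := Nat.card_pos
  choose c M h using good_exists (Nat.card G) hm
  refine ⟨fun k => ((c k).factorial * M k * Nat.card G ^ Nat.card G + 1) ^ Nat.card G, ?_⟩
  intro X _ _
  exact (lab_homs hm (h _ X (by rw [cardFactors_apply])) _ G le_rfl dvd_rfl).card_quot_le

end Pool.Agent.MP_5f7865_al

end
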