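import Mathlib
import Pool.Agent.MP_5f7865_al.Basic

-- part MP_5f7865_al.H99.Poly
section

/-! Polynomial relations of bounded degree, directional derivatives. -/

namespace Pool.Agent.MP_5f7865_al.H99

open MvPolynomial Function

section general
variable {F : Type} [Field F]

lemma deg_aeval_le {σ τ : Type} (g : σ → MvPolynomial τ F) (D : ℕ)
    (hg : ∀ i, (g i).totalDegree ≤ D) (f : MvPolynomial σ F) :
    (aeval g f).totalDegree ≤ f.totalDegree * D := by
  classical
  conv_lhs => rw [f.as_sum]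
  rw [map_sum]
  refine totalDegree_finsetSum_le fun s hs => ?_
  rw [aeval_monomial]
  refine (totalDegree_mul _ _).trans ?_
  rw [algebraMap_eq, totalDegree_C, zero_add, Finsupp.prod]
  refine (totalDegree_finsetProd _ _).trans ?_
  calc ∑ i ∈ s.support, (g i ^ s i).totalDegree ≤ ∑ i ∈ s.support, s i * D :=
        Finset.sum_le_sum fun i _ => (totalDegree_pow _ _).trans (Nat.mul_le_mul_left _ (hg i))
    _ = (s.sum fun _ e => e) * D := by rw [Finsupp.sum, Finset.sum_mul]
    _ ≤ _ := Nat.mul_le_mul_right _ (le_totalDegree hs)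

/-- more polynomials than variables satisfy a relation of bounded degree -/
lemma exists_rel (N : ℕ) {σ κ : Type} [Fintype σ] [Fintype κ]
    (hlt : Fintype.card σ < Fintype.card κ) (hκ : Fintype.card κ ≤ N)
    (g : κ → MvPolynomial σ F) (hg : ∀ i, (g i).totalDegree ≤ N) :
    ∃ A : MvPolynomial κ F, A ≠ 0 ∧ A.totalDegree ≤ N * (N * N) ^ N ∧ aeval g A = 0 := by
  classical
  set e := (N * N) ^ N with he
  have hN : 0 < N := by omega
  let mon : (κ → Fin (e + 1)) → (κ →₀ ℕ) := fun α => Finsupp.equivFunOnFinite.symm fun i => α i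
  have hmon : Injective mon := by
    intro α β h
    have := Finsupp.equivFunOnFinite.symm.injective h
    funext i
    exact Fin.ext (congrFun this i)
  let mon' : (σ → Fin (N * e * N + 1)) → (σ →₀ ℕ) :=
    fun α => Finsupp.equivFunOnFinite.symm fun i => α i
  let P : ((κ → Fin (e + 1)) → F) →ₗ[F] MvPolynomial κ F :=
    ∑ α, (monomial (mon α)).comp (LinearMap.proj α)
  have hP : ∀ c, P c = ∑ α, monomial (mon α) (c α) := by
    intro c; simp [P, LinearMap.sum_apply]
  let Q : MvPolynomial σ F →ₗ[F] ((σ → Fin (N * e * N + 1)) → F) :=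
    LinearMap.pi fun β => lcoeff F (mon' β)
  have hdeg : ∀ c, (P c).totalDegree ≤ N * e := by
    intro c
    rw [hP]
    refine totalDegree_finsetSum_le fun α _ => (totalDegree_monomial_le _ _).trans ?_
    rw [Finsupp.sum_fintype _ _ (fun _ => rfl)]
    calc ∑ i, id (mon α i) ≤ ∑ _i : κ, e :=
          Finset.sum_le_sum fun i _ => by simpa [mon] using Nat.lt_succ_iff.mp (α i).2
      _ = Fintype.card κ * e := by simp
      _ ≤ N * e := Nat.mul_le_mul_right _ hκ
  have hlt' : Module.finrank F ((σ → Fin (N * e * N + 1)) → F) <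
      Module.finrank F ((κ → Fin (e + 1)) → F) := by
    simp only [Module.finrank_fintype_fun_eq_card, Fintype.card_fun, Fintype.card_fin]
    have h1 : N * e * N + 1 ≤ (N * N) * (e + 1) := by
      have : 1 ≤ N * N := Nat.mul_pos hN hN
      nlinarith
    calc (N * e * N + 1) ^ Fintype.card σ ≤ ((N * N) * (e + 1)) ^ Fintype.card σ :=
          Nat.pow_le_pow_left h1 _
      _ = (N * N) ^ Fintype.card σ * (e + 1) ^ Fintype.card σ := mul_pow _ _ _
      _ ≤ e * (e + 1) ^ Fintype.card σ :=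
          Nat.mul_le_mul_right _ (Nat.pow_le_pow_right (Nat.mul_pos hN hN) (by omega))
      _ < (e + 1) * (e + 1) ^ Fintype.card σ :=
          Nat.mul_lt_mul_of_pos_right (Nat.lt_succ_self _) (by positivity)
      _ = (e + 1) ^ (Fintype.card σ + 1) := by ring
      _ ≤ _ := Nat.pow_le_pow_right (by omega) hlt
  have hker := LinearMap.ker_ne_bot_of_finrank_lt
    (f := Q ∘ₗ (aeval g : MvPolynomial κ F →ₐ[F] MvPolynomial σ F).toLinearMap ∘ₗ P) hlt'
  obtain ⟨c, hc, hc0⟩ := Submodule.exists_mem_ne_zero_of_ne_bot hker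
  refine ⟨P c, ?_, hdeg c, ?_⟩
  · intro h
    apply hc0
    funext α
    have := congrArg (coeff (mon α)) h
    rw [hP, coeff_sum, Finset.sum_eq_single α] at this
    · simpa using this
    · intro β _ hβ
      rw [coeff_monomial, if_neg (fun e => hβ (hmon e))]
    · simp
  · have hd : (aeval g (P c)).totalDegree ≤ N * e * N :=
      (deg_aeval_le g N hg _).trans (Nat.mul_le_mul_right _ (hdeg c))
    ext s
    by_contra hs
    have hs' : s ∈ (aeval g (P c)).support := by simpa using hs
    have hle : ∀ i, s i < N * e * N + 1 := fun i =>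
      Nat.lt_succ_of_le ((monomial_le_degreeOf i hs').trans
        ((degreeOf_le_totalDegree _ i).trans hd))
    have h2 := congrFun (LinearMap.mem_ker.mp hc) (fun i => ⟨s i, hle i⟩)
    have h3 : mon' (fun i => ⟨s i, hle i⟩) = s := by ext i; simp [mon']
    simp only [LinearMap.comp_apply, Q, LinearMap.pi_apply, h3, lcoeff_apply] at h2
    exact hs (by simpa using h2)

lemma card_le_of_indep {σ κ : Type} [Fintype σ] [Fintype κ] (g : κ → MvPolynomial σ F)
    (h : AlgebraicIndependent F g) : Fintype.card κ ≤ Fintype.card σ := by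
  classical
  by_contra hlt
  obtain ⟨A, h0, -, h2⟩ := exists_rel
    (Fintype.card κ + ∑ i, (g i).totalDegree) (not_le.mp hlt) (Nat.le_add_right _ _) g
    (fun i => (Finset.single_le_sum (f := fun i => (g i).totalDegree) (fun _ _ => Nat.zero_le _)
      (Finset.mem_univ i)).trans (Nat.le_add_left _ _))
  exact h0 (h (by rw [h2, map_zero]))

/-- directional derivative -/
noncomputable def der {κ : Type} (z v : κ → F) (f : MvPolynomial κ F) : F :=
  (Polynomial.derivative
    (aeval (fun k => Polynomial.C (z k) + Polynomial.C (v k) * Polynomial.X) f)).eval 0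

variable {κ : Type}

lemma eval_line (z v : κ → F) (f : MvPolynomial κ F) :
    (aeval (fun k => Polynomial.C (z k) + Polynomial.C (v k) * Polynomial.X) f).eval 0 =
      eval z f := by
  induction f using MvPolynomial.induction_on with
  | C a => simp
  | add f g hf hg => simp only [map_add, Polynomial.eval_add, hf, hg]
  | mul_X f k hf => simp only [map_mul, Polynomial.eval_mul, hf]; simp

@[simp] lemma der_C (z v : κ → F) (a : F) : der z v (C a) = 0 := by simp [der]
@[simp] lemma der_zero (z v : κ → F) : der z v 0 = 0 := by simp [der]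
@[simp] lemma der_one (z v : κ → F) : der z v 1 = 0 := by simp [der]
@[simp] lemma der_X (z v : κ → F) (k : κ) : der z v (X k) = v k := by simp [der]
lemma der_add (z v : κ → F) (f g : MvPolynomial κ F) :
    der z v (f + g) = der z v f + der z v g := by simp [der]
lemma der_sub (z v : κ → F) (f g : MvPolynomial κ F) :
    der z v (f - g) = der z v f - der z v g := by simp [der]
lemma der_mul (z v : κ → F) (f g : MvPolynomial κ F) :
    der z v (f * g) = der z v f * eval z g + eval z f * der z v g := by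
  simp only [der, map_mul, Polynomial.derivative_mul, Polynomial.eval_add, Polynomial.eval_mul,
    eval_line]
lemma der_sum {ι : Type} (z v : κ → F) (s : Finset ι) (f : ι → MvPolynomial κ F) :
    der z v (∑ i ∈ s, f i) = ∑ i ∈ s, der z v (f i) := by
  simp [der, Polynomial.eval_finsetSum]

lemma der_aeval {σ : Type} (t v : σ → F) (g : κ → MvPolynomial σ F) (h : MvPolynomial κ F) :
    der t v (aeval g h) = der (fun k => eval t (g k)) (fun k => der t v (g k)) h := by
  induction h using MvPolynomial.induction_on with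
  | C a => simp
  | add f g hf hg => simp only [map_add, der_add, hf, hg]
  | mul_X f k hf =>
    rw [map_mul, der_mul, der_mul, hf, aeval_X, eval_X, der_X]
    congr 2
    rw [← coe_aeval_eq_eval, ← coe_aeval_eq_eval]
    change aeval t (aeval g f) = aeval _ f
    rw [← AlgHom.comp_apply, comp_aeval]
    rfl

/-- the directional derivative as a linear map of the direction -/
noncomputable def derL (z : κ → F) (f : MvPolynomial κ F) : (κ → F) →ₗ[F] F where
  toFun v := der z v f
  map_add' v w := by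
    induction f using MvPolynomial.induction_on with
    | C a => simp
    | add f g hf hg => simp only [der_add, hf, hg]; ring
    | mul_X f k hf => simp only [der_mul, hf, der_X, Pi.add_apply]; ring
  map_smul' c v := by
    induction f using MvPolynomial.induction_on with
    | C a => simp
    | add f g hf hg => simp only [der_add, hf, hg, RingHom.id_apply, smul_eq_mul]; ring
    | mul_X f k hf =>
      simp only [der_mul, hf, der_X, RingHom.id_apply, smul_eq_mul, Pi.smul_apply]; ring

lemma derL_apply (z v : κ → F) (f : MvPolynomial κ F) : derL z f v = der z v f := rfl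

lemma eval_aeval' {σ : Type} (t : σ → F) (g : κ → MvPolynomial σ F) (h : MvPolynomial κ F) :
    eval t (aeval g h) = eval (fun k => eval t (g k)) h := by
  rw [← coe_aeval_eq_eval, ← coe_aeval_eq_eval]
  change aeval t (aeval g h) = aeval _ h
  rw [← AlgHom.comp_apply, comp_aeval]
  rfl

/-- tangent space at `z` cut out by the polynomials of degree at most `D` vanishing on `Z` -/
def Tan (Z : Set (κ → F)) (D : ℕ) (z : κ → F) : Submodule F (κ → F) where
  carrier := {v | ∀ f : MvPolynomial κ F, f.totalDegree ≤ D → (∀ x ∈ Z, eval x f = 0) →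
    der z v f = 0}
  add_mem' := by
    intro v w hv hw f h1 h2
    rw [← derL_apply, map_add, derL_apply, derL_apply, hv f h1 h2, hw f h1 h2, add_zero]
  zero_mem' := by
    intro f _ _
    rw [← derL_apply, map_zero]
  smul_mem' := by
    intro c v hv f h1 h2
    rw [← derL_apply, map_smul, derL_apply, hv f h1 h2, smul_zero]

lemma mem_Tan {Z : Set (κ → F)} {D : ℕ} {z v : κ → F} :
    v ∈ Tan Z D z ↔ ∀ f : MvPolynomial κ F, f.totalDegree ≤ D → (∀ x ∈ Z, eval x f = 0) →
      der z v f = 0 := Iff.rfl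

lemma Tan_mono {Z Z' : Set (κ → F)} {D D' : ℕ} (hZ : Z ⊆ Z') (hD : D' ≤ D) (z : κ → F) :
    Tan Z D z ≤ Tan Z' D' z :=
  fun _ hv f h1 h2 => hv f (h1.trans hD) (fun x hx => h2 x (hZ hx))

/-- linear maps push tangent spaces forward -/
lemma Tan_map [Fintype κ] {κ' : Type} (Λ : (κ → F) →ₗ[F] (κ' → F)) {Z : Set (κ → F)}
    {Z' : Set (κ' → F)} (hZ : ∀ x ∈ Z, Λ x ∈ Z') {D : ℕ} {z v : κ → F} (hv : v ∈ Tan Z D z) :
    Λ v ∈ Tan Z' D (Λ z) := by
  classical
  let g : κ' → MvPolynomial κ F := fun j => ∑ k, C (Λ (Pi.single k 1) j) * X k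
  have hΛ : ∀ (x : κ → F) j, Λ x j = ∑ k, Λ (Pi.single k 1) j * x k := by
    intro x j
    conv_lhs => rw [pi_eq_sum_univ' x]
    simp [map_sum, Finset.sum_apply, mul_comm]
  have h1 : ∀ x, (fun j => eval x (g j)) = Λ x := by
    intro x; funext j; simp [g, hΛ x j]
  have h2 : (fun j => der z v (g j)) = Λ v := by
    funext j; simp [g, hΛ v j, der_sum, der_mul]
  intro f hf hf0
  have hd : (aeval g f).totalDegree ≤ D := by
    refine (deg_aeval_le g 1 (fun j => ?_) f).trans (by simpa using hf)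
    refine totalDegree_finsetSum_le fun k _ => (totalDegree_mul _ _).trans ?_
    simp
  have := hv (aeval g f) hd (fun x hx => by rw [eval_aeval', h1]; exact hf0 _ (hZ x hx))
  rwa [der_aeval, h1, h2] at this

lemma eq_zero_of_Tan {Z : Set (κ → F)} {D : ℕ} (hD : 1 ≤ D) {z v : κ → F} (hv : v ∈ Tan Z D z)
    (k : κ) (c : F) (h : ∀ x ∈ Z, x k = c) : v k = 0 := by
  have := hv (X k - C c) ((totalDegree_sub _ _).trans (by simpa using hD))
    (fun x hx => by simp [h x hx])
  simpa [der_sub] using this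

lemma exists_coords [Fintype κ] (T : Submodule F (κ → F)) :
    ∃ I : Finset κ, I.card ≤ Module.finrank F T ∧ ∀ v ∈ T, (∀ i ∈ I, v i = 0) → v = 0 := by
  classical
  induction h : Module.finrank F T using Nat.strong_induction_on generalizing T with
  | _ m ih =>
    by_cases hT : T = ⊥
    · exact ⟨∅, by simp, fun v hv _ => by simpa [hT] using hv⟩
    · obtain ⟨w, hw, hw0⟩ := Submodule.exists_mem_ne_zero_of_ne_bot hT
      obtain ⟨i, hi⟩ := Function.ne_iff.mp hw0
      have hlt : T ⊓ LinearMap.ker (LinearMap.proj i : (κ → F) →ₗ[F] F) < T := by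
        refine lt_of_le_of_ne inf_le_left fun e => hi ?_
        rw [← e] at hw
        exact hw.2
      have hlt' := Submodule.finrank_lt_finrank_of_lt hlt
      obtain ⟨I, h1, h2⟩ := ih _ (h ▸ hlt') _ rfl
      refine ⟨insert i I, (Finset.card_insert_le _ _).trans (by omega), fun v hv h3 => ?_⟩
      exact h2 v ⟨hv, h3 i (Finset.mem_insert_self _ _)⟩
        (fun j hj => h3 j (Finset.mem_insert_of_mem hj))

lemma finrank_le_of_coords [Fintype κ] (T : Submodule F (κ → F)) (I : Finset κ)
    (h : ∀ v ∈ T, (∀ i ∈ I, v i = 0) → v = 0) : Module.finrank F T ≤ I.card := by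
  classical
  let r : T →ₗ[F] (I → F) := LinearMap.pi fun i => (LinearMap.proj (i : κ)).comp T.subtype
  have : Injective r := by
    rw [← LinearMap.ker_eq_bot, eq_bot_iff]
    intro v hv
    exact Subtype.ext (h v v.2 fun i hi => congrFun (LinearMap.mem_ker.mp hv) ⟨i, hi⟩)
  simpa using LinearMap.finrank_le_finrank_of_injective this

end general

section finite
variable {p : ℕ} [Fact p.Prime]

lemma card_zero_le {σ : Type} [Fintype σ] [DecidableEq σ] (f : MvPolynomial σ (ZMod p))
    (hf : f ≠ 0) :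
    (Finset.univ.filter fun x : σ → ZMod p => eval x f = 0).card * p ≤
      f.totalDegree * p ^ Fintype.card σ := by
  classical
  let e := Fintype.equivFin σ
  have h0 : rename e f ≠ 0 := fun h => hf (rename_injective _ e.injective (by simpa using h))
  have h := schwartz_zippel_totalDegree h0 (Finset.univ : Finset (ZMod p))
  have hp : (0 : ℚ≥0) < p := by exact_mod_cast (Fact.out : p.Prime).pos
  rw [Finset.card_univ, ZMod.card, div_le_div_iff₀ (by positivity) hp] at h
  have h2 : (Finset.univ.filter fun x : σ → ZMod p => eval x f = 0).card =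
      ((Fintype.piFinset fun _ : Fin (Fintype.card σ) => (Finset.univ : Finset (ZMod p))).filter
        fun x => eval x (rename e f) = 0).card := by
    refine Finset.card_bij (fun x _ => x ∘ e.symm) ?_ ?_ ?_
    · intro x hx
      have hx' := (Finset.mem_filter.mp hx).2
      refine Finset.mem_filter.mpr ⟨by simp, ?_⟩
      rw [eval_rename]
      have : (x ∘ e.symm) ∘ e = x := by funext i; simp
      rw [this]; exact hx'
    · intro x _ y _ h
      funext i
      simpa using congrFun h (e i)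
    · intro y hy
      refine ⟨y ∘ e, Finset.mem_filter.mpr ⟨by simp, ?_⟩, by funext i; simp⟩
      have := (Finset.mem_filter.mp hy).2
      rwa [eval_rename] at this
  rw [h2]
  have h3 : (rename e f).totalDegree ≤ f.totalDegree := totalDegree_rename_le _ _
  have h4 : (((Fintype.piFinset fun _ : Fin (Fintype.card σ) =>
      (Finset.univ : Finset (ZMod p))).filter fun x => eval x (rename e f) = 0).card * p : ℕ) ≤
      (rename e f).totalDegree * p ^ Fintype.card σ := by exact_mod_cast h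
  exact h4.trans (Nat.mul_le_mul_right _ h3)

lemma exists_eval_ne {σ : Type} [Finite σ] (f : MvPolynomial σ (ZMod p)) (hf : f ≠ 0)
    (hd : f.totalDegree < p) : ∃ x, eval x f ≠ 0 := by
  classical
  have := Fintype.ofFinite σ
  by_contra h
  push Not at h
  have h1 := card_zero_le f hf
  rw [Finset.filter_true_of_mem (fun x _ => h x), Finset.card_univ, Fintype.card_fun,
    ZMod.card] at h1
  have hp : 0 < p ^ Fintype.card σ := pow_pos (Fact.out : p.Prime).pos _
  nlinarith

end finite

end Pool.Agent.MP_5f7865_al.H99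

end

-- part MP_5f7865_al.H99.Dep
section

/-! Algebraic dependence with bounded degrees. -/

namespace Pool.Agent.MP_5f7865_al.H99

open MvPolynomial

variable {p : ℕ} [Fact p.Prime]

/-- dependent polynomials satisfy a relation of bounded degree -/
lemma exists_rel_of_dep (N : ℕ) : ∃ E, ∀ (p : ℕ) [Fact p.Prime], E < p →
    ∀ {σ κ : Type} [Fintype σ] [Fintype κ], Fintype.card σ ≤ N → Fintype.card κ ≤ N →
    ∀ g : κ → MvPolynomial σ (ZMod p), (∀ i, (g i).totalDegree ≤ N) →
    ¬ AlgebraicIndependent (ZMod p) g →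
    ∃ A : MvPolynomial κ (ZMod p), A ≠ 0 ∧ A.totalDegree ≤ E ∧ aeval g A = 0 := by
  refine ⟨(2 * N + 1) * ((2 * N + 1) * (2 * N + 1)) ^ (2 * N + 1), ?_⟩
  intro p _ hp σ κ _ _ hσ hκ g hg hdep
  classical
  let F := ZMod p
  let S := MvPolynomial σ F
  let R := Algebra.adjoin F (Set.range g)
  have halg : Algebra.IsAlgebraic (Algebra.adjoin R (Set.range (X : σ → S))) S := by
    refine ⟨fun x => ?_⟩
    have hx : x ∈ Algebra.adjoin R (Set.range (X : σ → S)) := by
      have h1 : x ∈ Algebra.adjoin F (Set.range (X : σ → S)) := by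
        rw [adjoin_range_X]; trivial
      have h2 : Algebra.adjoin F (Set.range (X : σ → S)) ≤
          (Algebra.adjoin R (Set.range (X : σ → S))).restrictScalars F :=
        Algebra.adjoin_le Algebra.subset_adjoin
      exact h2 h1
    exact isAlgebraic_algebraMap (⟨x, hx⟩ : Algebra.adjoin R (Set.range (X : σ → S)))
  obtain ⟨t, ht, hb⟩ := exists_isTranscendenceBasis_subset (R := R) (Set.range (X : σ → S))
  have htf : t.Finite := (Set.finite_range _).subset ht
  have := htf.fintype
  have htc : Fintype.card t ≤ N := by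
    refine le_trans ?_ hσ
    exact (Set.card_le_card ht).trans (Fintype.card_range_le _)
  let v : t ⊕ κ → S := Sum.elim Subtype.val g
  have hlt : Fintype.card σ < Fintype.card (t ⊕ κ) := by
    by_contra hle
    have h1 : Algebra.IsAlgebraic (Algebra.adjoin F (Set.range v)) S := by
      have h2 := hb.isAlgebraic
      have h3 : Set.range v = Set.range g ∪ Set.range (Subtype.val : t → S) := by
        rw [Set.Sum.elim_range, Set.union_comm]
      rw [h3, Algebra.adjoin_union_eq_adjoin_adjoin]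
      exact h2
    have h4 := Algebra.IsAlgebraic.isTranscendenceBasis_of_le_trdeg_of_finite F v (by
      rw [MvPolynomial.trdeg_of_isDomain, Cardinal.lift_id, Cardinal.mk_fintype,
        Cardinal.mk_fintype]
      exact_mod_cast not_lt.mp hle)
    exact hdep (h4.1.comp Sum.inr Sum.inr_injective)
  obtain ⟨A, h0, h1, h2⟩ := exists_rel (2 * N + 1) hlt (by rw [Fintype.card_sum]; omega) v (by
    rintro (⟨x, hx⟩ | i)
    · obtain ⟨i, rfl⟩ := ht hx
      simp [v]
    · exact (hg i).trans (show N ≤ 2 * N + 1 by omega))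
  obtain ⟨c, hc⟩ := exists_eval_ne A h0 (h1.trans_lt hp)
  let w : t ⊕ κ → MvPolynomial κ F := Sum.elim (fun i => C (c (Sum.inl i))) X
  refine ⟨aeval w A, ?_, ?_, ?_⟩
  · intro h
    apply hc
    have := congrArg (eval (fun i => c (Sum.inr i))) h
    rw [eval_aeval', map_zero] at this
    rw [← this]
    congr 2
    funext i
    rcases i with i | i <;> simp [w]
  · refine (deg_aeval_le w 1 ?_ A).trans (by simpa using h1)
    rintro (i | i) <;> simp [w]
  · let g' : κ → R := fun i => ⟨g i, Algebra.subset_adjoin ⟨i, rfl⟩⟩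
    let u : t ⊕ κ → MvPolynomial t R := Sum.elim X (fun i => C (g' i))
    have h3 : aeval u A = 0 := by
      apply hb.1
      rw [map_zero, ← h2]
      change ((aeval (Subtype.val : t → S) : MvPolynomial t R →ₐ[R] S).restrictScalars F)
        (aeval u A) = _
      rw [← AlgHom.comp_apply, comp_aeval]
      congr 2
      funext i
      rcases i with i | i <;> simp [u, v, g', S, F]
    have h4 := congrArg ((aeval (fun i : t => (C (c (Sum.inl i)) : S)) :
      MvPolynomial t R →ₐ[R] S).restrictScalars F) h3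
    rw [map_zero, ← AlgHom.comp_apply, comp_aeval] at h4
    rw [← AlgHom.comp_apply, comp_aeval, ← h4]
    congr 2
    funext i
    rcases i with i | i <;> simp [u, w, g', S, F]

section
variable {F : Type} [Field F] {S : Type} [CommRing S] [Algebra F S] {κ : Type}

/-- the subfamily indexed by `I` is algebraically independent -/
def Ind (F : Type) [Field F] {S : Type} [CommRing S] [Algebra F S] {κ : Type} (g : κ → S)
    (I : Finset κ) : Prop := AlgebraicIndependent F (fun i : I => g i)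

/-- the family `g j, g i (i ∈ I)` -/
def opt (g : κ → S) (I : Finset κ) (j : κ) : Option I → S := fun o => o.elim (g j) fun i => g i

/-- all members of the family depend on the subfamily indexed by `I` -/
def Span (F : Type) [Field F] {S : Type} [CommRing S] [Algebra F S] {κ : Type} (g : κ → S)
    (I : Finset κ) : Prop := ∀ j, ¬ AlgebraicIndependent F (opt g I j)

lemma ind_insert [DecidableEq κ] {g : κ → S} {I : Finset κ} {j : κ}
    (h : AlgebraicIndependent F (opt g I j)) : j ∉ I ∧ Ind F g (insert j I) := by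
  have hj : j ∉ I := fun hj => by
    have := h.injective (a₁ := none) (a₂ := some ⟨j, hj⟩) rfl
    simp at this
  refine ⟨hj, ?_⟩
  have := h.comp _ (Finset.subtypeInsertEquivOption hj).injective
  have e : opt g I j ∘ (Finset.subtypeInsertEquivOption hj) = fun i : (insert j I : Finset κ) =>
      g i := by
    funext i
    obtain ⟨i, hi⟩ := i
    by_cases hij : i = j
    · subst hij; simp [opt, Finset.subtypeInsertEquivOption]
    · simp [opt, Finset.subtypeInsertEquivOption, hij]
  rw [e] at this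
  exact this

lemma exists_max [Fintype κ] (g : κ → S) (I0 : Finset κ) (h0 : Ind F g I0) :
    ∃ I, I0 ⊆ I ∧ Ind F g I ∧ Span F g I := by
  classical
  obtain ⟨I, hI, hmax⟩ := Finset.exists_max_image
    (Finset.univ.filter fun I : Finset κ => I0 ⊆ I ∧ Ind F g I) Finset.card ⟨I0, by simpa⟩
  have hI' := (Finset.mem_filter.mp hI).2
  refine ⟨I, hI'.1, hI'.2, fun j hj => ?_⟩
  obtain ⟨h1, h2⟩ := ind_insert hj
  have := hmax (insert j I) (Finset.mem_filter.mpr
    ⟨Finset.mem_univ _, hI'.1.trans (Finset.subset_insert _ _), h2⟩)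
  rw [Finset.card_insert_of_notMem h1] at this
  omega

lemma aeval_opt (g : κ → S) (I : Finset κ) (j : κ) (A : MvPolynomial (Option I) F) :
    aeval (opt g I j) A = (optionEquivLeft F I A).eval₂
      (aeval (fun i : I => g i) : MvPolynomial I F →ₐ[F] S).toRingHom (g j) := by
  induction A using MvPolynomial.induction_on with
  | C a => simp [optionEquivLeft_C]
  | add f g hf hg => simp only [map_add, Polynomial.eval₂_add, hf, hg]
  | mul_X f k hf =>
    simp only [map_mul, Polynomial.eval₂_mul, hf]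
    rcases k with _ | k <;> simp [opt, optionEquivLeft_X_none, optionEquivLeft_X_some]

/-- a specialisation that keeps a spanning subfamily independent creates no new relations -/
lemma aeval_eq_zero_of_spec [IsDomain S] {S' : Type} [CommRing S'] [Algebra F S']
    (θ : S →ₐ[F] S') (g : κ → S) (I : Finset κ) (h1 : Ind F (fun k => θ (g k)) I)
    (h2 : Span F g I) (h : MvPolynomial κ F) (hh : aeval (fun k => θ (g k)) h = 0) :
    aeval g h = 0 := by
  let φ : MvPolynomial I F →ₐ[F] S := aeval (fun i : I => g i)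
  let _ : Algebra (MvPolynomial I F) S := φ.toRingHom.toAlgebra
  have ha : ∀ j, IsAlgebraic (MvPolynomial I F) (g j) := by
    intro j
    have := h2 j
    rw [algebraicIndependent_iff] at this
    push Not at this
    obtain ⟨A, hA, hA0⟩ := this
    refine ⟨optionEquivLeft F I A, by simpa using hA0, ?_⟩
    rw [aeval_opt] at hA
    exact hA
  have hb : ∀ h : MvPolynomial κ F, IsAlgebraic (MvPolynomial I F) (aeval g h) := by
    intro h
    induction h using MvPolynomial.induction_on with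
    | C a =>
      have : aeval g (C a : MvPolynomial κ F) = algebraMap (MvPolynomial I F) S (C a) := by
        change _ = φ (C a)
        simp [φ]
      rw [this]
      exact isAlgebraic_algebraMap _
    | add f g hf hg => rw [map_add]; exact hf.add hg
    | mul_X f k hf => rw [map_mul, aeval_X]; exact hf.mul (ha k)
  by_contra hne
  obtain ⟨r, hr, s, hs⟩ := (hb h).exists_nonzero_dvd (mem_nonZeroDivisors_of_ne_zero hne)
  apply hr
  apply h1
  have h3 := congrArg θ hs
  rw [map_mul, ← AlgHom.comp_apply θ (aeval g), comp_aeval, hh, zero_mul] at h3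
  rw [map_zero, ← h3]
  change _ = θ (φ r)
  rw [← AlgHom.comp_apply, comp_aeval]

end

/-- Separable relations of bounded degree over a maximal independent subfamily. -/
lemma core (N : ℕ) : ∃ E, N ≤ E ∧ ∀ (p : ℕ) [Fact p.Prime], E < p →
    ∀ {σ κ : Type} [Fintype σ] [Fintype κ], Fintype.card σ ≤ N → Fintype.card κ ≤ N →
    ∀ g : κ → MvPolynomial σ (ZMod p), (∀ i, (g i).totalDegree ≤ N) →
    ∀ I : Finset κ, Ind (ZMod p) g I → Span (ZMod p) g I →
    ∃ (Δ : MvPolynomial σ (ZMod p)) (A : κ → MvPolynomial κ (ZMod p)), Δ ≠ 0 ∧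
      Δ.totalDegree ≤ E ∧ (∀ j, (A j).totalDegree ≤ E ∧ aeval g (A j) = 0) ∧
      ∀ t, eval t Δ ≠ 0 → ∀ ξ : κ → ZMod p, (∀ i ∈ I, ξ i = 0) →
        (∀ j, der (fun k => eval t (g k)) ξ (A j) = 0) → ξ = 0 := by
  obtain ⟨E, hE⟩ := exists_rel_of_dep (N + 1)
  refine ⟨N + E + (E + E) + N * ((E + E) * N), by omega, ?_⟩
  intro p _ hp σ κ _ _ hσ hκ g hg I hI hS
  classical
  let F := ZMod p
  let φ : MvPolynomial I F →+* MvPolynomial σ F :=
    (aeval (fun i : I => g i) : MvPolynomial I F →ₐ[F] MvPolynomial σ F).toRingHom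
  let ψ : MvPolynomial I F →+* MvPolynomial κ F :=
    (rename (Subtype.val : I → κ) : MvPolynomial I F →ₐ[F] MvPolynomial κ F).toRingHom
  have hdeg : ∀ (P : Polynomial (MvPolynomial I F)) (j : κ), P.natDegree ≤ E →
      (∀ k, (P.coeff k).totalDegree ≤ E) → (P.eval₂ ψ (X j)).totalDegree ≤ E + E := by
    intro P j h1 h2
    rw [Polynomial.eval₂_eq_sum_range]
    refine totalDegree_finsetSum_le fun k hk => (totalDegree_mul _ _).trans ?_
    refine Nat.add_le_add ((totalDegree_rename_le _ _).trans (h2 k)) ?_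
    rw [totalDegree_X_pow]
    have := Finset.mem_range.mp hk
    omega
  have hev : ∀ (P : Polynomial (MvPolynomial I F)) (j : κ),
      aeval g (P.eval₂ ψ (X j)) = P.eval₂ φ (g j) := by
    intro P j
    have := Polynomial.hom_eval₂ P ψ
      (aeval g : MvPolynomial κ F →ₐ[F] MvPolynomial σ F).toRingHom (X j)
    refine this.trans ?_
    congr 1
    · ext <;> simp [φ, ψ]
    · simp
  have key : ∀ j, ∃ P : Polynomial (MvPolynomial I F), P.natDegree ≤ E ∧
      (∀ k, (P.coeff k).totalDegree ≤ E) ∧ P.eval₂ φ (g j) = 0 ∧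
      P.derivative.eval₂ φ (g j) ≠ 0 := by
    intro j
    have hex : ∃ m, ∃ P : Polynomial (MvPolynomial I F), P ≠ 0 ∧ P.natDegree = m ∧ m ≤ E ∧
        (∀ k, (P.coeff k).totalDegree ≤ E) ∧ P.eval₂ φ (g j) = 0 := by
      obtain ⟨A, h0, h1, h2⟩ := hE p (by omega) (σ := σ) (κ := Option I) (by omega)
        (by rw [Fintype.card_option, Fintype.card_coe]
            exact Nat.succ_le_succ ((Finset.card_le_univ I).trans hκ)) (opt g I j)
        (by rintro (_ | i) <;> exact (hg _).trans (Nat.le_succ _)) (hS j)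
      refine ⟨_, optionEquivLeft F I A, by simpa using h0, rfl, ?_, fun k => ?_, ?_⟩
      · rw [natDegree_optionEquivLeft]; exact (degreeOf_le_totalDegree _ _).trans h1
      · exact (totalDegree_coeff_optionEquivLeft_le _ _ _ _).trans h1
      · rw [← h2, aeval_opt]
    obtain ⟨P, h0, h1, h2, h3, h4⟩ := Nat.find_spec hex
    refine ⟨P, h1 ▸ h2, h3, h4, fun h5 => ?_⟩
    have hpos : P.natDegree ≠ 0 := by
      intro h
      rw [Polynomial.eq_C_of_natDegree_eq_zero h, Polynomial.eval₂_C] at h4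
      apply h0
      rw [Polynomial.eq_C_of_natDegree_eq_zero h, hI.eq_zero_of_aeval_eq_zero _ h4, map_zero]
    have hcoef : ∀ k, P.derivative.coeff k = C ((k : F) + 1) * P.coeff (k + 1) := by
      intro k
      rw [Polynomial.coeff_derivative, mul_comm, map_add, map_natCast, map_one]
    have hd0 : P.derivative ≠ 0 := by
      intro h
      obtain ⟨m, hm⟩ := Nat.exists_eq_succ_of_ne_zero hpos
      have h6 := hcoef m
      rw [h, Polynomial.coeff_zero, ← Nat.succ_eq_add_one, ← hm] at h6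
      rcases mul_eq_zero.mp h6.symm with h7 | h7
      · rw [C_eq_zero] at h7
        have h8 : ((m + 1 : ℕ) : F) = 0 := by exact_mod_cast h7
        have := Nat.le_of_dvd (Nat.succ_pos m) ((ZMod.natCast_eq_zero_iff _ _).mp h8)
        omega
      · exact h0 (Polynomial.leadingCoeff_eq_zero.mp h7)
    have hlt := Polynomial.natDegree_derivative_lt hpos
    refine Nat.find_min hex (h1 ▸ hlt) ⟨P.derivative, hd0, rfl, by omega, fun k => ?_, h5⟩
    rw [hcoef]
    exact (totalDegree_mul _ _).trans (by rw [totalDegree_C, zero_add]; exact h3 _)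
  choose P h1 h2 h3 h4 using key
  have h2' : ∀ j k, ((P j).derivative.coeff k).totalDegree ≤ E := by
    intro j k
    rw [Polynomial.coeff_derivative]
    refine (totalDegree_mul _ _).trans ?_
    have : ((k : MvPolynomial I F) + 1) = C ((k : F) + 1) := by
      rw [map_add, map_natCast, map_one]
    rw [this, totalDegree_C]
    exact h2 j _
  refine ⟨∏ j, (P j).derivative.eval₂ φ (g j), fun j => (P j).eval₂ ψ (X j),
    Finset.prod_ne_zero_iff.mpr fun j _ => h4 j, ?_, fun j => ⟨?_, ?_⟩, ?_⟩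
  · refine (totalDegree_finsetProd _ _).trans ?_
    have : ∀ j, ((P j).derivative.eval₂ φ (g j)).totalDegree ≤ (E + E) * N := by
      intro j
      rw [← hev]
      exact (deg_aeval_le g N hg _).trans (Nat.mul_le_mul_right _ (hdeg _ _
        ((Polynomial.natDegree_derivative_le _).trans ((Nat.sub_le _ _).trans (h1 j))) (h2' j)))
    refine (Finset.sum_le_card_nsmul _ _ _ fun j _ => this j).trans ?_
    rw [smul_eq_mul, Finset.card_univ]
    have := Nat.mul_le_mul_right ((E + E) * N) hκ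
    omega
  · exact (hdeg _ _ (h1 j) (h2 j)).trans (by omega)
  · rw [hev, h3]
  · intro t ht ξ hξ hder
    funext j
    have h5 := hder j
    rw [map_prod, Finset.prod_ne_zero_iff] at ht
    have h6 := ht j (Finset.mem_univ _)
    let z : κ → F := fun k => eval t (g k)
    let χ : MvPolynomial I F →+* F := eval fun i : I => z i
    have h7 : eval t ((P j).derivative.eval₂ φ (g j)) = (((P j).map χ).derivative).eval (z j) := by
      rw [Polynomial.hom_eval₂, Polynomial.derivative_map, Polynomial.eval_map]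
      congr 1
      ext <;> simp [φ, χ, z]
    have h8 : aeval (fun k => Polynomial.C (z k) + Polynomial.C (ξ k) * Polynomial.X)
        ((P j).eval₂ ψ (X j)) =
        ((P j).map χ).comp (Polynomial.C (z j) + Polynomial.C (ξ j) * Polynomial.X) := by
      have := Polynomial.hom_eval₂ (P j) ψ
        (aeval (fun k => Polynomial.C (z k) + Polynomial.C (ξ k) * Polynomial.X) :
          MvPolynomial κ F →ₐ[F] Polynomial F).toRingHom (X j)
      refine this.trans ?_
      rw [Polynomial.comp, Polynomial.eval₂_map]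
      congr 1
      · refine MvPolynomial.ringHom_ext (fun a => ?_) (fun i => ?_)
        · simp [ψ, χ]
        · simp [ψ, χ, hξ i i.2]
      · simp
    unfold der at h5
    change Polynomial.eval 0 (Polynomial.derivative (aeval (fun k => Polynomial.C (z k) +
      Polynomial.C (ξ k) * Polynomial.X) ((P j).eval₂ ψ (X j)))) = 0 at h5
    rw [h8, Polynomial.derivative_comp] at h5
    rw [h7] at h6
    simp only [Polynomial.derivative_add, Polynomial.derivative_C, Polynomial.derivative_mul,
      Polynomial.derivative_X, zero_mul, mul_one, zero_add, Polynomial.eval_mul,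
      Polynomial.eval_C, Polynomial.eval_comp, Polynomial.eval_add, Polynomial.eval_X, mul_zero,
      add_zero] at h5
    exact (mul_eq_zero.mp h5).resolve_right h6

end Pool.Agent.MP_5f7865_al.H99

end

-- part MP_5f7865_al.H99.Count
section

/-! Counting points through tangent spaces. -/

namespace Pool.Agent.MP_5f7865_al.H99

open MvPolynomial

section general
variable {F : Type} [Field F]

lemma card_le_of_fibers {α β : Type} [Fintype β] [DecidableEq β] (Z : Finset α) (f : α → β)
    (C : ℕ) (h : ∀ b, (Z.filter fun a => f a = b).card ≤ C) : Z.card ≤ C * Fintype.card β :=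
  Finset.card_le_mul_card_image_of_maps_to (t := Finset.univ) (fun _ _ => Finset.mem_univ _) C
    fun b _ => h b

lemma exists_box (κ : Type) [Fintype κ] (e : ℕ) :
    ∃ P : ((κ → Fin (e + 1)) → F) →ₗ[F] MvPolynomial κ F, (∀ c, P c = 0 → c = 0) ∧
      ∀ c, (P c).totalDegree ≤ Fintype.card κ * e := by
  classical
  let mon : (κ → Fin (e + 1)) → (κ →₀ ℕ) := fun α => Finsupp.equivFunOnFinite.symm fun i => α i
  have hmon : Function.Injective mon := by
    intro α β h
    have := Finsupp.equivFunOnFinite.symm.injective h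
    funext i
    exact Fin.ext (congrFun this i)
  let P : ((κ → Fin (e + 1)) → F) →ₗ[F] MvPolynomial κ F :=
    ∑ α, (monomial (mon α)).comp (LinearMap.proj α)
  have hP : ∀ c, P c = ∑ α, monomial (mon α) (c α) := by
    intro c; simp [P, LinearMap.sum_apply]
  refine ⟨P, fun c h => ?_, fun c => ?_⟩
  · funext α
    have := congrArg (coeff (mon α)) h
    rw [hP, coeff_sum, Finset.sum_eq_single α] at this
    · simpa using this
    · intro β _ hβ
      rw [coeff_monomial, if_neg (fun e => hβ (hmon e))]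
    · simp
  · rw [hP]
    refine totalDegree_finsetSum_le fun α _ => (totalDegree_monomial_le _ _).trans ?_
    rw [Finsupp.sum_fintype _ _ (fun _ => rfl)]
    calc ∑ i, id (mon α i) ≤ ∑ _i : κ, e :=
          Finset.sum_le_sum fun i _ => by simpa [mon] using Nat.lt_succ_iff.mp (α i).2
      _ = Fintype.card κ * e := by simp

lemma exists_span {κ : Type} [Fintype κ] (N : ℕ) (V : Submodule F (MvPolynomial κ F))
    (hV : ∀ f ∈ V, f.totalDegree ≤ N) :
    ∃ (M : ℕ) (b : Fin M → MvPolynomial κ F), M ≤ (N + 1) ^ Fintype.card κ ∧ (∀ j, b j ∈ V) ∧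
      ∀ f ∈ V, ∃ c : Fin M → F, f = ∑ j, c j • b j := by
  classical
  let mon : (κ → Fin (N + 1)) → (κ →₀ ℕ) := fun α => Finsupp.equivFunOnFinite.symm fun i => α i
  let Q : V →ₗ[F] ((κ → Fin (N + 1)) → F) :=
    (LinearMap.pi fun β => lcoeff F (mon β)).comp V.subtype
  have hQ : Function.Injective Q := by
    rw [← LinearMap.ker_eq_bot, eq_bot_iff]
    intro f hf
    apply Subtype.ext
    ext s
    by_contra hs
    have hs' : s ∈ f.1.support := by simpa using hs
    have hle : ∀ i, s i < N + 1 := fun i =>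
      Nat.lt_succ_of_le ((monomial_le_degreeOf i hs').trans
        ((degreeOf_le_totalDegree _ i).trans (hV _ f.2)))
    have h2 := congrFun (LinearMap.mem_ker.mp hf) (fun i => ⟨s i, hle i⟩)
    have h3 : mon (fun i => ⟨s i, hle i⟩) = s := by ext i; simp [mon]
    simp only [LinearMap.comp_apply, Q, LinearMap.pi_apply, h3, lcoeff_apply] at h2
    exact hs (by simpa using h2)
  have : Module.Finite F V := Module.Finite.of_injective Q hQ
  let b := Module.finBasis F V
  refine ⟨_, fun j => (b j).1, ?_, fun j => (b j).2, fun f hf => ⟨b.repr ⟨f, hf⟩, ?_⟩⟩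
  · simpa using LinearMap.finrank_le_finrank_of_injective hQ
  · have := congrArg Subtype.val (b.sum_repr ⟨f, hf⟩)
    rw [Submodule.coe_sum] at this
    exact this.symm

lemma init_form {ι : Type} (A : MvPolynomial ι F) (w : ι → ℕ) (m : ℕ)
    (hm : ∀ s ∈ A.support, m ≤ Finsupp.weight w s) (c : ι → Polynomial F)
    (h : aeval (fun i => Polynomial.X ^ w i * c i) A = 0) :
    eval (fun i => (c i).eval 0) (weightedHomogeneousComponent w m A) = 0 := by
  classical
  have h1 : aeval (fun i => Polynomial.X ^ w i * c i) A = Polynomial.X ^ m *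
      ∑ s ∈ A.support, Polynomial.C (coeff s A) * (Polynomial.X ^ (Finsupp.weight w s - m) *
        s.prod fun i e => c i ^ e) := by
    conv_lhs => rw [A.as_sum]
    rw [map_sum, Finset.mul_sum]
    refine Finset.sum_congr rfl fun s hs => ?_
    rw [aeval_monomial, mul_left_comm, ← mul_assoc (Polynomial.X ^ m), ← pow_add,
      Nat.add_sub_cancel' (hm s hs), Finsupp.weight_apply, Finsupp.sum, ← Finset.prod_pow_eq_pow_sum,
      Finsupp.prod, Finsupp.prod, ← Finset.prod_mul_distrib]
    congr 1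
    refine Finset.prod_congr rfl fun i _ => ?_
    rw [mul_pow, ← pow_mul, smul_eq_mul, mul_comm (w i)]
  rw [h1] at h
  have h2 := congrArg (Polynomial.eval 0)
    ((mul_eq_zero.mp h).resolve_left (pow_ne_zero _ Polynomial.X_ne_zero))
  rw [Polynomial.eval_finsetSum, Polynomial.eval_zero] at h2
  rw [weightedHomogeneousComponent_apply, map_sum, Finset.sum_filter]
  refine Eq.trans (Finset.sum_congr rfl fun s hs => ?_) h2
  rw [Polynomial.eval_mul, Polynomial.eval_mul, Polynomial.eval_C, Polynomial.eval_pow,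
    Polynomial.eval_X]
  split_ifs with h3
  · rw [h3, Nat.sub_self, pow_zero, one_mul, eval_monomial, Finsupp.prod, Finsupp.prod,
      Polynomial.eval_prod]
    simp
  · rw [zero_pow (by have := hm s hs; omega), zero_mul, mul_zero]

end general

/-- nonsingular common zeros of a square system -/
lemma card_nonsing (N : ℕ) : ∃ C, ∀ (p : ℕ) [Fact p.Prime], C < p →
    ∀ {κ I : Type} [Fintype κ] [Fintype I], Fintype.card κ ≤ N → Fintype.card κ ≤ Fintype.card I →
    Fintype.card I ≤ N → ∀ b : I → MvPolynomial κ (ZMod p), (∀ j, (b j).totalDegree ≤ N) →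
    ∀ Z : Finset (κ → ZMod p), (∀ z ∈ Z, (∀ j, eval z (b j) = 0) ∧
      ∀ w : I → ZMod p, ∃ v, ∀ j, der z v (b j) = w j) → Z.card ≤ C := by
  obtain ⟨E, hE⟩ : ∃ E, E = (N + 1) * ((N + 1) * (N + 1)) ^ (N + 1) := ⟨_, rfl⟩
  have hE1 : 1 ≤ E := by rw [hE]; exact Nat.pos_of_ne_zero (by positivity)
  refine ⟨E + E ^ N, ?_⟩
  intro p _ hp κ I _ _ hκ hκI hI b hb Z hZ
  classical
  have key : ∀ k : κ, ∃ q : Polynomial (ZMod p), q ≠ 0 ∧ q.natDegree ≤ E ∧
      ∀ z ∈ Z, q.eval (z k) = 0 := by
    intro k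
    let g : Option I → MvPolynomial κ (ZMod p) := fun o => o.elim (X k) b
    obtain ⟨A, h0, h1, h2⟩ := exists_rel (N + 1) (σ := κ) (κ := Option I)
      (by rw [Fintype.card_option]; omega) (by rw [Fintype.card_option]; omega) g (by
        rintro (_ | j)
        · simp [g]
        · exact (hb j).trans (Nat.le_succ _))
    rw [← hE] at h1
    let w : Option I → ℕ := fun o => o.elim 0 fun _ => 1
    obtain ⟨s, hs, hmin⟩ := Finset.exists_min_image A.support (Finsupp.weight w)
      (support_nonempty.mpr h0)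
    let A' := weightedHomogeneousComponent w (Finsupp.weight w s) A
    have h0' : A' ≠ 0 := by
      intro h
      have := congrArg (coeff s) h
      rw [coeff_weightedHomogeneousComponent, if_pos rfl] at this
      exact mem_support_iff.mp hs this
    have h1' : A'.totalDegree ≤ E := by
      refine le_trans (totalDegree_le_of_support_subset fun t ht => ?_) h1
      rw [mem_support_iff, coeff_weightedHomogeneousComponent] at ht
      rw [mem_support_iff]
      intro h
      simp [h] at ht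
    obtain ⟨x, hx⟩ := exists_eval_ne A' h0' (by omega)
    let u : Option I → Polynomial (ZMod p) :=
      fun o => o.elim Polynomial.X fun j => Polynomial.C (x (some j))
    have hu : ∀ y, (aeval u A').eval y = eval (fun o => (u o).eval y) A' := by
      intro y
      rw [← coe_aeval_eq_eval, ← Polynomial.coe_aeval_eq_eval]
      change Polynomial.aeval y (aeval u A') = aeval _ A'
      rw [← AlgHom.comp_apply, comp_aeval]
    refine ⟨aeval u A', fun h => hx ?_, ?_, fun z hz => ?_⟩
    · have := hu (x none)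
      rw [h, Polynomial.eval_zero] at this
      have h6 : (fun o => (u o).eval (x none)) = x := by
        funext o
        rcases o with _ | j <;> simp [u]
      rw [h6] at this
      exact this.symm
    · refine (aeval_natDegree_le A' h1' u (n := 1) ?_).trans (by simp)
      rintro (_ | j) <;> simp [u]
    · obtain ⟨v, hv⟩ := (hZ z hz).2 fun j => x (some j)
      let θ : MvPolynomial κ (ZMod p) →ₐ[ZMod p] Polynomial (ZMod p) :=
        aeval (fun k => Polynomial.C (z k) + Polynomial.C (v k) * Polynomial.X)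
      let c : Option I → Polynomial (ZMod p) :=
        fun o => o.elim (θ (X k)) fun j => (θ (b j)).divX
      have h3 : (fun o => θ (g o)) = fun o => Polynomial.X ^ w o * c o := by
        funext o
        rcases o with _ | j
        · simp [g, w, c]
        · have h4 : (θ (b j)).coeff 0 = 0 := by
            rw [Polynomial.coeff_zero_eq_eval_zero, eval_line, (hZ z hz).1 j]
          have := Polynomial.X_mul_divX_add (θ (b j))
          rw [h4, map_zero, add_zero] at this
          simp only [g, w, c, Option.elim, pow_one]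
          exact this.symm
      have h5 := init_form A w _ hmin c (by
        rw [← h3, ← comp_aeval, AlgHom.comp_apply, h2, map_zero])
      rw [hu, ← h5]
      congr 2
      funext o
      rcases o with _ | j
      · simp [u, c, θ]
      · have := hv j
        rw [der, ← Polynomial.coeff_zero_eq_eval_zero, Polynomial.coeff_derivative] at this
        simp only [u, c, Option.elim, Polynomial.eval_C]
        rw [← Polynomial.coeff_zero_eq_eval_zero, Polynomial.coeff_divX, ← this]
        simp [θ]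
  choose q h0 h1 h2 using key
  have hsub : Z ⊆ Fintype.piFinset fun k => (q k).roots.toFinset := by
    intro z hz
    simp [h0, h2 _ z hz]
  refine (Finset.card_le_card hsub).trans ?_
  rw [Fintype.card_piFinset]
  refine (Finset.prod_le_pow_card _ _ E fun k _ => ?_).trans ?_
  · exact (Multiset.toFinset_card_le _).trans ((Polynomial.card_roots' _).trans (h1 k))
  · exact (Nat.pow_le_pow_right hE1 hκ).trans (Nat.le_add_left _ _)

lemma card_le_of_Tan_bot (N : ℕ) : ∃ C, ∀ (p : ℕ) [Fact p.Prime], C < p →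
    ∀ {κ : Type} [Fintype κ], Fintype.card κ ≤ N → ∀ Z : Finset (κ → ZMod p),
    (∀ z ∈ Z, ∀ v ∈ Tan (Z : Set (κ → ZMod p)) N z, v = 0) → Z.card ≤ C := by
  obtain ⟨C, hC⟩ := card_nonsing N
  refine ⟨C * 2 ^ (N + 1) ^ N, ?_⟩
  intro p _ hp κ _ hκ Z hZ
  classical
  let V : Submodule (ZMod p) (MvPolynomial κ (ZMod p)) :=
    restrictTotalDegree κ (ZMod p) N ⊓ ⨅ z ∈ Z, LinearMap.ker (aeval z).toLinearMap
  have hV : ∀ f, f ∈ V ↔ f.totalDegree ≤ N ∧ ∀ z ∈ Z, eval z f = 0 := by
    intro f
    simp [V, mem_restrictTotalDegree]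
  obtain ⟨M, b, hM, hb, hspan⟩ := exists_span N V fun f hf => ((hV f).mp hf).1
  have key : ∀ z ∈ Z, ∃ I : Finset (Fin M), I.card = Fintype.card κ ∧
      ∀ w : I → ZMod p, ∃ v, ∀ j : I, der z v (b j) = w j := by
    intro z hz
    let J : (κ → ZMod p) →ₗ[ZMod p] (Fin M → ZMod p) := LinearMap.pi fun j => derL z (b j)
    have hJ : ∀ v, J v = 0 → v = 0 := by
      intro v hv
      refine hZ z hz v fun f h1 h2 => ?_
      obtain ⟨c, rfl⟩ := hspan f ((hV f).mpr ⟨h1, h2⟩)
      rw [der_sum]
      refine Finset.sum_eq_zero fun j _ => ?_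
      have : der z v (b j) = 0 := congrFun hv j
      rw [smul_eq_C_mul, der_mul, this]
      simp
    obtain ⟨I, h1, h2⟩ := exists_coords (LinearMap.range J)
    let J' : (κ → ZMod p) →ₗ[ZMod p] (I → ZMod p) := LinearMap.pi fun j => derL z (b j)
    have hJ' : Function.Injective J' := by
      rw [← LinearMap.ker_eq_bot, eq_bot_iff]
      intro v hv
      exact hJ v (h2 _ ⟨v, rfl⟩ fun i hi => congrFun (LinearMap.mem_ker.mp hv) ⟨i, hi⟩)
    have h3 := LinearMap.finrank_le_finrank_of_injective hJ'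
    have h4 := LinearMap.finrank_range_le J
    simp only [Module.finrank_fintype_fun_eq_card, Fintype.card_coe] at h3 h4
    have h5 : I.card = Fintype.card κ := by omega
    refine ⟨I, h5, fun w => ?_⟩
    obtain ⟨v, hv⟩ := (LinearMap.injective_iff_surjective_of_finrank_eq_finrank
      (by simp [h5])).mp hJ' w
    exact ⟨v, fun j => congrFun hv j⟩
  choose! I h1 h2 using key
  have hpC : C < p := lt_of_le_of_lt (Nat.le_mul_of_pos_right _ (by positivity)) hp
  refine (card_le_of_fibers Z I C fun I0 => ?_).trans (Nat.mul_le_mul_left _ ?_)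
  · rcases (Z.filter fun a => I a = I0).eq_empty_or_nonempty with h | ⟨z0, hz0⟩
    · simp [h]
    · have h3 : I0.card = Fintype.card κ := by
        rw [← (Finset.mem_filter.mp hz0).2]
        exact h1 _ (Finset.mem_filter.mp hz0).1
      refine hC p hpC (I := I0) hκ (by simp [h3]) (by simp [h3, hκ]) (fun j => b j)
        (fun j => ((hV _).mp (hb j)).1) _ fun z hz => ⟨fun j => ?_, ?_⟩
      · exact ((hV _).mp (hb j)).2 z (Finset.mem_filter.mp hz).1
      · obtain ⟨h4, rfl⟩ := Finset.mem_filter.mp hz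
        exact h2 z h4
  · rw [Fintype.card_finset, Fintype.card_fin]
    exact Nat.pow_le_pow_right (by omega) (hM.trans (Nat.pow_le_pow_right (by omega) hκ))

/-- a set all of whose tangent spaces have dimension at most `s` has at most `C p ^ s` points -/
lemma card_le_of_Tan (N : ℕ) : ∃ C, ∀ (p : ℕ) [Fact p.Prime], C < p →
    ∀ {κ : Type} [Fintype κ], Fintype.card κ ≤ N → ∀ (Z : Finset (κ → ZMod p)) (s : ℕ),
    (∀ z ∈ Z, Module.finrank (ZMod p) (Tan (Z : Set (κ → ZMod p)) N z) ≤ s) →
    Z.card ≤ C * p ^ s := by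
  obtain ⟨C, hC⟩ := card_le_of_Tan_bot (N + 1)
  refine ⟨C * 2 ^ N, ?_⟩
  intro p _ hp κ _ hκ Z s hZ
  classical
  have hpC : C < p := lt_of_le_of_lt (Nat.le_mul_of_pos_right _ (by positivity)) hp
  choose I h1 h2 using fun z => exists_coords (Tan (Z : Set (κ → ZMod p)) N z)
  refine (card_le_of_fibers Z I (C * p ^ s) fun I0 => ?_).trans ?_
  · rcases (Z.filter fun a => I a = I0).eq_empty_or_nonempty with h | ⟨z0, hz0⟩
    · simp [h]
    · have h3 : I0.card ≤ s := by
        rw [← (Finset.mem_filter.mp hz0).2]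
        exact (h1 _).trans (hZ _ (Finset.mem_filter.mp hz0).1)
      refine (card_le_of_fibers _ (fun z (i : I0) => z i) C fun c => ?_).trans ?_
      · refine hC p hpC (hκ.trans (Nat.le_succ _)) _ fun z hz v hv => ?_
        obtain ⟨h4, -⟩ := Finset.mem_filter.mp hz
        obtain ⟨-, rfl⟩ := Finset.mem_filter.mp h4
        refine h2 z v (Tan_mono ?_ (Nat.le_succ _) z hv) fun i hi => ?_
        · exact fun x hx => (Finset.mem_filter.mp (Finset.mem_filter.mp hx).1).1
        · exact eq_zero_of_Tan (by omega) hv i (c ⟨i, hi⟩) fun x hx =>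
            congrFun (Finset.mem_filter.mp hx).2 ⟨i, hi⟩
      · rw [Fintype.card_fun, ZMod.card, Fintype.card_coe]
        exact Nat.mul_le_mul_left _ (Nat.pow_le_pow_right (by omega) h3)
  · rw [Fintype.card_finset, mul_right_comm]
    exact Nat.mul_le_mul_right _ (Nat.mul_le_mul_left _ (Nat.pow_le_pow_right (by omega) hκ))

/-- independent polynomials take many values -/
lemma pow_le_of_indep (N : ℕ) {p : ℕ} [Fact p.Prime] {σ I : Type} [Finite σ] [Fintype I]
    (hI : Fintype.card I ≤ N) (g : I → MvPolynomial σ (ZMod p))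
    (hg : ∀ i, (g i).totalDegree ≤ N) (h : AlgebraicIndependent (ZMod p) g)
    (Z : Finset (I → ZMod p)) (hZ : ∀ t, (fun i => eval t (g i)) ∈ Z) :
    p ^ Fintype.card I ≤ (N * N + 1) ^ N * Z.card := by
  classical
  obtain ⟨e, he⟩ : ∃ e, e = p / (N * N + 1) := ⟨_, rfl⟩
  have hp : 0 < p := (Fact.out : p.Prime).pos
  obtain ⟨P, h1, h2⟩ := exists_box (F := ZMod p) I e
  let Q : MvPolynomial I (ZMod p) →ₗ[ZMod p] (Z → ZMod p) :=
    LinearMap.pi fun z => (aeval z.1).toLinearMap
  have h3 : Function.Injective (Q ∘ₗ P) := by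
    rw [← LinearMap.ker_eq_bot, eq_bot_iff]
    intro c hc
    apply h1
    apply h
    rw [map_zero]
    by_contra hne
    have hd : (aeval g (P c)).totalDegree < p := by
      refine lt_of_le_of_lt ((deg_aeval_le g N hg _).trans (Nat.mul_le_mul_right _
        ((h2 c).trans (Nat.mul_le_mul_right _ hI)))) ?_
      have := Nat.div_mul_le_self p (N * N + 1)
      rw [← he] at this
      rcases Nat.eq_zero_or_pos e with h0 | h0
      · simp [h0, hp]
      · nlinarith
    obtain ⟨t, ht⟩ := exists_eval_ne _ hne hd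
    apply ht
    rw [eval_aeval']
    exact congrFun (LinearMap.mem_ker.mp hc) ⟨_, hZ t⟩
  have h4 := LinearMap.finrank_le_finrank_of_injective h3
  simp only [Module.finrank_fintype_fun_eq_card, Fintype.card_fun, Fintype.card_fin,
    Fintype.card_coe] at h4
  have h5 : p ≤ (N * N + 1) * (e + 1) := by
    rw [he]; exact (Nat.lt_mul_div_succ p (by omega)).le
  calc p ^ Fintype.card I ≤ ((N * N + 1) * (e + 1)) ^ Fintype.card I := Nat.pow_le_pow_left h5 _
    _ = _ := mul_pow _ _ _
    _ ≤ _ := Nat.mul_le_mul (Nat.pow_le_pow_right (by omega) hI) h4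

end Pool.Agent.MP_5f7865_al.H99

end

-- part MP_5f7865_al.H99.One
section

/-! One-parameter subgroups through unipotent elements. -/

namespace Pool.Agent.MP_5f7865_al.H99

open Polynomial

variable {p : ℕ} [Fact p.Prime]

/-- binomial coefficient polynomial -/
noncomputable def bin (p : ℕ) [Fact p.Prime] (i : ℕ) : Polynomial (ZMod p) :=
  C ((i.factorial : ZMod p)⁻¹) * descPochhammer (ZMod p) i

lemma bin_eval {i : ℕ} (hi : i < p) (a : ℕ) : (bin p i).eval (a : ZMod p) = a.choose i := by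
  have h : (i.factorial : ZMod p) ≠ 0 := by
    rw [Ne, ZMod.natCast_eq_zero_iff, (Fact.out : p.Prime).dvd_factorial]
    omega
  rw [bin, eval_mul, eval_C, descPochhammer_eval_eq_descFactorial,
    Nat.descFactorial_eq_factorial_mul_choose, Nat.cast_mul, inv_mul_cancel_left₀ h]

lemma bin_natDegree (i : ℕ) : (bin p i).natDegree ≤ i :=
  (natDegree_C_mul_le _ _).trans (descPochhammer_natDegree _ i).le

section alg
variable {A : Type} [Ring A] [Algebra (ZMod p) A]

lemma one_add_pow_eq {x : A} {d : ℕ} (hx : x ^ d = 0) (hd : d ≤ p) (a : ℕ) :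
    (1 + x) ^ a = ∑ i ∈ Finset.range d, (bin p i).eval (a : ZMod p) • x ^ i := by
  rw [add_comm, (Commute.one_right x).add_pow]
  have h1 : ∑ m ∈ Finset.range (a + 1), x ^ m * 1 ^ (a - m) * (a.choose m : A) =
      ∑ m ∈ Finset.range (a + 1 + d), x ^ m * 1 ^ (a - m) * (a.choose m : A) := by
    refine Finset.sum_subset (Finset.range_mono (by omega)) fun m _ hm => ?_
    rw [Nat.choose_eq_zero_of_lt (by simpa using hm), Nat.cast_zero, mul_zero]
  have h2 : ∑ m ∈ Finset.range d, x ^ m * 1 ^ (a - m) * (a.choose m : A) =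
      ∑ m ∈ Finset.range (a + 1 + d), x ^ m * 1 ^ (a - m) * (a.choose m : A) := by
    refine Finset.sum_subset (Finset.range_mono (by omega)) fun m _ hm => ?_
    rw [pow_eq_zero_of_le (by simpa using hm) hx, zero_mul, zero_mul]
  rw [h1, ← h2]
  refine Finset.sum_congr rfl fun m hm => ?_
  rw [bin_eval (by have := Finset.mem_range.mp hm; omega), one_pow, mul_one, Nat.cast_smul_eq_nsmul,
    nsmul_eq_mul, Nat.cast_comm]

lemma sub_one_pow_eq (x : A) (k : ℕ) : (x - 1) ^ p ^ k = x ^ p ^ k - 1 := by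
  have := congrArg (aeval x) (sub_pow_char_pow (p := p) (n := k) (X : Polynomial (ZMod p)) 1)
  simpa using this

/-- truncated logarithm of `1 + x` -/
noncomputable def lg (p : ℕ) [Fact p.Prime] {A : Type} [Ring A] [Algebra (ZMod p) A] (d : ℕ)
    (x : A) : A := ∑ i ∈ Finset.range d, (bin p i).coeff 1 • x ^ i

lemma exists_comp_inv {F : Type} [Field F] (f : Polynomial F) (hf : X ^ 2 ∣ f - X) (k : ℕ) :
    ∃ g : Polynomial F, X ^ k ∣ g.comp f - X := by
  obtain ⟨s, hs⟩ := hf
  have hf' : f = X * (1 + X * s) := by rw [sub_eq_iff_eq_add] at hs; rw [hs]; ring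
  induction k with
  | zero => exact ⟨0, by simp⟩
  | succ k ih =>
    obtain ⟨g, r, hr⟩ := ih
    refine ⟨g - C (r.coeff 0) * X ^ k, ?_⟩
    have : (g - C (r.coeff 0) * X ^ k).comp f - X =
        X ^ k * (r - C (r.coeff 0) * (1 + X * s) ^ k) := by
      rw [sub_comp, mul_comp, C_comp, pow_comp, X_comp, sub_right_comm, hr]
      conv_lhs => rw [hf']
      rw [mul_pow]; ring
    rw [this, pow_succ]
    refine mul_dvd_mul_left _ (X_dvd_iff.mpr ?_)
    simp [coeff_zero_eq_eval_zero]

lemma lg_inj {x y : A} {d : ℕ} (hd : 2 ≤ d) (hx : x ^ d = 0) (hy : y ^ d = 0)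
    (h : lg p d x = lg p d y) : x = y := by
  let f : Polynomial (ZMod p) := ∑ i ∈ Finset.range d, C ((bin p i).coeff 1) * X ^ i
  have hf : ∀ z : A, aeval z f = lg p d z := by
    intro z; simp [f, lg, Algebra.smul_def]
  obtain ⟨g, r, hr⟩ := exists_comp_inv f (by
    rw [X_pow_dvd_iff]
    intro j hj
    have hj' : j < d := by omega
    simp only [f, coeff_sub, finsetSum_coeff, coeff_C_mul_X_pow]
    rw [Finset.sum_ite_eq, if_pos (Finset.mem_range.mpr hj')]
    interval_cases j <;> simp [bin, coeff_one]) d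
  have key : ∀ z : A, z ^ d = 0 → aeval (lg p d z) g = z := by
    intro z hz
    have := congrArg (aeval z) hr
    rw [map_sub, map_mul, map_pow, aeval_X, hz, zero_mul, aeval_comp, hf, sub_eq_zero] at this
    exact this
  rw [← key x hx, h, key y hy]

end alg

lemma nil_pow_card {F ι : Type} [Field F] [Fintype ι] [DecidableEq ι] {x : Matrix ι ι F}
    (hx : IsNilpotent x) : x ^ Fintype.card ι = 0 := by
  have h1 := (Matrix.isNilpotent_charpoly_sub_pow_of_isNilpotent hx).eq_zero
  have h2 := Matrix.aeval_self_charpoly x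
  rw [sub_eq_zero.mp h1] at h2
  simpa using h2

lemma der_curve {F κ : Type} [Field F] (c : κ → Polynomial F) (f : MvPolynomial κ F) :
    MvPolynomial.eval (fun k => (c k).eval 0) f = (MvPolynomial.aeval c f).eval 0 ∧
    der (fun k => (c k).eval 0) (fun k => (c k).coeff 1) f =
      (derivative (MvPolynomial.aeval c f)).eval 0 := by
  induction f using MvPolynomial.induction_on with
  | C a => simp
  | add f g hf hg => simp only [map_add, der_add, hf.1, hg.1, hf.2, hg.2, eval_add, and_self]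
  | mul_X f k hf =>
    simp only [map_mul, der_mul, hf.1, hf.2, eval_mul, derivative_mul, eval_add,
      MvPolynomial.eval_X, MvPolynomial.aeval_X, der_X, true_and]
    rw [← coeff_zero_eq_eval_zero (derivative (c k)), coeff_derivative]
    simp

lemma eval_curve {F κ : Type} [Field F] (c : κ → Polynomial F) (f : MvPolynomial κ F) (y : F) :
    (MvPolynomial.aeval c f).eval y = MvPolynomial.eval (fun o => (c o).eval y) f := by
  rw [← MvPolynomial.coe_aeval_eq_eval, ← Polynomial.coe_aeval_eq_eval]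
  change Polynomial.aeval y (MvPolynomial.aeval c f) = MvPolynomial.aeval _ f
  rw [← AlgHom.comp_apply, MvPolynomial.comp_aeval]

lemma curve_mem_Tan {κ : Type} (c : κ → Polynomial (ZMod p)) {d D : ℕ}
    (hc : ∀ k, (c k).natDegree ≤ d) (hD : D * d < p) {Z : Set (κ → ZMod p)}
    (hZ : ∀ a, (fun k => (c k).eval a) ∈ Z) :
    (fun k => (c k).coeff 1) ∈ Tan Z D (fun k => (c k).eval 0) := by
  intro f h1 h2
  rw [(der_curve c f).2]
  have : MvPolynomial.aeval c f = 0 := by
    refine eq_zero_of_natDegree_lt_card_of_eval_eq_zero _ (f := id) Function.injective_id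
      (fun a => ?_) ?_
    · rw [eval_curve]; exact h2 _ (hZ a)
    · rw [ZMod.card]
      exact (MvPolynomial.aeval_natDegree_le f h1 c hc).trans_lt hD
  rw [this]; simp

/-- coordinates of a matrix -/
def vec {F ι : Type} [CommRing F] : Matrix ι ι F ≃ₗ[F] (ι × ι → F) where
  toFun A k := A k.1 k.2
  invFun x := Matrix.of fun i j => x (i, j)
  map_add' _ _ := rfl
  map_smul' _ _ := rfl
  left_inv _ := rfl
  right_inv _ := rfl

lemma vec_apply {F ι : Type} [CommRing F] (A : Matrix ι ι F) (k : ι × ι) : vec A k = A k.1 k.2 :=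
  rfl

lemma lg_mem_Tan {ι : Type} [Fintype ι] [DecidableEq ι] {x : Matrix ι ι (ZMod p)} {d D : ℕ}
    (hx : x ^ d = 0) (hd : d ≤ p) (hD : D * d < p) {Z : Set (ι × ι → ZMod p)}
    (hZ : ∀ a : ℕ, vec ((1 + x) ^ a) ∈ Z) : vec (lg p d x) ∈ Tan Z D (vec 1) := by
  let c : ι × ι → Polynomial (ZMod p) :=
    fun k => ∑ i ∈ Finset.range d, bin p i * C ((x ^ i) k.1 k.2)
  have h1 : ∀ a : ℕ, (fun k => (c k).eval (a : ZMod p)) = vec ((1 + x) ^ a) := by
    intro a
    funext k
    rw [one_add_pow_eq hx hd, vec_apply, Matrix.sum_apply]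
    simp [c, eval_finsetSum]
  have h2 := curve_mem_Tan c (d := d) (D := D) (Z := Z) (fun k =>
    natDegree_sum_le_of_forall_le _ _ fun i hi => (natDegree_mul_C_le _ _).trans
      ((bin_natDegree i).trans (Finset.mem_range.mp hi).le)) hD (fun a => by
        rw [← ZMod.natCast_zmod_val a, h1]; exact hZ _)
  have h3 := h1 0
  rw [Nat.cast_zero, pow_zero] at h3
  have h4 : (fun k => (c k).coeff 1) = vec (lg p d x) := by
    funext k
    rw [lg, vec_apply, Matrix.sum_apply]
    simp [c]
  rwa [h3, h4] at h2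

end Pool.Agent.MP_5f7865_al.H99

end

-- part MP_5f7865_al.H99.Nori
section

/-! The subgroup generated by elements of order `p` is as large as its tangent space predicts. -/

namespace Pool.Agent.MP_5f7865_al.H99

open MvPolynomial

/-- the subgroup generated by the elements killed by `p` -/
def Gp (p : ℕ) (Γ : Type) [Group Γ] : Subgroup Γ := Subgroup.closure {u | u ^ p = 1}

lemma mem_Gp {p : ℕ} {Γ : Type} [Group Γ] {u : Γ} (hu : u ^ p = 1) : u ∈ Gp p Γ :=
  Subgroup.subset_closure hu

variable {p : ℕ} [Fact p.Prime]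

/-- the points of `Gp` in matrix coordinates -/
def ZN {ι Γ : Type} [Fintype ι] [DecidableEq ι] [Group Γ] (ρ : Γ →* Matrix ι ι (ZMod p)) :
    Set (ι × ι → ZMod p) := {z | ∃ w ∈ Gp p Γ, vec (ρ w) = z}

lemma unip {ι Γ : Type} [Fintype ι] [DecidableEq ι] [Group Γ] (ρ : Γ →* Matrix ι ι (ZMod p))
    {u : Γ} {k : ℕ} (hu : u ^ p ^ k = 1) : (ρ u - 1) ^ Fintype.card ι = 0 :=
  nil_pow_card ⟨p ^ k, by rw [sub_one_pow_eq (p := p), ← map_pow, hu, map_one, sub_self]⟩

lemma exists_curve {ι : Type} [Fintype ι] [DecidableEq ι] {x : Matrix ι ι (ZMod p)} {d : ℕ}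
    (hx : x ^ d = 0) (hd : d ≤ p) : ∃ c : ι × ι → Polynomial (ZMod p),
      (∀ k, (c k).natDegree ≤ d) ∧ ∀ (a : ℕ) k, (c k).eval (a : ZMod p) = vec ((1 + x) ^ a) k := by
  refine ⟨fun k => ∑ i ∈ Finset.range d, bin p i * Polynomial.C ((x ^ i) k.1 k.2), fun k => ?_,
    fun a k => ?_⟩
  · exact Polynomial.natDegree_sum_le_of_forall_le _ _ fun i hi =>
      (Polynomial.natDegree_mul_C_le _ _).trans
      ((bin_natDegree i).trans (Finset.mem_range.mp hi).le)
  · rw [one_add_pow_eq hx hd, vec_apply, Matrix.sum_apply]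
    simp [Polynomial.eval_finsetSum]

lemma deg_paeval {F σ : Type} [Field F] (j : σ) (c : Polynomial F) :
    (Polynomial.aeval (X j : MvPolynomial σ F) c).totalDegree ≤ c.natDegree := by
  rw [Polynomial.aeval_eq_sum_range]
  refine totalDegree_finsetSum_le fun i hi => (totalDegree_smul_le _ _).trans ?_
  rw [totalDegree_X_pow]
  exact Nat.lt_succ_iff.mp (Finset.mem_range.mp hi)

/-- a polynomial chart of `Gp` whose relations are stable under right multiplication -/
lemma exists_chart {ι Γ : Type} [Fintype ι] [DecidableEq ι] [Group Γ]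
    (ρ : Γ →* Matrix ι ι (ZMod p)) {n : ℕ} (hn : Fintype.card ι ≤ n) (hp : n ≤ p) :
    ∃ (σ : Type) (_ : Fintype σ) (Φ : ι × ι → MvPolynomial σ (ZMod p)) (I : Finset (ι × ι)),
      Fintype.card σ ≤ n * n ∧ (∀ k, (Φ k).totalDegree ≤ n * n * n) ∧
      (∀ t, (fun k => eval t (Φ k)) ∈ ZN ρ) ∧ Ind (ZMod p) Φ I ∧ Span (ZMod p) Φ I ∧
      ∀ h, aeval Φ h = 0 → ∀ z ∈ ZN ρ, eval z h = 0 := by
  classical
  let P : ℕ → Prop := fun m => ∃ (σ : Type) (_ : Fintype σ)
    (Φ : ι × ι → MvPolynomial σ (ZMod p)) (I : Finset (ι × ι)), Fintype.card σ ≤ m ∧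
      m ≤ I.card ∧ (∀ k, (Φ k).totalDegree ≤ m * n) ∧
      (∀ t, (fun k => eval t (Φ k)) ∈ ZN ρ) ∧ Ind (ZMod p) Φ I ∧ Span (ZMod p) Φ I
  have hP0 : P 0 := by
    obtain ⟨I, -, h1, h2⟩ := exists_max (F := ZMod p)
      (fun k : ι × ι => (C (vec (1 : Matrix ι ι (ZMod p)) k) : MvPolynomial Empty (ZMod p))) ∅
      (algebraicIndependent_empty_type)
    refine ⟨Empty, inferInstance, _, I, by simp, by simp, by simp, fun t => ?_, h1, h2⟩
    exact ⟨1, one_mem _, by funext k; simp⟩
  have hPle : ∀ m, P m → m ≤ n * n := by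
    rintro m ⟨σ, _, Φ, I, -, h, -⟩
    refine h.trans ((Finset.card_le_univ I).trans ?_)
    rw [Fintype.card_prod]
    exact Nat.mul_le_mul hn hn
  have hspec := Nat.findGreatest_spec (P := P) (Nat.zero_le (n * n)) hP0
  have hmax : ¬ P (Nat.findGreatest P (n * n) + 1) := fun h =>
    Nat.findGreatest_is_greatest (Nat.lt_succ_self _) (hPle _ h) h
  have hm := hPle _ hspec
  generalize Nat.findGreatest P (n * n) = m at hspec hmax hm
  obtain ⟨σ, _, Φ, I, h1, h2, h3, h4, h5, h6⟩ := hspec
  refine ⟨σ, inferInstance, Φ, I, h1.trans hm, fun k => (h3 k).trans (Nat.mul_le_mul_right _ hm),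
    h4, h5, h6, ?_⟩
  let R : Γ → ι × ι → MvPolynomial (ι × ι) (ZMod p) :=
    fun u k => ∑ l, X (k.1, l) * C (ρ u l k.2)
  have hR : ∀ u, u ^ p = 1 → ∀ h : MvPolynomial (ι × ι) (ZMod p), aeval Φ h = 0 →
      aeval Φ (aeval (R u) h) = 0 := by
    intro u hu h hh
    obtain ⟨c, hc1, hc2⟩ := exists_curve (pow_eq_zero_of_le hn
      (unip ρ (k := 1) (by rwa [pow_one]))) hp
    let Φ' : ι × ι → MvPolynomial (Option σ) (ZMod p) :=
      fun k => ∑ l, rename some (Φ (k.1, l)) * Polynomial.aeval (X none) (c (l, k.2))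
    let θ : ZMod p → MvPolynomial (Option σ) (ZMod p) →ₐ[ZMod p] MvPolynomial σ (ZMod p) :=
      fun a => aeval fun o => o.elim (C a) X
    have hθ : ∀ (a : ℕ) k, θ a (Φ' k) = ∑ l, Φ (k.1, l) * C (ρ (u ^ a) l k.2) := by
      intro a k
      rw [map_sum]
      refine Finset.sum_congr rfl fun l _ => ?_
      rw [map_mul, aeval_rename, ← Polynomial.aeval_algHom_apply, aeval_X]
      congr 1
      · exact aeval_X_left_apply _
      · change Polynomial.aeval (algebraMap (ZMod p) _ (a : ZMod p)) _ = _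
        rw [Polynomial.aeval_algebraMap_apply_eq_algebraMap_eval, hc2, add_sub_cancel, map_pow ρ]
        rfl
    have hθ0 : (fun k => θ 0 (Φ' k)) = Φ := by
      funext k
      have := hθ 0 k
      rw [Nat.cast_zero] at this
      rw [this]
      simp [Matrix.one_apply, apply_ite]
    have hind : Ind (ZMod p) Φ' I := by
      refine AlgebraicIndependent.of_comp (θ 0) ?_
      have : (θ 0 ∘ fun i : I => Φ' i) = fun i : I => Φ i := by
        funext i; exact congrFun hθ0 i
      rw [this]; exact h5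
    obtain ⟨I', hI1, hI2, hI3⟩ := exists_max Φ' I hind
    have hII : I = I' := by
      refine Finset.eq_of_subset_of_card_le hI1 (not_lt.mp fun hlt => hmax ?_)
      refine ⟨Option σ, inferInstance, Φ', I', by simpa using h1, by omega, fun k => ?_,
        fun t => ?_, hI2, hI3⟩
      · refine totalDegree_finsetSum_le fun l _ => (totalDegree_mul _ _).trans ?_
        rw [add_mul, one_mul]
        exact Nat.add_le_add ((totalDegree_rename_le _ _).trans (h3 _))
          ((deg_paeval _ _).trans (hc1 _))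
      · obtain ⟨w, hw, hw2⟩ := h4 (t ∘ some)
        refine ⟨w * u ^ (t none).val, mul_mem hw (pow_mem (mem_Gp hu) _), ?_⟩
        funext k
        have h7 : eval t (Φ' k) = eval (t ∘ some) (θ (t none) (Φ' k)) := by
          rw [eval_aeval']
          congr 2
          funext o
          rcases o with _ | o <;> simp
        rw [h7, ← ZMod.natCast_zmod_val (t none), hθ, map_mul, vec_apply, Matrix.mul_apply, map_sum]
        refine Finset.sum_congr rfl fun l _ => ?_
        rw [map_mul, eval_C, ← congrFun hw2 (k.1, l), ZMod.natCast_zmod_val]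
        rfl
    subst hII
    have h8 := aeval_eq_zero_of_spec (θ 0) Φ' I (by rw [hθ0]; exact h5) hI3 h (by rw [hθ0, hh])
    have h9 := congrArg (θ ((1 : ℕ) : ZMod p)) h8
    rw [map_zero, ← AlgHom.comp_apply, comp_aeval] at h9
    rw [← AlgHom.comp_apply, comp_aeval, ← h9]
    congr 2
    funext k
    rw [hθ, pow_one]
    simp [R]
  have hstep : ∀ x u : Γ, u ^ p = 1 → (∀ h, aeval Φ h = 0 → eval (vec (ρ x)) h = 0) →
      ∀ h, aeval Φ h = 0 → eval (vec (ρ (x * u))) h = 0 := by
    intro x u hu hx h hh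
    rw [← hx _ (hR u hu h hh), eval_aeval']
    congr 2
    funext k
    simp [R, vec_apply, Matrix.mul_apply]
  obtain ⟨w0, hw0, hw0'⟩ := h4 0
  have hall : ∀ w ∈ Gp p Γ, ∀ h, aeval Φ h = 0 → eval (vec (ρ (w0 * w))) h = 0 := by
    intro w hw
    induction hw using Subgroup.closure_induction_right with
    | one =>
      intro h hh
      rw [mul_one, hw0', ← eval_aeval', hh, map_zero]
    | mul_right x hx y hy ih => rw [← mul_assoc]; exact hstep _ _ hy ih
    | mul_inv_cancel x hx y hy ih =>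
      rw [← mul_assoc]
      exact hstep _ _ (by rw [inv_pow, hy, inv_one]) ih
  rintro h hh _ ⟨w, hw, rfl⟩
  have := hall (w0⁻¹ * w) (mul_mem (inv_mem hw0) hw) h hh
  rwa [mul_inv_cancel_left] at this

/-- multiplication on both sides, in coordinates -/
def mulLR {F ι : Type} [Field F] [Fintype ι] [DecidableEq ι] (a b : Matrix ι ι F) :
    (ι × ι → F) →ₗ[F] (ι × ι → F) :=
  vec.toLinearMap ∘ₗ LinearMap.mulLeft F a ∘ₗ LinearMap.mulRight F b ∘ₗ vec.symm.toLinearMap

lemma mulLR_vec {F ι : Type} [Field F] [Fintype ι] [DecidableEq ι] (a b x : Matrix ι ι F) :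
    mulLR a b (vec x) = vec (a * (x * b)) := by
  simp [mulLR]

theorem nori (n : ℕ) : ∃ E, n ≤ E ∧ ∀ (p : ℕ) [Fact p.Prime], E < p →
    ∀ {ι Γ : Type} [Fintype ι] [DecidableEq ι] [Group Γ] [Finite Γ], Fintype.card ι ≤ n →
    ∀ ρ : Γ →* Matrix ι ι (ZMod p),
      p ^ Module.finrank (ZMod p) (Tan (ZN ρ) E (vec 1)) ≤ E * Nat.card (Gp p Γ) := by
  obtain ⟨N, hN⟩ : ∃ N, N = n * n * n + n * n + n := ⟨_, rfl⟩
  obtain ⟨E, hE1, hE⟩ := core N
  refine ⟨E + (N * N + 1) ^ N, by omega, ?_⟩
  intro p _ hp ι Γ _ _ _ _ hn ρ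
  classical
  obtain ⟨σ, _, Φ, I, h1, h2, h3, h4, h5, h6⟩ := exists_chart ρ hn (by omega)
  have hκ : Fintype.card (ι × ι) ≤ N := by
    rw [Fintype.card_prod]
    have := Nat.mul_le_mul hn hn
    omega
  obtain ⟨Δ, A, hΔ0, hΔ, hA, hinj⟩ := hE p (by omega) (by omega) hκ Φ
    (fun k => (h2 k).trans (by omega)) I h4 h5
  obtain ⟨t, ht⟩ := exists_eval_ne Δ hΔ0 (by omega)
  obtain ⟨w, hw, hw'⟩ := h3 t
  have h7 : Module.finrank (ZMod p) (Tan (ZN ρ) (E + (N * N + 1) ^ N) (vec 1)) ≤ I.card := by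
    refine le_trans ?_ (finrank_le_of_coords (Tan (ZN ρ) (E + (N * N + 1) ^ N) (vec (ρ w))) I
      fun v hv hvI => hinj t ht v hvI fun j => ?_)
    · let Λ := mulLR (ρ w) 1
      have hΛ : ∀ v ∈ Tan (ZN ρ) (E + (N * N + 1) ^ N) (vec 1),
          Λ v ∈ Tan (ZN ρ) (E + (N * N + 1) ^ N) (vec (ρ w)) := by
        intro v hv
        have := Tan_map Λ (Z' := ZN ρ) (by
          rintro _ ⟨x, hx, rfl⟩
          exact ⟨w * x, mul_mem hw hx, by rw [mulLR_vec, mul_one, map_mul]⟩) hv
        rwa [mulLR_vec, mul_one, mul_one] at this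
      refine LinearMap.finrank_le_finrank_of_injective (f := Λ.restrict hΛ) ?_
      intro x y hxy
      obtain ⟨x', hx'⟩ := vec.surjective x.1
      obtain ⟨y', hy'⟩ := vec.surjective y.1
      have h8 : Λ x.1 = Λ y.1 := congrArg Subtype.val hxy
      rw [← hx', ← hy', mulLR_vec, mulLR_vec] at h8
      have h9 := congrArg (ρ w⁻¹ * ·) (vec.injective h8)
      simp only [mul_one, ← mul_assoc, ← map_mul, inv_mul_cancel, map_one, one_mul] at h9
      exact Subtype.ext (by rw [← hx', ← hy', h9])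
    · rw [← hw']
      exact hv _ ((hA j).1.trans (Nat.le_add_right _ _)) (h6 _ (hA j).2)
  have := Fintype.ofFinite (Gp p Γ)
  have h8 := pow_le_of_indep N (I := I) ((Fintype.card_subtype_le _).trans hκ) (fun i => Φ i)
    (fun k => (h2 k).trans (by omega)) h4
    (Finset.univ.image fun x : Gp p Γ => fun i : I => vec (ρ x) i) (fun t => by
      obtain ⟨x, hx, hx'⟩ := h3 t
      exact Finset.mem_image.mpr ⟨⟨x, hx⟩, Finset.mem_univ _, by funext i; exact congrFun hx' i⟩)
  rw [Fintype.card_coe] at h8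
  refine (Nat.pow_le_pow_right (by omega) h7).trans (h8.trans ?_)
  refine Nat.mul_le_mul (Nat.le_add_left _ _) (Finset.card_image_le.trans ?_)
  rw [Finset.card_univ, Nat.card_eq_fintype_card]

end Pool.Agent.MP_5f7865_al.H99

end

-- part MP_5f7865_al.H99.Coc
section

/-! Counting lifts of a homomorphism modulo `Gp`. -/

namespace Pool.Agent.MP_5f7865_al.H99

open MvPolynomial

/-- conjugacy of homomorphisms -/
def HC {G A : Type} [Group G] [Group A] (φ ψ : G →* A) : Prop :=
  ∃ a : A, ∀ g : G, ψ g = a * φ g * a⁻¹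

lemma map_mem_Gp {p : ℕ} {Γ Γ' : Type} [Group Γ] [Group Γ'] (f : Γ →* Γ') {w : Γ}
    (hw : w ∈ Gp p Γ) : f w ∈ Gp p Γ' := by
  have : Gp p Γ ≤ (Gp p Γ').comap f :=
    (Subgroup.closure_le _).mpr fun u hu => mem_Gp (by rw [← map_pow, hu, map_one])
  exact this hw

instance Gp_char (p : ℕ) (Γ : Type) [Group Γ] : (Gp p Γ).Characteristic :=
  Subgroup.characteristic_iff_le_comap.mpr fun φ _ hw => map_mem_Gp φ.toMonoidHom hw

section
variable {F : Type} [Field F]

lemma finrank_le_of_maps {U V W : Type} [AddCommGroup U] [AddCommGroup V] [AddCommGroup W]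
    [Module F U] [Module F V] [Module F W] [FiniteDimensional F U] [FiniteDimensional F V]
    (T : Submodule F U) (B : Submodule F V) (π : U →ₗ[F] W) (d : V →ₗ[F] W) (ε : U →ₗ[F] V)
    (h1 : ∀ t ∈ T, ∃ b ∈ B, d b = π t) (h2 : ∀ t ∈ T, ε t ∈ B)
    (h3 : ∀ t ∈ T, π t = 0 → d (ε t) = 0) (h4 : ∀ t ∈ T, π t = 0 → ε t = 0 → t = 0) :
    Module.finrank F T ≤ Module.finrank F B := by
  rw [← (π.domRestrict T).finrank_range_add_finrank_ker,
    ← (d.domRestrict B).finrank_range_add_finrank_ker]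
  refine Nat.add_le_add (Submodule.finrank_mono ?_) ?_
  · rintro _ ⟨t, rfl⟩
    obtain ⟨b, hb, hb'⟩ := h1 t.1 t.2
    exact ⟨⟨b, hb⟩, hb'⟩
  · refine LinearMap.finrank_le_finrank_of_injective
      (f := (ε.restrict h2).restrict (p := LinearMap.ker (π.domRestrict T))
        (q := LinearMap.ker (d.domRestrict B)) fun t ht => h3 t.1 t.2 ht) ?_
    rw [← LinearMap.ker_eq_bot, eq_bot_iff]
    intro t ht
    exact Subtype.ext (Subtype.ext (h4 t.1.1 t.1.2 t.2
      (congrArg Subtype.val (congrArg Subtype.val (LinearMap.mem_ker.mp ht)))))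

/-- the matrix block with index `o` -/
def mat {O ι : Type} (o : O) : (O × ι × ι → F) →ₗ[F] Matrix ι ι F :=
  vec.symm.toLinearMap ∘ₗ LinearMap.funLeft F F fun k => (o, k)

lemma mat_apply {O ι : Type} (o : O) (x : O × ι × ι → F) (i j : ι) : mat o x i j = x (o, i, j) :=
  rfl

lemma Tan_mul {O ι : Type} [Fintype ι] {Z : Set (O × ι × ι → F)} {D : ℕ} (hD : 2 ≤ D)
    {z v : O × ι × ι → F} (hv : v ∈ Tan Z D z) (a b c d : O)
    (h : ∀ x ∈ Z, mat a x * mat b x = mat c x * mat d x) :
    mat a v * mat b z + mat a z * mat b v = mat c v * mat d z + mat c z * mat d v := by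
  ext i j
  let q : O → O → MvPolynomial (O × ι × ι) F := fun a b => ∑ l, X (a, i, l) * X (b, l, j)
  have hq : ∀ a b, (q a b).totalDegree ≤ D := fun a b =>
    totalDegree_finsetSum_le fun l _ => (totalDegree_mul _ _).trans (by simpa using hD)
  have h1 : ∀ a b x, eval x (q a b) = (mat a x * mat b x) i j := by
    intro a b x; simp [q, Matrix.mul_apply, mat_apply]
  have h2 : ∀ a b, der z v (q a b) = (mat a v * mat b z + mat a z * mat b v) i j := by
    intro a b
    simp [q, Matrix.mul_apply, mat_apply, der_sum, der_mul, Finset.sum_add_distrib]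
  have := hv (q a b - q c d) ((totalDegree_sub _ _).trans (max_le (hq _ _) (hq _ _)))
    (fun x hx => by rw [map_sub, h1, h1, h x hx, sub_self])
  rwa [der_sub, h2, h2, sub_eq_zero] at this

end

theorem lab_lifts (n g : ℕ) : ∃ C, ∀ (p : ℕ) [Fact p.Prime], C < p →
    ∀ {ι Γ G Q : Type} [Fintype ι] [DecidableEq ι] [Group Γ] [Finite Γ] [Group G] [Finite G]
    [Group Q], Fintype.card ι ≤ n → Nat.card G ≤ g →
    ∀ ρ : Γ →* Matrix ι ι (ZMod p), Function.Injective ρ → ∀ π : Γ →* Q, π.ker = Gp p Γ →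
    ∀ φ0 : G →* Γ, Lab {φ : G →* Γ // ∀ x, π (φ x) = π (φ0 x)} (fun φ ψ => HC φ.1 ψ.1) C := by
  obtain ⟨E, -, hE⟩ := nori n
  obtain ⟨D, hD⟩ : ∃ D, D = E + 2 + (g + 1) * (n * n) := ⟨_, rfl⟩
  obtain ⟨C, hC⟩ := card_le_of_Tan D
  refine ⟨C * E + C + E + g, ?_⟩
  intro p _ hp ι Γ G Q _ _ _ _ _ _ _ hn hg ρ hρ π hπ φ0
  classical
  have := Fintype.ofFinite G
  let Y := {φ : G →* Γ // ∀ x, π (φ x) = π (φ0 x)}
  have hN : ∀ c : Gp p Γ, π c = 1 := fun c => by
    rw [← MonoidHom.mem_ker, hπ]; exact c.2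
  let _ : MulAction (Gp p Γ) Y :=
    { smul := fun c φ => ⟨(MulAut.conj c.1).toMonoidHom.comp φ.1, fun x => by
        simp [hN c, φ.2 x]⟩
      one_smul := fun φ => Subtype.ext (MonoidHom.ext fun x => by
        change (1 : Γ) * φ.1 x * 1⁻¹ = _
        simp)
      mul_smul := fun c c' φ => Subtype.ext (MonoidHom.ext fun x => by
        change c.1 * c'.1 * φ.1 x * (c.1 * c'.1)⁻¹ = c.1 * (c'.1 * φ.1 x * c'.1⁻¹) * c.1⁻¹
        group) }
  have hsmul : ∀ (c : Gp p Γ) (φ : Y) x, (c • φ).1 x = c.1 * φ.1 x * c.1⁻¹ := fun _ _ _ => rfl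
  have : Finite (G →* Γ) := Finite.of_injective _ DFunLike.coe_injective
  let S := Σ c : Gp p Γ, MulAction.fixedBy Y c
  have := Fintype.ofFinite S
  let el : S → Option G → Γ := fun s o => o.elim s.1.1 s.2.1.1
  let e : S → (Option G × ι × ι → ZMod p) := fun s k => vec (ρ (el s k.1)) k.2
  have hmat : ∀ s o, mat o (e s) = ρ (el s o) := fun _ _ => rfl
  have he : Function.Injective e := by
    rintro ⟨c, φ, hφ⟩ ⟨c', φ', hφ'⟩ h
    have h1 : ∀ o, el ⟨c, φ, hφ⟩ o = el ⟨c', φ', hφ'⟩ o := fun o =>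
      hρ (by rw [← hmat, h, hmat])
    obtain rfl : c = c' := Subtype.ext (h1 none)
    obtain rfl : φ = φ' := Subtype.ext (MonoidHom.ext fun x => h1 (some x))
    rfl
  have hcomm : ∀ (s : S) x, el s none * el s (some x) = el s (some x) * el s none := by
    intro s x
    have h1 := hsmul s.1 s.2.1 x
    rw [show s.1 • s.2.1 = s.2.1 from s.2.2] at h1
    exact mul_inv_eq_iff_eq_mul.mp h1.symm
  have hrel : ∀ (s s' : S) o, el s' o * (el s o)⁻¹ ∈ Gp p Γ := by
    rintro s s' (_ | x)
    · exact mul_mem s'.1.2 (inv_mem s.1.2)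
    · rw [← hπ, MonoidHom.mem_ker, map_mul, map_inv]
      change π (s'.2.1.1 x) * (π (s.2.1.1 x))⁻¹ = 1
      rw [s'.2.1.2, s.2.1.2, mul_inv_cancel]
  have hcard : (Fintype.card G : ZMod p) ≠ 0 := by
    rw [Ne, ZMod.natCast_eq_zero_iff]
    intro h
    have := Nat.le_of_dvd Fintype.card_pos h
    rw [Nat.card_eq_fintype_card] at hg
    omega
  have h1 := hC p (by omega) (κ := Option G × ι × ι) (by
    rw [Fintype.card_prod, Fintype.card_prod, Fintype.card_option, ← Nat.card_eq_fintype_card]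
    have := Nat.mul_le_mul (Nat.add_le_add_right hg 1) (Nat.mul_le_mul hn hn)
    omega) (Finset.univ.image e) (Module.finrank (ZMod p) (Tan (ZN ρ) E (vec 1))) (by
    intro z hz
    obtain ⟨s, -, rfl⟩ := Finset.mem_image.mp hz
    let a : Option G → (Option G × ι × ι → ZMod p) →ₗ[ZMod p] Matrix ι ι (ZMod p) :=
      fun o => LinearMap.mulRight (ZMod p) (ρ (el s o)⁻¹) ∘ₗ mat o
    have ha : ∀ o v, a o v = mat o v * ρ (el s o)⁻¹ := fun _ _ => rfl
    have ha' : ∀ o v, mat o v = a o v * ρ (el s o) := by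
      intro o v
      rw [ha, mul_assoc, ← map_mul, inv_mul_cancel, map_one, mul_one]
    have hZ : ∀ {P : (Option G × ι × ι → ZMod p) → Prop}, (∀ s, P (e s)) →
        ∀ x ∈ ((Finset.univ.image e : Finset _) : Set (Option G × ι × ι → ZMod p)), P x := by
      intro P h x hx
      obtain ⟨s, -, rfl⟩ := Finset.mem_image.mp hx
      exact h s
    have hmem : ∀ v ∈ Tan ((Finset.univ.image e : Finset _) : Set (Option G × ι × ι → ZMod p)) D
        (e s), ∀ o, vec (a o v) ∈ Tan (ZN ρ) E (vec 1) := by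
      intro v hv o
      have := Tan_map (vec.toLinearMap ∘ₗ a o) (Z' := ZN ρ) (hZ fun s' =>
        ⟨_, hrel s s' o, by rw [map_mul]; rfl⟩) hv
      refine Tan_mono le_rfl (show E ≤ D by omega) _ ?_
      have h2 : a o (e s) = 1 := by rw [ha, hmat, ← map_mul, mul_inv_cancel, map_one]
      simpa [h2] using this
    let d : (ι × ι → ZMod p) →ₗ[ZMod p] (G → Matrix ι ι (ZMod p)) :=
      (LinearMap.pi fun x => LinearMap.id - LinearMap.mulLeft (ZMod p) (ρ (el s (some x))) ∘ₗ
        LinearMap.mulRight (ZMod p) (ρ (el s (some x))⁻¹)) ∘ₗ vec.symm.toLinearMap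
    have hd : ∀ b x, d (vec b) x = b - ρ (el s (some x)) * (b * ρ (el s (some x))⁻¹) :=
      fun _ _ => rfl
    have hmul : ∀ (s : S) x y, el s (some (x * y)) = el s (some x) * el s (some y) :=
      fun s x y => map_mul s.2.1.1 x y
    have hone : ∀ (s : S), el s (some 1) = 1 := fun s => map_one s.2.1.1
    refine finrank_le_of_maps _ _ (LinearMap.pi fun x : G => a (some x)) d
      (vec.toLinearMap ∘ₗ a none) (fun v hv => ?_) (fun v hv => hmem v hv none)
      (fun v hv h0 => ?_) (fun v hv h0 h1 => ?_)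
    · have h3 : mat (some 1) v = 0 := by
        ext i j
        exact eq_zero_of_Tan (by omega) hv _ ((1 : Matrix ι ι (ZMod p)) i j) (hZ fun s' => by
          change ρ (el s' (some 1)) i j = _
          rw [hone, map_one])
      have h4 : ∀ x y, a (some (x * y)) v = a (some x) v +
          ρ (el s (some x)) * (a (some y) v * ρ (el s (some x))⁻¹) := by
        intro x y
        have h5 := Tan_mul (by omega) hv (some x) (some y) (some (x * y)) (some 1) (hZ fun s' => by
          simp only [hmat, hone, hmul, map_mul, map_one, mul_one])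
        rw [h3, mul_zero, add_zero, hmat, hmat, hmat, hone, map_one, mul_one] at h5
        rw [ha, ← h5, hmul, mul_inv_rev, map_mul, add_mul, ha, ha]
        simp only [mul_assoc]
        rw [← mul_assoc (ρ (el s (some y))), ← map_mul, mul_inv_cancel, map_one, one_mul]
      refine ⟨vec ((Fintype.card G : ZMod p)⁻¹ • ∑ y, a (some y) v), ?_, ?_⟩
      · rw [map_smul, map_sum]
        exact Submodule.smul_mem _ _ (Submodule.sum_mem _ fun y _ => hmem v hv _)
      · funext x
        rw [hd, LinearMap.pi_apply, smul_mul_assoc, mul_smul_comm, ← smul_sub,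
          inv_smul_eq_iff₀ hcard]
        have h6 : ∑ y, a (some y) v = ∑ y, a (some (x * y)) v :=
          (Equiv.sum_comp (Equiv.mulLeft x) fun y => a (some y) v).symm
        conv_lhs => rw [Finset.sum_mul, Finset.mul_sum, h6]
        simp only [h4, Finset.sum_add_distrib, add_sub_cancel_right, Finset.sum_const,
          Finset.card_univ, Nat.cast_smul_eq_nsmul]
    · funext x
      have h3 : mat (some x) v = 0 := by
        rw [ha', show a (some x) v = 0 from congrFun h0 x, zero_mul]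
      have h5 := Tan_mul (by omega) hv none (some x) (some x) none (hZ fun s' => by
        simp only [hmat, ← map_mul, hcomm])
      rw [h3, mul_zero, zero_mul, add_zero, zero_add, hmat] at h5
      change d (vec (a none v)) x = 0
      rw [hd, ha, sub_eq_zero, ← mul_assoc, ← mul_assoc, ← h5, mul_assoc, mul_assoc, ← map_mul,
        ← map_mul, ← mul_inv_rev, ← hcomm, mul_inv_rev, mul_inv_cancel_left]
    · funext k
      obtain ⟨o, i, j⟩ := k
      have h3 : a o v = 0 := by
        rcases o with _ | x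
        · exact vec.injective (h1.trans (map_zero _).symm)
        · exact congrFun h0 x
      change mat o v i j = 0
      rw [ha', h3, zero_mul]
      rfl)
  rw [Finset.card_image_of_injective _ he, Finset.card_univ, ← Nat.card_eq_fintype_card,
    Nat.card_congr (MulAction.sigmaFixedByEquivOrbitsProdGroup (Gp p Γ) Y), Nat.card_prod] at h1
  have h2 := h1.trans (Nat.mul_le_mul_left C (hE p (by omega) hn ρ))
  rw [← mul_assoc] at h2
  have h3 := Nat.le_of_mul_le_mul_right h2 Nat.card_pos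
  refine Lab.of_map (fun φ : Y => Quotient.mk (MulAction.orbitRel (Gp p Γ) Y) φ) (by omega) ?_
  intro φ ψ h
  obtain ⟨c, hc⟩ := Quotient.exact h.symm
  exact ⟨c.1, fun x => by rw [← hsmul, ← hc]⟩

/-- the automorphism group of a linear group generated by elements of order `p` is linear -/
theorem aut_linear (n : ℕ) : ∃ C, ∀ (p : ℕ) [Fact p.Prime], C < p →
    ∀ {ι Γ : Type} [Fintype ι] [DecidableEq ι] [Group Γ] [Finite Γ], Fintype.card ι ≤ n →
    ∀ ρ : Γ →* Matrix ι ι (ZMod p), Function.Injective ρ → Gp p Γ = ⊤ →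
    ∃ m, m ≤ n * n ∧ ∃ σ : MulAut Γ →* Matrix (Fin m) (Fin m) (ZMod p), Function.Injective σ := by
  obtain ⟨E, -, hE⟩ := nori (n * (n * n + 1))
  refine ⟨E + E * (n + 2) + (n + 2), ?_⟩
  intro p _ hp ι Γ _ _ _ _ hn ρ hρ hΓ
  classical
  have := Fintype.ofFinite (MulAut Γ)
  have hnil : ∀ u : Γ, u ^ p = 1 → (ρ u - 1) ^ (n + 2) = 0 := fun u hu =>
    pow_eq_zero_of_le (by omega) (unip ρ (k := 1) (by rwa [pow_one]))
  let L : Γ → (MulAut Γ × ι × ι → ZMod p) := fun u k => vec (lg p (n + 2) (ρ (k.1 u) - 1)) k.2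
  let W := Submodule.span (ZMod p) (L '' {u | u ^ p = 1})
  have hW : Module.finrank (ZMod p) W ≤ n * n := by
    by_contra hlt
    obtain ⟨W', hW1, hW2⟩ : ∃ W' ≤ W, Module.finrank (ZMod p) W' = n * n + 1 := by
      obtain ⟨f, hf⟩ := exists_linearIndependent_of_le_finrank (R := ZMod p) (M := W)
        (n := n * n + 1) (by omega)
      refine ⟨Submodule.span (ZMod p) (Set.range (W.subtype ∘ f)), ?_, ?_⟩
      · rw [Submodule.span_le]
        rintro _ ⟨i, rfl⟩
        exact (f i).2
      · rw [finrank_span_eq_card (hf.map' _ W.ker_subtype), Fintype.card_fin]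
    obtain ⟨I, hI1, hI2⟩ := exists_coords W'
    let s := I.image Prod.fst
    have hs : Fintype.card s ≤ n * n + 1 := by
      rw [Fintype.card_coe]; exact Finset.card_image_le.trans (by omega)
    let ρ' : Γ →* Matrix (ι × s) (ι × s) (ZMod p) :=
      (Matrix.blockDiagonalRingHom ι s (ZMod p)).toMonoidHom.comp
        (MonoidHom.pi fun α : s => ρ.comp α.1.toMonoidHom)
    have hρ' : ∀ u, ρ' u = Matrix.blockDiagonal fun α : s => ρ (α.1 u) := fun _ => rfl
    let B : (MulAut Γ × ι × ι → ZMod p) →ₗ[ZMod p] ((ι × s) × (ι × s) → ZMod p) :=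
      { toFun := fun x => vec (Matrix.blockDiagonal fun α : s => mat α.1 x)
        map_add' := fun x y => by
          rw [← map_add, ← Matrix.blockDiagonal_add]
          simp only [map_add]
          rfl
        map_smul' := fun c x => by
          rw [← map_smul, ← Matrix.blockDiagonal_smul]
          simp only [map_smul]
          rfl }
    have hB : ∀ x ∈ W', B x ∈ Tan (ZN ρ') E (vec 1) := by
      intro x hx
      refine (show W ≤ (Tan (ZN ρ') E (vec 1)).comap B from ?_) (hW1 hx)
      rw [Submodule.span_le]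
      rintro _ ⟨u, hu, rfl⟩
      have h1 : ρ' u - 1 = Matrix.blockDiagonal fun α : s => ρ (α.1 u) - 1 := by
        rw [hρ', ← Matrix.blockDiagonal_one, ← Matrix.blockDiagonal_sub]; rfl
      have h2 := lg_mem_Tan (x := ρ' u - 1) (d := n + 2) (D := E) (Z := ZN ρ') (by
        rw [h1, ← Matrix.blockDiagonal_pow, ← Matrix.blockDiagonal_zero]
        congr 1
        funext α
        exact hnil _ (by rw [← map_pow, hu, map_one])) (by omega) (by omega) (fun a =>
          ⟨u ^ a, pow_mem (mem_Gp hu) _, by rw [add_sub_cancel, map_pow]⟩)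
      have h3 : lg p (n + 2) (ρ' u - 1) = Matrix.blockDiagonal fun α : s => mat α.1 (L u) := by
        rw [h1, lg]
        simp only [← Matrix.blockDiagonal_pow, ← Matrix.blockDiagonal_smul]
        refine (map_sum (Matrix.blockDiagonalRingHom ι s (ZMod p)) _ _).symm.trans ?_
        refine congrArg Matrix.blockDiagonal (funext fun α => ?_)
        rw [Finset.sum_apply]
        rfl
      rw [h3] at h2
      exact h2
    have h4 := LinearMap.finrank_le_finrank_of_injective (f := B.restrict hB) (by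
      rw [← LinearMap.ker_eq_bot, eq_bot_iff]
      intro x hx
      refine Subtype.ext (hI2 _ x.2 fun k hk => ?_)
      have h5 : B x.1 = 0 := congrArg Subtype.val (LinearMap.mem_ker.mp hx)
      have h6 := congrFun h5 ((k.2.1, ⟨k.1, Finset.mem_image_of_mem _ hk⟩),
        (k.2.2, ⟨k.1, Finset.mem_image_of_mem _ hk⟩))
      simpa [B, vec_apply, mat_apply] using h6)
    have h5 := hE p (by omega) (ι := ι × s) (by
      rw [Fintype.card_prod]; exact Nat.mul_le_mul hn hs) ρ'
    have h6 : Nat.card (Gp p Γ) ≤ p ^ (n * n) := by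
      refine (Nat.card_le_card_of_injective (fun x : Gp p Γ => vec (ρ x))
        (vec.injective.comp (hρ.comp Subtype.val_injective))).trans ?_
      rw [Nat.card_eq_fintype_card, Fintype.card_fun, ZMod.card, Fintype.card_prod]
      exact Nat.pow_le_pow_right (by omega) (Nat.mul_le_mul hn hn)
    have h7 := (Nat.pow_le_pow_right (show 0 < p by omega) (hW2 ▸ h4)).trans
      (h5.trans (Nat.mul_le_mul_left _ h6))
    rw [pow_succ'] at h7
    have := Nat.le_of_mul_le_mul_right h7 (pow_pos (by omega) _)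
    omega
  let τ : MulAut Γ → Module.End (ZMod p) (MulAut Γ × ι × ι → ZMod p) :=
    fun β => LinearMap.funLeft (ZMod p) (ZMod p) fun k => (k.1 * β, k.2)
  have hτ : ∀ β u, τ β (L u) = L (β u) := fun _ _ => rfl
  have hτW : ∀ β, ∀ x ∈ W, τ β x ∈ W := by
    intro β
    refine (show W ≤ W.comap (τ β) from ?_)
    rw [Submodule.span_le]
    rintro _ ⟨u, hu, rfl⟩
    exact Submodule.subset_span ⟨β u, by rw [Set.mem_ofPred, ← map_pow, hu, map_one], rfl⟩
  let τ' : MulAut Γ →* Module.End (ZMod p) W :=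
    { toFun := fun β => (τ β).restrict (hτW β)
      map_one' := by ext x k; simp [τ]
      map_mul' := fun β γ => by ext x k; simp [τ, mul_assoc] }
  refine ⟨_, hW, (LinearMap.toMatrixAlgEquiv (Module.finBasis (ZMod p) W)).toMonoidHom.comp τ', ?_⟩
  rw [injective_iff_map_eq_one]
  intro β hβ
  have h1 : τ' β = 1 := (LinearMap.toMatrixAlgEquiv (Module.finBasis (ZMod p) W)).injective
    (hβ.trans (map_one _).symm)
  have h2 : ∀ u, u ^ p = 1 → β u = u := by
    intro u hu
    have h3 : L (β u) = L u :=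
      congrArg Subtype.val (LinearMap.congr_fun h1 ⟨L u, Submodule.subset_span ⟨u, hu, rfl⟩⟩)
    have h4 : lg p (n + 2) (ρ (β u) - 1) = lg p (n + 2) (ρ u - 1) := by
      ext i j; exact congrFun h3 (1, i, j)
    exact hρ (sub_left_injective (lg_inj (by omega)
      (hnil _ (by rw [← map_pow, hu, map_one])) (hnil _ hu) h4))
  have h3 : β.toMonoidHom = MonoidHom.id Γ :=
    MonoidHom.eq_of_eqOn_dense hΓ h2
  exact MulEquiv.ext fun x => DFunLike.congr_fun h3 x

end Pool.Agent.MP_5f7865_al.H99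

end

-- part MP_5f7865_al.H99.Jordan
section

/-! Jordan's theorem for finite linear groups of order prime to the characteristic. -/

namespace Pool.Agent.MP_5f7865_al.H99

open Function

/-- an abelian subgroup of index at most `c` with at most `M` elements killed by `g` -/
def AB (g c M : ℕ) (H : Type) [Group H] : Prop :=
  ∃ T : Subgroup H, T.index ≤ c ∧ (∀ x ∈ T, ∀ y ∈ T, x * y = y * x) ∧
    Nat.card {t : T // t ^ g = 1} ≤ M

lemma card_le_of_sep {E α : Type} [NormedAddCommGroup E] [NormedSpace ℝ E] [FiniteDimensional ℝ E]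
    [Finite α] (f : α → E) (h1 : ∀ a, ‖f a‖ ≤ 2) (h2 : ∀ a b, ‖f a - f b‖ < 1 → a = b) :
    Nat.card α ≤ 5 ^ Module.finrank ℝ E := by
  classical
  have := Fintype.ofFinite α
  have hf : Injective f := fun a b h => h2 a b (by rw [h]; simp)
  rw [Nat.card_eq_fintype_card, ← Finset.card_univ, ← Finset.card_image_of_injective _ hf]
  refine Besicovitch.card_le_of_separated _ (by simpa using h1) ?_
  intro c hc d hd hcd
  obtain ⟨a, -, rfl⟩ := Finset.mem_image.mp hc
  obtain ⟨b, -, rfl⟩ := Finset.mem_image.mp hd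
  exact not_lt.mp fun h => hcd (by rw [h2 a b h])

section normed
variable {A : Type} [NormedRing A] [NormedAlgebra ℝ A]

lemma eq_one_of_avg {x y : A} {m : ℕ} (hm : 0 < m) (hx : x ^ m = 1)
    (h : ∀ i < m, ‖x ^ i * y - 1‖ < 1) : x = 1 := by
  by_contra hne
  have hw : 0 < ‖x - 1‖ := norm_pos_iff.mpr (sub_ne_zero.mpr hne)
  have h1 : (m : ℝ) • (x - 1) = ∑ i ∈ Finset.range m, (x - 1) * (1 - x ^ i * y) := by
    rw [← Finset.mul_sum, Finset.sum_sub_distrib, ← Finset.sum_mul, mul_sub, ← mul_assoc,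
      mul_geom_sum, hx, sub_self, zero_mul, sub_zero, Finset.mul_sum]
    simp [Nat.cast_smul_eq_nsmul, mul_sub]
  have h2 : ‖(m : ℝ) • (x - 1)‖ < ∑ _i ∈ Finset.range m, ‖x - 1‖ := by
    rw [h1]
    refine (norm_sum_le _ _).trans_lt (Finset.sum_lt_sum_of_nonempty
      (Finset.nonempty_range_iff.mpr hm.ne') fun i hi => (norm_mul_le _ _).trans_lt ?_)
    rw [norm_sub_rev (1 : A)]
    exact mul_lt_of_lt_one_right hw (h i (Finset.mem_range.mp hi))
  rw [norm_smul] at h2
  simp at h2

omit [NormedAlgebra ℝ A] in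
lemma norm_conj_le {H : Type} [Group H] (ρ : H →* A) (hn : ∀ h, ‖ρ h‖ ≤ 1) (a b : H) (x : A) :
    ‖ρ a * x * ρ b‖ ≤ ‖x‖ :=
  ((norm_mul_le _ _).trans (mul_le_of_le_one_right (norm_nonneg _) (hn b))).trans
    ((norm_mul_le _ _).trans (mul_le_of_le_one_left (norm_nonneg _) (hn a)))

variable [FiniteDimensional ℝ A]

lemma index_le_of_small {H : Type} [Group H] [Finite H] (ρ : H →* A) (hn : ∀ h, ‖ρ h‖ ≤ 1)
    (K : Subgroup H) (hK : ∀ h, ‖ρ h - 1‖ < 1 / 2 → h ∈ K) : K.index ≤ 5 ^ Module.finrank ℝ A := by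
  refine card_le_of_sep (fun q : H ⧸ K => (2 : ℝ) • ρ q.out) (fun q => ?_) fun q q' h => ?_
  · rw [norm_smul]
    have := hn q.out
    simp only [Real.norm_ofNat]
    linarith
  · rw [← smul_sub, norm_smul, norm_sub_rev] at h
    simp only [Real.norm_ofNat] at h
    rw [← q.out_eq, ← q'.out_eq]
    refine QuotientGroup.eq.mpr (hK _ ?_)
    have := norm_conj_le ρ hn q.out⁻¹ 1 (ρ q'.out - ρ q.out)
    rw [map_one, mul_one, mul_sub, ← map_mul, ← map_mul, inv_mul_cancel, map_one] at this
    linarith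

lemma jordan_aux (m : ℕ) : ∀ {H : Type} [Group H] [Finite H] (ρ : H →* A), Injective ρ →
    (∀ h, ‖ρ h‖ ≤ 1) → Module.finrank ℝ (Submodule.span ℝ (Set.range ρ)) < m →
    ∃ T : Subgroup H, T.index ≤ (5 ^ Module.finrank ℝ A) ^ m ∧ ∀ x ∈ T, ∀ y ∈ T, x * y = y * x := by
  induction m with
  | zero => intro H _ _ ρ _ _ h; omega
  | succ m ih =>
    intro H _ _ ρ hρ hn hm
    classical
    have := Fintype.ofFinite H
    let s := Finset.univ.filter fun h : H => ‖ρ h - 1‖ < 1 / 2 ∧ h ∉ Subgroup.center H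
    rcases s.eq_empty_or_nonempty with hs | hs
    · refine ⟨Subgroup.center H, (index_le_of_small ρ hn _ fun h hh => ?_).trans
        (Nat.le_self_pow (by omega) _), fun x _ y hy => Subgroup.mem_center_iff.mp hy x⟩
      by_contra hc
      have : h ∈ s := Finset.mem_filter.mpr ⟨Finset.mem_univ _, hh, hc⟩
      simp [hs] at this
    obtain ⟨a, ha, hmin⟩ := Finset.exists_min_image s (fun h => ‖ρ h - 1‖) hs
    obtain ⟨-, ha1, ha2⟩ := Finset.mem_filter.mp ha
    have hK : ∀ b, ‖ρ b - 1‖ < 1 / 2 → b ∈ Subgroup.centralizer {a} := by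
      intro b hb
      have hapos : 0 < ‖ρ a - 1‖ := by
        refine norm_pos_iff.mpr (sub_ne_zero.mpr fun h => ha2 ?_)
        rw [hρ (h.trans (map_one ρ).symm)]
        exact one_mem _
      have h1 : ‖ρ (a * b * a⁻¹ * b⁻¹) - 1‖ < ‖ρ a - 1‖ := by
        have h2 := norm_conj_le ρ hn 1 (a⁻¹ * b⁻¹)
          ((ρ a - 1) * (ρ b - 1) - (ρ b - 1) * (ρ a - 1))
        have h3 : (ρ a - 1) * (ρ b - 1) - (ρ b - 1) * (ρ a - 1) = ρ (a * b) - ρ (b * a) := by
          rw [map_mul, map_mul]; noncomm_ring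
        have h4 := (norm_sub_le _ _).trans (add_le_add (norm_mul_le (ρ a - 1) (ρ b - 1))
          (norm_mul_le (ρ b - 1) (ρ a - 1)))
        rw [h3] at h2 h4
        rw [map_one, one_mul, sub_mul, ← map_mul, ← map_mul, ← mul_assoc,
          show b * a * (a⁻¹ * b⁻¹) = 1 by group, map_one] at h2
        nlinarith
      have h5 : a * b * a⁻¹ * b⁻¹ ∈ Subgroup.center H := by
        by_contra hc
        exact absurd (hmin _ (Finset.mem_filter.mpr ⟨Finset.mem_univ _, h1.trans ha1, hc⟩))
          (not_le.mpr h1)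
      obtain ⟨z, hz⟩ : ∃ z, z = a * b * a⁻¹ * b⁻¹ := ⟨_, rfl⟩
      rw [← hz] at h5
      have h6 : ∀ i : ℕ, z ^ i * b = a ^ i * b * (a ^ i)⁻¹ := by
        intro i
        induction i with
        | zero => simp
        | succ i ih =>
          have h7 := Subgroup.mem_center_iff.mp (pow_mem h5 i) a
          calc z ^ (i + 1) * b = z ^ i * (a * b * a⁻¹) := by rw [pow_succ, hz]; group
            _ = a * (z ^ i * b) * a⁻¹ := by rw [← mul_assoc, ← mul_assoc, ← h7]; group
            _ = _ := by rw [ih, pow_succ']; group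
      have h8 : ρ z = 1 := eq_one_of_avg (y := ρ b) (orderOf_pos z)
        (by rw [← map_pow, pow_orderOf_eq_one, map_one]) fun i _ => by
          have := norm_conj_le ρ hn (a ^ i) (a ^ i)⁻¹ (ρ b - 1)
          rw [mul_sub, sub_mul, mul_one, ← map_mul, ← map_mul, ← map_mul, mul_inv_cancel, map_one,
            ← h6, map_mul, map_pow] at this
          linarith
      have h9 : z = 1 := hρ (h8.trans (map_one ρ).symm)
      rw [Subgroup.mem_centralizer_singleton_iff]
      rw [h9, eq_mul_inv_iff_mul_eq, eq_mul_inv_iff_mul_eq, one_mul] at hz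
      exact hz
    let K := Subgroup.centralizer {a}
    have hlt : Submodule.span ℝ (Set.range (ρ.comp K.subtype)) < Submodule.span ℝ (Set.range ρ) := by
      refine lt_of_le_of_ne (Submodule.span_mono ?_) fun h => ha2 ?_
      · rintro _ ⟨x, rfl⟩; exact ⟨x, rfl⟩
      · have h1 : Submodule.span ℝ (Set.range (ρ.comp K.subtype)) ≤
            LinearMap.eqLocus (LinearMap.mulRight ℝ (ρ a)) (LinearMap.mulLeft ℝ (ρ a)) := by
          rw [Submodule.span_le]
          rintro _ ⟨x, rfl⟩
          change ρ x * ρ a = ρ a * ρ x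
          rw [← map_mul, ← map_mul, Subgroup.mem_centralizer_singleton_iff.mp x.2]
        rw [Subgroup.mem_center_iff]
        intro g
        have h2 : ρ g * ρ a = ρ a * ρ g := h1 (h ▸ Submodule.subset_span ⟨g, rfl⟩)
        exact hρ (by rw [map_mul, map_mul, h2])
    obtain ⟨T, h1, h2⟩ := ih (ρ.comp K.subtype) (hρ.comp Subtype.val_injective) (fun h => hn h)
      (by have := Submodule.finrank_lt_finrank_of_lt hlt; omega)
    refine ⟨T.map K.subtype, ?_, ?_⟩
    · rw [Subgroup.index_map_subtype, pow_succ]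
      exact Nat.mul_le_mul h1 (index_le_of_small ρ hn _ hK)
    · rintro _ ⟨x, hx, rfl⟩ _ ⟨y, hy, rfl⟩
      rw [← map_mul, ← map_mul, h2 x hx y hy]

lemma ab_normed {g d : ℕ} (hg : 0 < g) (hd : Module.finrank ℝ A ≤ d) {H : Type} [Group H]
    [Finite H] (ρ : H →* A) (hρ : Injective ρ) (hn : ∀ h, ‖ρ h‖ ≤ 1) :
    AB g ((5 ^ d) ^ (d + 1)) (5 ^ (g * d)) H := by
  obtain ⟨T, h1, h2⟩ := jordan_aux (d + 1) ρ hρ hn
    (Nat.lt_succ_of_le ((Submodule.finrank_le _).trans hd))
  refine ⟨T, h1.trans (Nat.pow_le_pow_left (Nat.pow_le_pow_right (by omega) hd) _), h2, ?_⟩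
  refine (card_le_of_sep (fun t : {t : T // t ^ g = 1} => fun i : Fin g => ρ (t.1.1 ^ i.1))
    (fun t => ?_) fun s t h => ?_).trans (Nat.pow_le_pow_right (by omega) ?_)
  · exact (pi_norm_le_iff_of_nonneg (by norm_num)).mpr fun i => (hn _).trans (by norm_num)
  · have hc : Commute s.1.1 t.1.1⁻¹ := h2 _ s.1.2 _ (inv_mem t.1.2)
    have hs : s.1.1 ^ g = 1 := congrArg Subtype.val s.2
    have ht : t.1.1 ^ g = 1 := congrArg Subtype.val t.2
    have h3 : ρ (s.1.1 * t.1.1⁻¹) = 1 := eq_one_of_avg (y := 1) hg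
      (by rw [← map_pow, hc.mul_pow, inv_pow, hs, ht, inv_one, mul_one, map_one]) fun i hi => by
        have h4 := (norm_le_pi_norm _ (⟨i, hi⟩ : Fin g)).trans_lt h
        have h5 := norm_conj_le ρ hn 1 (t.1.1 ^ i)⁻¹ (ρ (s.1.1 ^ i) - ρ (t.1.1 ^ i))
        rw [map_one, one_mul, sub_mul, ← map_mul, ← map_mul, mul_inv_cancel, map_one] at h5
        rw [mul_one, ← map_pow, hc.mul_pow, inv_pow]
        exact h5.trans_lt h4
    exact Subtype.ext (Subtype.ext (mul_inv_eq_one.mp (hρ (h3.trans (map_one ρ).symm))))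
  · rw [Module.finrank_pi_fintype]
    simpa using Nat.mul_le_mul_left g hd

end normed

lemma ab_complex {g n : ℕ} (hg : 0 < g) {ι H : Type} [Fintype ι] [DecidableEq ι] [Group H]
    [Finite H] (hn : Fintype.card ι ≤ n) (ρ : H →* Matrix ι ι ℂ) (hρ : Injective ρ) :
    AB g ((5 ^ (2 * n * (2 * n))) ^ (2 * n * (2 * n) + 1)) (5 ^ (g * (2 * n * (2 * n)))) H := by
  have := Fintype.ofFinite H
  let T : (ι → ℂ) →ₗ[ℝ] (H → ι → ℂ) :=
    LinearMap.pi fun h => (Matrix.mulVecLin (ρ h)).restrictScalars ℝ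
  have hT : ∀ v h, T v h = (ρ h).mulVec v := fun _ _ => rfl
  let W := LinearMap.range T
  let τ : H → Module.End ℝ (H → ι → ℂ) := fun a => LinearMap.funLeft ℝ (ι → ℂ) fun h => h * a
  have hτ : ∀ a v, τ a (T v) = T ((ρ a).mulVec v) := by
    intro a v
    funext h
    change T v (h * a) = _
    rw [hT, hT, map_mul, Matrix.mulVec_mulVec]
  have hτW : ∀ a, ∀ x ∈ W, τ a x ∈ W := by
    rintro a _ ⟨v, rfl⟩
    exact ⟨_, (hτ a v).symm⟩
  let τ' : H →* Module.End ℝ W :=
    { toFun := fun a => (τ a).restrict (hτW a)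
      map_one' := by ext x k; simp [τ]
      map_mul' := fun β γ => by ext x k; simp [τ, mul_assoc] }
  have hW : Module.finrank ℝ W ≤ 2 * n := by
    refine (LinearMap.finrank_range_le T).trans ?_
    rw [Module.finrank_pi_fintype]
    simpa [mul_comm] using hn
  refine ab_normed (A := W →L[ℝ] W) hg ?_
    ((Module.End.toContinuousLinearMap W).toMonoidHom.comp τ') ?_ ?_
  · rw [← (LinearMap.toContinuousLinearMap (𝕜 := ℝ) (E := W) (F' := W)).finrank_eq,
      Module.finrank_linearMap]
    exact Nat.mul_le_mul hW hW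
  · rw [injective_iff_map_eq_one]
    intro a ha
    have h1 : τ' a = 1 := (Module.End.toContinuousLinearMap W).injective
      (ha.trans (map_one _).symm)
    refine hρ (Matrix.mulVec_injective (funext fun v => ?_))
    have h2 : τ a (T v) = T v := congrArg Subtype.val (LinearMap.congr_fun h1 ⟨T v, v, rfl⟩)
    have h3 := congrFun h2 1
    rwa [hτ, hT, hT, map_one, Matrix.one_mulVec, ← map_one ρ] at h3
  · intro a
    refine ContinuousLinearMap.opNorm_le_bound _ zero_le_one fun x => ?_
    rw [one_mul]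
    change ‖τ a x.1‖ ≤ ‖x.1‖
    exact (pi_norm_le_iff_of_nonneg (norm_nonneg _)).mpr fun h => norm_le_pi_norm x.1 (h * a)

open MvPolynomial in
lemma transfer {R ι H : Type} [CommRing R] [CharZero R] [Fintype ι] [DecidableEq ι] [Group H]
    [Finite H] (ρ : H →* Matrix ι ι R) (hu : ∀ h ≠ 1, ∃ i j, IsUnit ((ρ h - 1) i j)) :
    ∃ ρ' : H →* Matrix ι ι ℂ, Injective ρ' := by
  classical
  let S := (nonZeroDivisors ℤ).map (Int.castRingHom R)
  let B := Localization S
  have : Nontrivial B := by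
    rw [← not_subsingleton_iff_nontrivial, IsLocalization.subsingleton_iff (M := S)]
    rintro ⟨m, hm, hm0⟩
    exact nonZeroDivisors.ne_zero hm (by simpa using hm0)
  let _ : Algebra ℚ B := (IsLocalization.lift (M := nonZeroDivisors ℤ) (S := ℚ)
    (g := (algebraMap R B).comp (Int.castRingHom R)) fun y =>
      IsLocalization.map_units B (⟨_, y.1, y.2, rfl⟩ : S)).toAlgebra
  have hu' : ∀ h : {h : H // h ≠ 1}, ∃ (i j : ι) (c : B),
      algebraMap R B ((ρ h.1 - 1) i j) * c = 1 := by
    intro h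
    obtain ⟨i, j, hij⟩ := hu h.1 h.2
    obtain ⟨c, hc⟩ := (hij.map (algebraMap R B)).exists_right_inv
    exact ⟨i, j, c, hc⟩
  choose i j c hc using hu'
  let sol : (H × ι × ι) ⊕ {h : H // h ≠ 1} → B :=
    Sum.elim (fun k => algebraMap R B (ρ k.1 k.2.1 k.2.2)) c
  let ev : MvPolynomial ((H × ι × ι) ⊕ {h : H // h ≠ 1}) ℚ →ₐ[ℚ] B := aeval sol
  obtain ⟨J, hJ, hle⟩ := Ideal.exists_le_maximal (RingHom.ker ev) (RingHom.ker_ne_top ev)
  obtain ⟨x, rfl⟩ := eq_vanishingIdeal_singleton_of_isMaximal ℂ hJ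
  let ev' : MvPolynomial ((H × ι × ι) ⊕ {h : H // h ≠ 1}) ℚ →ₐ[ℚ] ℂ := aeval x
  have key : ∀ f, ev f = 0 → ev' f = 0 := fun f hf => hle hf x rfl
  let Y : H → Matrix ι ι (MvPolynomial ((H × ι × ι) ⊕ {h : H // h ≠ 1}) ℚ) :=
    fun h => Matrix.of fun a b => X (Sum.inl (h, a, b))
  have hY : ∀ h, ev.mapMatrix (Y h) = (algebraMap R B).mapMatrix (ρ h) := by
    intro h; ext a b; simp [Y, ev, sol]
  have key' : ∀ M N : Matrix ι ι (MvPolynomial ((H × ι × ι) ⊕ {h : H // h ≠ 1}) ℚ),
      ev.mapMatrix M = ev.mapMatrix N → ev'.mapMatrix M = ev'.mapMatrix N := by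
    intro M N h
    ext a b
    have h1 : ev (M a b) = ev (N a b) := congrFun (congrFun h a) b
    change ev' (M a b) = ev' (N a b)
    rw [← sub_eq_zero, ← map_sub]
    exact key _ (by rw [map_sub, h1, sub_self])
  let ρ' : H →* Matrix ι ι ℂ :=
    { toFun := fun h => ev'.mapMatrix (Y h)
      map_one' := by
        rw [← map_one ev'.mapMatrix]
        exact key' _ _ (by simp only [hY, map_one])
      map_mul' := fun a b => by
        rw [← map_mul]
        exact key' _ _ (by simp only [hY, map_mul]) }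
  refine ⟨ρ', (injective_iff_map_eq_one _).mpr fun h hh => ?_⟩
  by_contra hne
  have h1 := key ((Y h - 1) (i ⟨h, hne⟩) (j ⟨h, hne⟩) * X (Sum.inr ⟨h, hne⟩) - 1) (by
    rw [map_sub, map_mul, map_one, sub_eq_zero, ← hc ⟨h, hne⟩]
    congr 1
    · change ev.mapMatrix (Y h - 1) _ _ = (algebraMap R B).mapMatrix (ρ h - 1) _ _
      rw [map_sub, map_sub, hY, map_one, map_one]
    · simp [ev, sol])
  have h2 : ev' ((Y h - 1) (i ⟨h, hne⟩) (j ⟨h, hne⟩)) = 0 := by
    change ev'.mapMatrix (Y h - 1) _ _ = 0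
    rw [map_sub, map_one, show ev'.mapMatrix (Y h) = 1 from hh, sub_self]
    rfl
  rw [map_sub, map_mul, h2, zero_mul, map_one] at h1
  simp at h1

lemma exists_section {P H : Type} [Group P] [Group H] (π : P →* H) (hπ : Surjective π)
    (hc : Nat.Coprime (Nat.card π.ker) (Nat.card H)) : ∃ s : H →* P, ∀ h, π (s h) = h := by
  obtain ⟨K, hK⟩ := Subgroup.exists_left_complement'_of_coprime (N := π.ker) (by
    rwa [Subgroup.index_ker, MonoidHom.range_eq_top.mpr hπ, Subgroup.card_top])
  have hb : Bijective (π.comp K.subtype) := by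
    constructor
    · rw [injective_iff_map_eq_one]
      intro x hx
      exact Subtype.ext (Subgroup.disjoint_def.mp hK.disjoint x.2 hx)
    · intro h
      obtain ⟨x, rfl⟩ := hπ h
      obtain ⟨⟨a, b⟩, rfl⟩ := hK.2 x
      exact ⟨a, by simp [show π b = 1 from b.2]⟩
  exact ⟨K.subtype.comp (MulEquiv.ofBijective _ hb).symm.toMonoidHom,
    fun h => (MulEquiv.ofBijective _ hb).apply_symm_apply h⟩

lemma one_add_pow_pow {A : Type} [Ring A] {p j : ℕ} (hp : (p : A) ^ (j + 1) = 0) (y : A) :
    (1 + p * y) ^ p ^ j = 1 := by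
  obtain ⟨c, hc⟩ := dvd_sub_pow_of_dvd_sub (R := Polynomial ℤ) (p := p)
    (a := 1 + (p : Polynomial ℤ) * Polynomial.X) (b := 1) (by simp) j
  have := congrArg (Polynomial.aeval y) hc
  simpa [hp, sub_eq_zero] using this

lemma isUnit_of_map {A' A : Type} [Ring A'] [Ring A] [IsDedekindFiniteMonoid A'] {p j : ℕ}
    (hp0 : 0 < p) (hp : (p : A') ^ (j + 1) = 0) (r : A' →+* A) (hr : Surjective r)
    (hker : ∀ a, r a = 0 → ∃ y, a = p * y) {a : A'} (ha : IsUnit (r a)) : IsUnit a := by
  obtain ⟨b, hb⟩ := ha.exists_right_inv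
  obtain ⟨b, rfl⟩ := hr b
  obtain ⟨y, hy⟩ := hker (a * b - 1) (by rw [map_sub, map_mul, hb, map_one, sub_self])
  have h1 := one_add_pow_pow hp y
  rw [← hy, add_sub_cancel, ← Nat.sub_add_cancel (pow_pos hp0 j), pow_succ', mul_assoc] at h1
  exact IsUnit.of_mul_eq_one _ h1

lemma exists_lift {A' A H : Type} [Ring A'] [Ring A] [Finite A'] [IsDedekindFiniteMonoid A']
    [Group H] [Finite H] {p j : ℕ} [Fact p.Prime] (hp : (p : A') ^ (j + 1) = 0) (r : A' →+* A)
    (hr : Surjective r) (hker : ∀ a, r a = 0 → ∃ y, a = p * y) (hH : ¬ p ∣ Nat.card H)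
    (ρ : H →* A) : ∃ ρ' : H →* A', ∀ h, r (ρ' h) = ρ h := by
  let P := MonoidHom.eqLocus (ρ.toHomUnits.comp (MonoidHom.fst H A'ˣ))
    ((Units.map r.toMonoidHom).comp (MonoidHom.snd H A'ˣ))
  have hP : ∀ x : P, ρ x.1.1 = r x.1.2 := fun x => congrArg Units.val x.2
  let π : P →* H := (MonoidHom.fst H A'ˣ).comp P.subtype
  have hπ : Surjective π := by
    intro h
    obtain ⟨a, ha⟩ := hr (ρ h)
    have hu := isUnit_of_map (Fact.out : p.Prime).pos hp r hr hker (a := a)
      (ha ▸ (Group.isUnit h).map ρ)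
    exact ⟨⟨(h, hu.unit), Units.ext ha.symm⟩, rfl⟩
  have hpg : IsPGroup p π.ker := by
    intro x
    refine ⟨j, Subtype.ext (Subtype.ext (Prod.ext ?_ (Units.ext ?_)))⟩
    · change x.1.1.1 ^ p ^ j = 1
      rw [show x.1.1.1 = 1 from x.2, one_pow]
    · obtain ⟨y, hy⟩ := hker (x.1.1.2 - 1) (by
        rw [map_sub, ← hP, show x.1.1.1 = 1 from x.2, map_one, map_one, sub_self])
      have h1 := one_add_pow_pow hp y
      rw [← hy, add_sub_cancel] at h1
      exact h1
  obtain ⟨k, hk⟩ := hpg.exists_card_eq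
  obtain ⟨s, hs⟩ := exists_section π hπ (by
    rw [hk]; exact (((Fact.out : p.Prime).coprime_iff_not_dvd).mpr hH).pow_left _)
  refine ⟨(Units.coeHom A').comp ((MonoidHom.snd H A'ˣ).comp (P.subtype.comp s)), fun h => ?_⟩
  exact (hP (s h)).symm.trans (congrArg ρ (hs h))

/-- Jordan's theorem in characteristic `p` for groups of order prime to `p` -/
theorem jordan (n g : ℕ) (hg : 0 < g) : ∃ c M, ∀ (p : ℕ) [Fact p.Prime]
    {ι H : Type} [Fintype ι] [DecidableEq ι] [Group H] [Finite H], Fintype.card ι ≤ n →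
    ¬ p ∣ Nat.card H → ∀ ρ : H →* Matrix ι ι (ZMod p), Injective ρ → AB g c M H := by
  refine ⟨(5 ^ (2 * n * (2 * n))) ^ (2 * n * (2 * n) + 1), 5 ^ (g * (2 * n * (2 * n))),
    fun p _ ι H _ _ _ _ hn hH ρ hρ => ?_⟩
  let r : ∀ j, ZMod (p ^ (j + 1)) →+* ZMod p :=
    fun j => ZMod.castHom (dvd_pow_self p (Nat.succ_ne_zero j)) (ZMod p)
  have hr : ∀ j, Surjective (r j) := fun j => ZMod.ringHom_surjective _
  have hne : ∀ j, NeZero (p ^ (j + 1)) := fun j => ⟨pow_ne_zero _ (Fact.out : p.Prime).ne_zero⟩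
  have hker : ∀ j a, r j a = 0 → ∃ y, a = p * y := by
    intro j a ha
    rw [← ZMod.natCast_zmod_val a, map_natCast, ZMod.natCast_eq_zero_iff] at ha
    obtain ⟨c, hc⟩ := ha
    exact ⟨c, by rw [← ZMod.natCast_zmod_val a, hc, Nat.cast_mul]⟩
  have hp : ∀ j, (p : ZMod (p ^ (j + 1))) ^ (j + 1) = 0 := fun j => by
    rw [← Nat.cast_pow, ZMod.natCast_self]
  have key : ∀ j, ∃ ρ' : H →* Matrix ι ι (ZMod (p ^ (j + 1))),
      ∀ h, (r j).mapMatrix (ρ' h) = ρ h := by
    intro j
    refine exists_lift (p := p) (j := j) ?_ _ ?_ ?_ hH ρ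
    · rw [← map_natCast (algebraMap (ZMod (p ^ (j + 1))) (Matrix ι ι (ZMod (p ^ (j + 1))))),
        ← map_pow, hp, map_zero]
    · intro M
      choose f hf using hr j
      exact ⟨M.map f, by ext a b; exact hf _⟩
    · intro M hM
      choose y hy using fun a b => hker j (M a b) (congrFun (congrFun hM a) b)
      refine ⟨Matrix.of y, ?_⟩
      rw [← nsmul_eq_mul]
      ext a b
      rw [hy, Matrix.smul_apply, nsmul_eq_mul]
      rfl
  choose ρ' hρ' using key
  have : CharZero (∀ j, ZMod (p ^ (j + 1))) := by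
    refine charZero_of_inj_zero fun m hm => ?_
    have h1 : ((m : ℕ) : ZMod (p ^ (m + 1))) = 0 := congrFun hm m
    rw [ZMod.natCast_eq_zero_iff] at h1
    exact Nat.eq_zero_of_dvd_of_lt h1 ((Nat.lt_succ_self m).trans
      (Nat.lt_pow_self (Fact.out : p.Prime).one_lt))
  obtain ⟨σ, hσ⟩ := transfer (R := ∀ j, ZMod (p ^ (j + 1)))
    ((Matrix.piRingEquiv.symm.toMonoidHom).comp (MonoidHom.pi ρ')) (by
      intro h hh
      have h1 : ρ h - 1 ≠ 0 := sub_ne_zero.mpr fun e => hh (hρ (e.trans (map_one ρ).symm))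
      obtain ⟨a, h2⟩ := Function.ne_iff.mp h1
      obtain ⟨b, h3⟩ := Function.ne_iff.mp h2
      refine ⟨a, b, Pi.isUnit_iff.mpr fun j => ?_⟩
      refine isUnit_of_map (Fact.out : p.Prime).pos (hp j) (r j) (hr j) (hker j)
        (isUnit_iff_ne_zero.mpr fun e => h3 ?_)
      rw [← hρ' j, ← map_one (r j).mapMatrix, ← map_sub]
      refine Eq.trans ?_ e
      change r j _ = r j _
      congr 1
      by_cases hab : a = b <;> simp [hab])
  exact ab_complex hg hn σ hσ

end Pool.Agent.MP_5f7865_al.H99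

end

-- part MP_5f7865_al.H99.Cov
section

/-! Bounding conjugacy classes of homomorphisms into subgroups. -/

namespace Pool.Agent.MP_5f7865_al.H99

open Function

variable {G : Type} [Group G] [Finite G]

omit [Finite G] in
lemma lab_ext {Γ Q : Type} [Group Γ] [Group Q] (π : Γ →* Q) (hπ : Surjective π) {B C : ℕ}
    (h1 : Lab (G →* Q) HC B)
    (h2 : ∀ φ0 : G →* Γ, Lab {φ : G →* Γ // ∀ x, π (φ x) = π (φ0 x)} (fun φ ψ => HC φ.1 ψ.1) C) :
    Lab (G →* Γ) HC (B * C) := by
  refine Lab.refine (s := fun φ ψ => HC (π.comp φ) (π.comp ψ))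
    (h1.pull (fun φ => π.comp φ) fun _ _ h => h) fun φ0 => ?_
  have key : ∀ φ : {φ : G →* Γ // HC (π.comp φ0) (π.comp φ)}, ∃ a : Γ,
      ∀ x, π (a * φ.1 x * a⁻¹) = π (φ0 x) := by
    rintro ⟨φ, a, ha⟩
    obtain ⟨a, rfl⟩ := hπ a
    refine ⟨a⁻¹, fun x => ?_⟩
    have : π (φ x) = π a * π (φ0 x) * (π a)⁻¹ := ha x
    simp [this, mul_assoc]
  choose a ha using key
  refine (h2 φ0).pull (fun φ => ⟨(MulAut.conj (a φ)).toMonoidHom.comp φ.1, ha φ⟩) ?_
  rintro φ ψ ⟨b, hb⟩
  refine ⟨(a ψ)⁻¹ * b * a φ, fun x => ?_⟩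
  have : a ψ * ψ.1 x * (a ψ)⁻¹ = b * (a φ * φ.1 x * (a φ)⁻¹) * b⁻¹ := hb x
  calc ψ.1 x = (a ψ)⁻¹ * (a ψ * ψ.1 x * (a ψ)⁻¹) * a ψ := by group
    _ = _ := by rw [this]; group

open scoped IsMulCommutative in
lemma lab_ab {Γ Q : Type} [Group Γ] [Finite Γ] [Group Q] (π : Γ →* Q)
    (hc : ∀ x ∈ π.ker, ∀ y ∈ π.ker, x * y = y * x) {M : ℕ}
    (hM : Nat.card {k : π.ker // k ^ Nat.card G = 1} ≤ M) (φ0 : G →* Γ) :
    Lab {φ : G →* Γ // ∀ x, π (φ x) = π (φ0 x)} (fun φ ψ => HC φ.1 ψ.1) (M ^ Nat.card G) := by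
  have : IsMulCommutative π.ker := ⟨⟨fun x y => Subtype.ext (hc x x.2 y y.2)⟩⟩
  have := Fintype.ofFinite G
  let σ : G → π.ker →* π.ker := fun x => (MulAut.conjNormal (φ0 x) : MulAut π.ker).toMonoidHom
  have hσ : ∀ x (s : π.ker), (σ x s : Γ) = φ0 x * s * (φ0 x)⁻¹ := fun _ _ => rfl
  let Z : Subgroup (G → π.ker) :=
    { carrier := {c | ∀ x y, c (x * y) = c x * σ x (c y)}
      mul_mem' := fun {a b} ha hb x y => by
        simp only [Pi.mul_apply, ha x y, hb x y, map_mul]
        exact mul_mul_mul_comm _ _ _ _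
      one_mem' := fun x y => by simp
      inv_mem' := fun {a} ha x y => by simp only [Pi.inv_apply, ha x y, map_inv, mul_inv] }
  let c : {φ : G →* Γ // ∀ x, π (φ x) = π (φ0 x)} → Z := fun φ =>
    ⟨fun x => ⟨φ.1 x * (φ0 x)⁻¹, by simp [MonoidHom.mem_ker, φ.2 x]⟩, fun x y => Subtype.ext (by
      simp only [Subgroup.coe_mul, hσ, map_mul]
      group)⟩
  refine Lab.of_map (β := Z ⧸ (powMonoidHom (Nat.card G) : Z →* Z).range)
    (fun φ => QuotientGroup.mk (c φ)) ?_ ?_
  · rw [← Subgroup.index_eq_card, Subgroup.index_range]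
    refine le_trans (Nat.card_le_card_of_injective
      (fun d : (powMonoidHom (Nat.card G) : Z →* Z).ker => fun x : G =>
        (⟨d.1.1 x, congrFun (congrArg Subtype.val d.2) x⟩ : {k : π.ker // k ^ Nat.card G = 1}))
      ?_) ?_
    · intro d d' h
      exact Subtype.ext (Subtype.ext (funext fun x => congrArg Subtype.val (congrFun h x)))
    · rw [Nat.card_fun]
      exact Nat.pow_le_pow_left hM _
  · intro φ ψ h
    obtain ⟨d, hd⟩ := QuotientGroup.eq.mp h
    refine ⟨(∏ y, d.1 y : π.ker), fun x => ?_⟩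
    have h1 : ∏ y, d.1 y = d.1 x ^ Nat.card G * σ x (∏ y, d.1 y) := by
      conv_lhs => rw [← Equiv.prod_comp (Equiv.mulLeft x) d.1]
      rw [map_prod, Nat.card_eq_fintype_card, ← Finset.card_univ, ← Finset.prod_const,
        ← Finset.prod_mul_distrib]
      exact Finset.prod_congr rfl fun y _ => d.2 x y
    have h2 : d.1 x ^ Nat.card G = ((c φ).1 x)⁻¹ * (c ψ).1 x :=
      congrFun (congrArg Subtype.val hd) x
    have h3 : (c ψ).1 x = (∏ y, d.1 y) * (c φ).1 x * (σ x (∏ y, d.1 y))⁻¹ := by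
      rw [eq_mul_inv_iff_mul_eq, mul_comm (∏ y, d.1 y), ← inv_mul_eq_iff_eq_mul, ← mul_assoc, ← h2]
      exact h1.symm
    have h4 := congrArg Subtype.val h3
    simp only [Subgroup.coe_mul, Subgroup.coe_inv, hσ, c] at h4
    rw [mul_inv_eq_iff_eq_mul] at h4
    rw [h4]
    group

lemma lab_of_card {Γ : Type} [Group Γ] [Finite Γ] {c : ℕ} (h : Nat.card Γ ≤ c) :
    Lab (G →* Γ) HC (c ^ Nat.card G) :=
  Lab.of_map (β := G → Γ) (fun φ => φ) (by rw [Nat.card_fun]; exact Nat.pow_le_pow_left h _)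
    fun φ ψ e => ⟨1, fun x => by simpa using (congrFun e x).symm⟩

lemma index_normalCore_le {Q : Type} [Group Q] (T : Subgroup Q) {c : ℕ} [Finite Q]
    (h : T.index ≤ c) : T.normalCore.index ≤ c.factorial := by
  have h1 : T.normalCore.index ∣ T.index.factorial := by
    rw [Subgroup.normalCore_eq_ker, Subgroup.index_ker, Subgroup.index_eq_card, ← Nat.card_perm]
    exact Subgroup.card_subgroup_dvd_card (MulAction.toPermHom Q (Q ⧸ T)).range
  exact (Nat.le_of_dvd (Nat.factorial_pos _) h1).trans (Nat.factorial_le h)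

lemma AB.lab {Q : Type} [Group Q] [Finite Q] {c M : ℕ} (h : AB (Nat.card G) c M Q) :
    Lab (G →* Q) HC (c.factorial ^ Nat.card G * M ^ Nat.card G) := by
  obtain ⟨T, h1, h2, h3⟩ := h
  have hle : (QuotientGroup.mk' T.normalCore).ker ≤ T := by
    rw [QuotientGroup.ker_mk']; exact T.normalCore_le
  refine lab_ext (QuotientGroup.mk' T.normalCore) (QuotientGroup.mk'_surjective _)
    (lab_of_card (index_normalCore_le T h1))
    (lab_ab _ (fun x hx y hy => h2 x (hle hx) y (hle hy)) (le_trans ?_ h3))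
  exact Nat.card_le_card_of_injective (fun k => ⟨⟨k.1.1, hle k.1.2⟩,
    Subtype.ext (congrArg Subtype.val k.2 :)⟩)
    fun k k' e => Subtype.ext (Subtype.ext (congrArg (fun t => t.1.1) e))

open scoped IsMulCommutative in
lemma AB.of_surj {H Q : Type} [Group H] [Finite H] [Group Q] {g c M : ℕ} (h : AB g c M H)
    (π : H →* Q) (hπ : Surjective π) : AB g c M Q := by
  obtain ⟨T, h1, h2, h3⟩ := h
  have h4 : ∀ x ∈ T.map π, ∀ y ∈ T.map π, x * y = y * x := by
    rintro _ ⟨x, hx, rfl⟩ _ ⟨y, hy, rfl⟩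
    rw [← map_mul, ← map_mul, h2 x hx y hy]
  have : IsMulCommutative T := ⟨⟨fun x y => Subtype.ext (h2 x x.2 y y.2)⟩⟩
  have : IsMulCommutative (T.map π) := ⟨⟨fun x y => Subtype.ext (h4 x x.2 y y.2)⟩⟩
  exact ⟨T.map π, (Nat.le_of_dvd (Nat.pos_of_ne_zero Subgroup.index_ne_zero_of_finite)
    (Subgroup.index_map_dvd _ hπ)).trans h1, h4,
    (card_tors_le_of_surj (π.subgroupMap T) (π.subgroupMap_surjective T) g).trans h3⟩

/-- every group embedded in `Γ` has at most `B` classes of homomorphisms from `G` -/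
def Cov (G : Type) [Group G] (B : ℕ) (Γ : Type) [Monoid Γ] : Prop :=
  ∀ (Δ : Type) [Group Δ] [Finite Δ] (i : Δ →* Γ), Injective i → Lab (G →* Δ) HC B

omit [Finite G] in
lemma Cov.mono {Γ : Type} [Monoid Γ] {B B' : ℕ} (h : Cov G B Γ) (hB : B ≤ B') : Cov G B' Γ :=
  fun Δ _ _ i hi => (h Δ i hi).mono hB

omit [Finite G] in
lemma Cov.of_inj {Γ Γ' : Type} [Monoid Γ] [Monoid Γ'] {B : ℕ} (h : Cov G B Γ') (f : Γ →* Γ')
    (hf : Injective f) : Cov G B Γ :=
  fun Δ _ _ i hi => h Δ (f.comp i) (hf.comp hi)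

lemma cov_of_card {Γ : Type} [Monoid Γ] [Finite Γ] {c : ℕ} (h : Nat.card Γ ≤ c) :
    Cov G (c ^ Nat.card G) Γ :=
  fun _ _ _ i hi => lab_of_card ((Nat.card_le_card_of_injective i hi).trans h)

lemma Cov.prod {Γ Γ' : Type} [Group Γ] [Group Γ'] {B B' : ℕ} (h : Cov G B Γ) (h' : Cov G B' Γ') :
    Cov G (B * (B' * Nat.card G)) (Γ × Γ') := by
  intro Δ _ _ i hi
  let π := ((MonoidHom.fst Γ Γ').comp i).rangeRestrict
  let j := (MonoidHom.snd Γ Γ').comp i
  have hπ : Surjective π := MonoidHom.rangeRestrict_surjective _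
  have hext : ∀ x y, π x = π y → j x = j y → x = y := fun x y h1 h2 =>
    hi (Prod.ext (congrArg Subtype.val h1) h2)
  have : Finite ((MonoidHom.fst Γ Γ').comp i).range := Finite.of_surjective π hπ
  refine lab_ext π hπ (h _ (Subgroup.subtype _) Subtype.val_injective) fun φ0 => ?_
  let D := (π.ker ⊔ φ0.range).map j
  have : Finite D := Finite.of_surjective _ (j.subgroupMap_surjective (π.ker ⊔ φ0.range))
  let f : {φ : G →* Δ // ∀ x, π (φ x) = π (φ0 x)} → (G →* D) := fun φ =>
    (j.comp φ.1).codRestrict D fun x => ⟨φ.1 x, Subgroup.mem_sup_of_normal_left.mpr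
      ⟨φ.1 x * (φ0 x)⁻¹, by simp [MonoidHom.mem_ker, φ.2 x], φ0 x, ⟨x, rfl⟩, by simp⟩, rfl⟩
  refine Lab.refine (s := fun φ ψ => HC (f φ) (f ψ))
    ((h' D (Subgroup.subtype _) Subtype.val_injective).pull f fun _ _ h => h) fun φ1 => ?_
  have key : ∀ φ : {φ // HC (f φ1) (f φ)}, ∃ (y : G) (k : Δ), π k = 1 ∧
      ∀ x, j (φ.1.1 x) = j (k * φ0 y) * j (φ1.1 x) * (j (k * φ0 y))⁻¹ := by
    rintro ⟨φ, ⟨_, a, ha, rfl⟩, hb⟩
    obtain ⟨k, hk, _, ⟨y, rfl⟩, rfl⟩ := Subgroup.mem_sup_of_normal_left.mp ha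
    exact ⟨y, k, hk, fun x => congrArg Subtype.val (hb x)⟩
  choose y k hk hy using key
  refine Lab.of_map y le_rfl fun φ ψ e => ⟨k ψ * (k φ)⁻¹, fun x => hext _ _ ?_ ?_⟩
  · simp [hk, φ.1.2 x, ψ.1.2 x]
  · simp only [map_mul, map_inv, hy φ x, hy ψ x, e]
    group

lemma Cov.ext_ab {Γ Γ' : Type} [Group Γ] [Finite Γ] [Group Γ'] {B M : ℕ} (h : Cov G B Γ')
    (r : Γ →* Γ') (hc : ∀ x ∈ r.ker, ∀ y ∈ r.ker, x * y = y * x)
    (hM : Nat.card {k : r.ker // k ^ Nat.card G = 1} ≤ M) : Cov G (B * M ^ Nat.card G) Γ := by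
  intro Δ _ _ i hi
  let π := (r.comp i).rangeRestrict
  have hπ : Surjective π := MonoidHom.rangeRestrict_surjective _
  have : Finite (r.comp i).range := Finite.of_surjective π hπ
  have hk : ∀ x ∈ π.ker, i x ∈ r.ker := fun x hx => congrArg Subtype.val hx
  refine lab_ext π hπ (h _ (Subgroup.subtype _) Subtype.val_injective)
    (lab_ab π (fun x hx y hy => hi ?_) (le_trans ?_ hM))
  · rw [map_mul, map_mul, hc _ (hk x hx) _ (hk y hy)]
  · refine Nat.card_le_card_of_injective (fun k => ⟨⟨i k.1.1, hk _ k.1.2⟩, Subtype.ext ?_⟩)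
      fun k k' e => Subtype.ext (Subtype.ext (hi (congrArg (fun t => t.1.1) e)))
    change i k.1.1 ^ _ = 1
    rw [← map_pow, show k.1.1 ^ Nat.card G = 1 from congrArg Subtype.val k.2, map_one]

lemma card_matrix_le {p n : ℕ} [Fact p.Prime] {ι : Type} [Fintype ι]
    (hn : Fintype.card ι ≤ n) : Nat.card (Matrix ι ι (ZMod p)) ≤ p ^ (n * n) := by
  classical
  rw [Nat.card_congr vec.toEquiv, Nat.card_eq_fintype_card, Fintype.card_fun, ZMod.card,
    Fintype.card_prod]
  exact Nat.pow_le_pow_right (Fact.out : p.Prime).pos (Nat.mul_le_mul hn hn)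

/-- uniform finiteness for all subgroups of `GL n (ZMod p)` -/
theorem cov_matrix (G : Type) [Group G] [Finite G] (n : ℕ) : ∃ B, ∀ (p : ℕ) [Fact p.Prime]
    {ι : Type} [Fintype ι] [DecidableEq ι], Fintype.card ι ≤ n → Cov G B (Matrix ι ι (ZMod p)) := by
  obtain ⟨C, hC⟩ := lab_lifts n (Nat.card G)
  obtain ⟨c, M, hJ⟩ := jordan n (Nat.card G) Nat.card_pos
  refine ⟨((C + n) ^ (n * n)) ^ Nat.card G + c.factorial ^ Nat.card G * M ^ Nat.card G * C, ?_⟩
  intro p _ ι _ _ hn
  rcases le_or_gt p (C + n) with hp | hp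
  · exact (cov_of_card ((card_matrix_le hn).trans (Nat.pow_le_pow_left hp _))).mono
      (Nat.le_add_right _ _)
  intro Γ _ _ ρ hρ
  refine Lab.mono (lab_ext (QuotientGroup.mk' (Gp p Γ)) (QuotientGroup.mk'_surjective _)
    (AB.lab ?_) (hC p (by omega) hn le_rfl ρ hρ _ (QuotientGroup.ker_mk' _))) (Nat.le_add_left _ _)
  obtain ⟨P⟩ : Nonempty (Sylow p Γ) := inferInstance
  have hP : (P : Subgroup Γ) ≤ Gp p Γ := by
    intro x hx
    obtain ⟨k, hk⟩ := P.isPGroup' ⟨x, hx⟩
    have h1 := pow_eq_zero_of_le (show Fintype.card ι ≤ p ^ 1 by rw [pow_one]; omega)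
      (unip ρ (u := x) (k := k) (congrArg Subtype.val hk))
    rw [sub_one_pow_eq (p := p), pow_one, sub_eq_zero, ← map_pow, ← map_one ρ] at h1
    exact mem_Gp (hρ h1)
  have hF := Sylow.normalizer_sup_eq_top' P hP
  let K := Subgroup.normalizer (P : Set Γ)
  let P' := (P : Subgroup Γ).subgroupOf K
  have : P'.Normal := Subgroup.normal_in_normalizer
  have hidx : ¬ p ∣ Nat.card (K ⧸ P') := fun h => P.not_dvd_index
    (h.trans (Subgroup.relIndex_dvd_index_of_le (Subgroup.le_normalizer (H := (P : Subgroup Γ)))))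
  obtain ⟨k, hk⟩ := (P.isPGroup'.comap_subtype (K := K)).exists_card_eq
  obtain ⟨s, hs⟩ := exists_section (QuotientGroup.mk' P') (QuotientGroup.mk'_surjective _) (by
    rw [QuotientGroup.ker_mk']
    exact hk ▸ (((Fact.out : p.Prime).coprime_iff_not_dvd).mpr hidx).pow_left _)
  refine (hJ p hn hidx (ρ.comp (K.subtype.comp s)) (hρ.comp (Subtype.val_injective.comp
    (LeftInverse.injective hs)))).of_surj ((QuotientGroup.mk' (Gp p Γ)).comp (K.subtype.comp s)) ?_
  intro q
  obtain ⟨γ, rfl⟩ := QuotientGroup.mk'_surjective _ q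
  obtain ⟨a, ha, b, hb, rfl⟩ := Subgroup.mem_sup_of_normal_right.mp (hF ▸ Subgroup.mem_top γ)
  refine ⟨QuotientGroup.mk' P' ⟨a, ha⟩, QuotientGroup.eq.mpr ?_⟩
  rw [← mul_assoc]
  have h1 : (s (QuotientGroup.mk' P' ⟨a, ha⟩))⁻¹ * ⟨a, ha⟩ ∈ P' :=
    QuotientGroup.eq.mp (hs (QuotientGroup.mk' P' ⟨a, ha⟩))
  exact mul_mem (hP h1) hb

end Pool.Agent.MP_5f7865_al.H99

end
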