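import Pool.Agent.MP_5f7865_al.Mg.H99_Cov

/-! Induction along a characteristic series. -/

namespace Pool.Agent.MP_5f7865_al.H99

open Function ArithmeticFunction

/-- every nonabelian composition factor embeds in `GL n (ZMod p)` for some prime `p` -/
def Hyp (n : ℕ) (X : Type) [Group X] : Prop :=
  ∀ H : Subgroup X, H.IsSubnormal → ∀ (S : Type) [Group S], IsSimpleGroup S →
    (∃ a b : S, a * b ≠ b * a) → ∀ π : H →* S, Surjective π →
      ∃ p : ℕ, p.Prime ∧ ∃ ρ : S →* GL (Fin n) (ZMod p), Injective ρ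

lemma Hyp.sub {n : ℕ} {X : Type} [Group X] (h : Hyp n X) (M : Subgroup X) [hM : M.Normal] :
    Hyp n M := by
  intro H hH S _ h1 h2 π hπ
  let e := H.equivMapOfInjective M.subtype M.subtype_injective
  exact h _ (hH.trans' hM.isSubnormal) S h1 h2 (π.comp e.symm.toMonoidHom)
    (hπ.comp e.symm.surjective)

lemma Hyp.quot {n : ℕ} {X Y : Type} [Group X] [Group Y] (h : Hyp n X) (f : X →* Y)
    (hf : Surjective f) : Hyp n Y := by
  intro H hH S _ h1 h2 π hπ
  exact h _ (hH.comap f) S h1 h2 (π.comp (f.subgroupComap H))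
    (hπ.comp (f.subgroupComap_surjective_of_surjective H hf))

lemma om_le_of_dvd {a b : ℕ} (hb : b ≠ 0) (h : a ∣ b) : cardFactors a ≤ cardFactors b := by
  obtain ⟨c, rfl⟩ := h
  rw [cardFactors_mul (left_ne_zero_of_mul hb) (right_ne_zero_of_mul hb)]
  omega

lemma om_lt {X : Type} [Group X] [Finite X] {H K : Subgroup X} (h : H < K) :
    cardFactors (Nat.card H) < cardFactors (Nat.card K) := by
  obtain ⟨c, hc⟩ := Subgroup.card_dvd_of_le h.le
  have h0 : Nat.card K ≠ 0 := Nat.card_pos.ne'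
  have h1 : c ≠ 1 := by
    rintro rfl
    exact h.ne (Subgroup.eq_of_le_of_card_ge h.le (by omega))
  rw [hc] at h0 ⊢
  have h2 := right_ne_zero_of_mul h0
  rw [cardFactors_mul (left_ne_zero_of_mul h0) h2]
  have := (cardFactors_pos_iff_one_lt (n := c)).mpr (by omega)
  omega

lemma greedy {ι : Type} [DecidableEq ι] (P : Finset ι → Prop) (w : Finset ι → ℕ) (k : ℕ)
    (hw : ∀ s, w s ≤ k) (step : ∀ s, ¬ P s → ∃ i, w s < w (insert i s)) :
    ∃ s : Finset ι, s.card ≤ k + 1 ∧ P s := by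
  have key : ∀ j, ∃ s : Finset ι, s.card ≤ j ∧ (j ≤ w s ∨ P s) := by
    intro j
    induction j with
    | zero => exact ⟨∅, by simp, Or.inl (Nat.zero_le _)⟩
    | succ j ih =>
      obtain ⟨s, h1, h2⟩ := ih
      by_cases hP : P s
      · exact ⟨s, by omega, Or.inr hP⟩
      · obtain ⟨i, hi⟩ := step s hP
        have := Finset.card_insert_le i s
        exact ⟨insert i s, by omega, Or.inl (by have := h2.resolve_right hP; omega)⟩
  obtain ⟨s, h1, h2⟩ := key (k + 1)
  exact ⟨s, h1, h2.resolve_left (by have := hw s; omega)⟩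

lemma exists_gen {X : Type} [Group X] [Finite X] {k : ℕ} (hk : cardFactors (Nat.card X) ≤ k) :
    ∃ s : Finset X, s.card ≤ k + 1 ∧ Subgroup.closure (s : Set X) = ⊤ := by
  classical
  refine greedy _ (fun s => cardFactors (Nat.card (Subgroup.closure (s : Set X)))) k
    (fun s => (om_le_of_dvd Nat.card_pos.ne' (Subgroup.card_subgroup_dvd_card _)).trans hk)
    fun s hs => ?_
  obtain ⟨x, hx⟩ : ∃ x, x ∉ Subgroup.closure (s : Set X) := by
    by_contra h
    push Not at h
    exact hs ((Subgroup.eq_top_iff' _).mpr h)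
  refine ⟨x, om_lt (lt_of_le_of_ne (Subgroup.closure_mono (by simp)) fun e => hx ?_)⟩
  rw [e]
  exact Subgroup.subset_closure (by simp)

lemma card_le_of_exp {T : Type} [Group T] [Finite T] {g k : ℕ} (hg : 0 < g)
    (h : ∀ t : T, t ^ g = 1) (hk : cardFactors (Nat.card T) ≤ k) : Nat.card T ≤ g ^ k := by
  rw [← Nat.prod_primeFactorsList (Nat.card_pos (α := T)).ne']
  refine (List.prod_le_pow_card _ g fun q hq => ?_).trans (Nat.pow_le_pow_right hg hk)
  have := Fact.mk (Nat.prime_of_mem_primeFactorsList hq)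
  obtain ⟨t, ht⟩ := exists_prime_orderOf_dvd_card' q (Nat.dvd_of_mem_primeFactorsList hq)
  exact Nat.le_of_dvd hg (ht ▸ orderOf_dvd_of_pow_eq_one (h t))

lemma card_mulAut_le {X : Type} [Group X] [Finite X] {c : ℕ} (h : Nat.card X ≤ c) :
    Nat.card (MulAut X) ≤ c ^ c := by
  refine (Nat.card_le_card_of_injective (fun α : MulAut X => (α : X → X))
    DFunLike.coe_injective).trans ?_
  rw [Nat.card_fun]
  exact (Nat.pow_le_pow_left h _).trans (Nat.pow_le_pow_right (Nat.card_pos.trans_le h) h)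

variable {G : Type} [Group G] [Finite G]

lemma cov_ext {X : Type} [Group X] [Finite X] {k B B' : ℕ} (hk : cardFactors (Nat.card X) ≤ k)
    (M : Subgroup X) [hM : M.Characteristic] (h1 : Cov G B (MulAut M))
    (h2 : Cov G B' (MulAut (X ⧸ M))) :
    Cov G (B * (B' * Nat.card G) * ((Nat.card G ^ k) ^ (k + 1)) ^ Nat.card G) (MulAut X) := by
  classical
  let q : MulAut X →* MulAut (X ⧸ M) :=
    { toFun := fun α => QuotientGroup.congr M M α (Subgroup.characteristic_iff_map_eq.mp hM α)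
      map_one' := by
        ext x
        obtain ⟨x, rfl⟩ := QuotientGroup.mk_surjective x
        rfl
      map_mul' := fun α β => by
        ext x
        obtain ⟨x, rfl⟩ := QuotientGroup.mk_surjective x
        rfl }
  let r := (MulAut.characteristic M).prod q
  have hr1 : ∀ α ∈ r.ker, ∀ m ∈ M, α m = m := fun α hα m hm => by
    have h3 : MulAut.characteristic M α ⟨m, hm⟩ = ⟨m, hm⟩ :=
      DFunLike.congr_fun (congrArg Prod.fst hα) ⟨m, hm⟩
    exact congrArg Subtype.val h3
  have hr2 : ∀ α ∈ r.ker, ∀ x, x⁻¹ * α x ∈ M := fun α hα x =>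
    QuotientGroup.eq.mp (DFunLike.congr_fun (congrArg Prod.snd hα) (QuotientGroup.mk x)).symm
  have hr3 : ∀ α ∈ r.ker, ∀ x, ∀ m ∈ M, x⁻¹ * α x * m = m * (x⁻¹ * α x) := by
    intro α hα x m hm
    have h3 := hr1 α hα _ ((inferInstance : M.Normal).conj_mem m hm x)
    rw [map_mul, map_mul, map_inv, hr1 α hα m hm] at h3
    calc x⁻¹ * α x * m = x⁻¹ * (α x * m * (α x)⁻¹) * α x := by group
      _ = _ := by rw [h3]; group
  have hr4 : ∀ α ∈ r.ker, ∀ β ∈ r.ker, ∀ x, α (β x) = x * ((x⁻¹ * α x) * (x⁻¹ * β x)) := by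
    intro α hα β hβ x
    calc α (β x) = α (x * (x⁻¹ * β x)) := by rw [mul_inv_cancel_left]
      _ = _ := by rw [map_mul, hr1 α hα _ (hr2 β hβ x), ← mul_assoc x, mul_inv_cancel_left]
  refine (h1.prod h2).ext_ab r (fun α hα β hβ => MulEquiv.ext fun x => ?_) ?_
  · rw [MulAut.mul_apply, MulAut.mul_apply, hr4 α hα β hβ, hr4 β hβ α hα,
      hr3 α hα x _ (hr2 β hβ x)]
  let T : Subgroup X :=
    { carrier := {a | a ∈ M ∧ (∀ m ∈ M, a * m = m * a) ∧ a ^ Nat.card G = 1}
      mul_mem' := fun {a b} ha hb => ⟨mul_mem ha.1 hb.1, fun m hm => by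
        rw [mul_assoc, hb.2.1 m hm, ← mul_assoc, ha.2.1 m hm, mul_assoc], by
        rw [Commute.mul_pow (ha.2.1 b hb.1), ha.2.2, hb.2.2, mul_one]⟩
      one_mem' := ⟨one_mem _, by simp, by simp⟩
      inv_mem' := fun {a} ha => ⟨inv_mem ha.1, fun m hm =>
        (Commute.inv_left (ha.2.1 m hm)).eq, by rw [inv_pow, ha.2.2, inv_one]⟩ }
  have hT : Nat.card T ≤ Nat.card G ^ k := card_le_of_exp Nat.card_pos
    (fun t => Subtype.ext t.2.2.2)
    ((om_le_of_dvd Nat.card_pos.ne' (Subgroup.card_subgroup_dvd_card _)).trans hk)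
  obtain ⟨s, hs1, hs2⟩ := exists_gen hk
  have hpow : ∀ α ∈ r.ker, ∀ x (j : ℕ), (α ^ j) x = x * (x⁻¹ * α x) ^ j := by
    intro α hα x j
    induction j with
    | zero => simp
    | succ j ih =>
      rw [pow_succ', MulAut.mul_apply, ih, map_mul, hr1 α hα _ (pow_mem (hr2 α hα x) _), pow_succ',
        ← mul_assoc x, mul_inv_cancel_left]
  refine (Nat.card_le_card_of_injective
    (fun α : {α : r.ker // α ^ Nat.card G = 1} => fun x : s =>
      (⟨x.1⁻¹ * α.1.1 x.1, hr2 _ α.1.2 _, hr3 _ α.1.2 _, by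
        have h3 := hpow _ α.1.2 x.1 (Nat.card G)
        rw [show α.1.1 ^ Nat.card G = 1 from congrArg Subtype.val α.2] at h3
        exact (left_eq_mul.mp h3)⟩ : T)) fun α β e => ?_).trans ?_
  · have h3 : α.1.1.toMonoidHom = β.1.1.toMonoidHom :=
      MonoidHom.eq_of_eqOn_dense hs2 fun x hx =>
        mul_left_cancel (congrArg Subtype.val (congrFun e ⟨x, hx⟩))
    exact Subtype.ext (Subtype.ext (MulEquiv.ext fun x => DFunLike.congr_fun h3 x))
  · rw [Nat.card_fun, Nat.card_eq_fintype_card (α := s), Fintype.card_coe]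
    exact (Nat.pow_le_pow_left hT _).trans
      (Nat.pow_le_pow_right (pow_pos Nat.card_pos _) hs1)

open scoped IsMulCommutative in
lemma simple_linear {n : ℕ} {S : Type} [Group S] [IsSimpleGroup S]
    (h : (∃ a b : S, a * b ≠ b * a) →
      ∃ p : ℕ, p.Prime ∧ ∃ ρ : S →* GL (Fin n) (ZMod p), Injective ρ) :
    ∃ (p : ℕ) (_ : Fact p.Prime) (m : ℕ), m ≤ n + 2 ∧
      (p ∣ Nat.card S ∨ ∃ a b : S, a * b ≠ b * a) ∧
      ∃ ρ : S →* Matrix (Fin m) (Fin m) (ZMod p), Injective ρ := by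
  by_cases hab : ∃ a b : S, a * b ≠ b * a
  · obtain ⟨p, hp, ρ, hρ⟩ := h hab
    exact ⟨p, ⟨hp⟩, n, by omega, Or.inr hab, (Units.coeHom _).comp ρ, Units.val_injective.comp hρ⟩
  · push Not at hab
    have : IsMulCommutative S := ⟨⟨hab⟩⟩
    have hp : (Nat.card S).Prime := IsSimpleGroup.prime_card
    let u : Multiplicative (ZMod (Nat.card S)) →* Matrix (Fin 2) (Fin 2) (ZMod (Nat.card S)) :=
      { toFun := fun a => !![1, a.toAdd; 0, 1]
        map_one' := by simp [Matrix.one_fin_two]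
        map_mul' := fun a b => by simp [add_comm] }
    have hu : Injective u := fun a b e => congrFun (congrFun e 0) 1
    let e := zmodCyclicMulEquiv (G := S) inferInstance
    exact ⟨_, ⟨hp⟩, 2, by omega, Or.inl dvd_rfl, u.comp e.symm.toMonoidHom,
      hu.comp e.symm.injective⟩

lemma cov_charsimple (G : Type) [Group G] [Finite G] (n k : ℕ) : ∃ B,
    ∀ (X : Type) [Group X] [Finite X], cardFactors (Nat.card X) ≤ k → Hyp n X → Nontrivial X →
    (∀ M : Subgroup X, M.Characteristic → M = ⊥ ∨ M = ⊤) → Cov G B (MulAut X) := by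
  obtain ⟨d, hd⟩ : ∃ d, d = (n + 2) * (k + 1) := ⟨_, rfl⟩
  obtain ⟨C, hC⟩ := aut_linear d
  obtain ⟨B, hB⟩ := cov_matrix G (d * d)
  obtain ⟨c, M0, hJ⟩ := jordan (n + 2) 1 one_pos
  obtain ⟨e, he⟩ : ∃ e, e = C ^ (d * d) + c.factorial ^ (k + 1) := ⟨_, rfl⟩
  refine ⟨B + (e ^ e) ^ Nat.card G, ?_⟩
  intro X _ _ hk hX hnt hcs
  classical
  have hsmall : Nat.card X ≤ e → Cov G (B + (e ^ e) ^ Nat.card G) (MulAut X) :=
    fun h => (cov_of_card (card_mulAut_le h)).mono (Nat.le_add_left _ _)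
  obtain ⟨M, hM⟩ := Set.Finite.exists_maximal (s := {M : Subgroup X | M.Normal ∧ M ≠ ⊤})
    (Set.toFinite _) ⟨⊥, inferInstance, bot_ne_top⟩
  have hMn : M.Normal := hM.1.1
  have hS : IsSimpleGroup (X ⧸ M) := by
    have : Nontrivial (X ⧸ M) := QuotientGroup.nontrivial_iff.mpr hM.1.2
    refine ⟨fun H hH => ?_⟩
    rw [← Subgroup.map_comap_eq_self_of_surjective (QuotientGroup.mk'_surjective M) H]
    by_cases h : H.comap (QuotientGroup.mk' M) = ⊤
    · right
      rw [h, Subgroup.map_top_of_surjective _ (QuotientGroup.mk'_surjective M)]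
    · left
      have h1 : M ≤ H.comap (QuotientGroup.mk' M) := QuotientGroup.le_comap_mk' M H
      rw [Subgroup.map_eq_bot_iff, QuotientGroup.ker_mk']
      exact hM.2 ⟨hH.comap _, h⟩ h1
  let K : Finset (MulAut X) → Subgroup X := fun s => ⨅ α ∈ s, M.comap α.toMonoidHom
  have hK : ∀ s x, x ∈ K s ↔ ∀ α ∈ s, α x ∈ M := by intro s x; simp [K, Subgroup.mem_iInf]
  have := Fintype.ofFinite (MulAut X)
  have hKu : K Finset.univ = ⊥ := by
    refine (hcs _ (Subgroup.characteristic_iff_le_comap.mpr fun β x hx => ?_)).resolve_right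
      fun h => hM.1.2 ?_
    · exact (hK _ _).mpr fun α _ => (hK _ _).mp hx (α * β) (Finset.mem_univ _)
    · rw [Subgroup.eq_top_iff'] at h ⊢
      exact fun x => (hK _ _).mp (h x) 1 (Finset.mem_univ _)
  obtain ⟨s, hs1, hs2⟩ := greedy (fun s => K s = ⊥) (fun s => k - cardFactors (Nat.card (K s))) k
    (fun s => Nat.sub_le _ _) (fun s hs => by
      obtain ⟨x, hx, hx1⟩ := (K s).bot_or_exists_ne_one.resolve_left hs
      obtain ⟨α, hα⟩ : ∃ α : MulAut X, α x ∉ M := by
        by_contra h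
        push Not at h
        exact hx1 (Subgroup.mem_bot.mp (hKu ▸ (hK _ _).mpr fun α _ => h α))
      have h1 : K (insert α s) < K s := lt_of_le_of_ne
        (fun y hy => (hK _ _).mpr fun β hβ => (hK _ _).mp hy β (Finset.mem_insert_of_mem hβ))
        fun e => hα ((hK _ _).mp (e ▸ hx) α (Finset.mem_insert_self _ _))
      have h2 := om_lt h1
      have h3 := (om_le_of_dvd Nat.card_pos.ne' (Subgroup.card_subgroup_dvd_card (K s))).trans hk
      exact ⟨α, by omega⟩)
  let j : X →* (s → X ⧸ M) := MonoidHom.pi fun α => (QuotientGroup.mk' M).comp α.1.toMonoidHom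
  have hj : Injective j := by
    rw [injective_iff_map_eq_one]
    intro x hx
    exact Subgroup.mem_bot.mp (hs2 ▸ (hK _ _).mpr fun α hα =>
      (QuotientGroup.eq_one_iff _).mp (congrFun hx ⟨α, hα⟩))
  obtain ⟨p, _, m, hm, hp, ρ, hρ⟩ := simple_linear (n := n) (S := X ⧸ M) fun hab =>
    hX ⊤ Subgroup.IsSubnormal.top _ hS hab ((QuotientGroup.mk' M).comp (Subgroup.subtype _))
      ((QuotientGroup.mk'_surjective M).comp fun x => ⟨⟨x, trivial⟩, rfl⟩)
  let ρ' : X →* Matrix (Fin m × s) (Fin m × s) (ZMod p) :=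
    (Matrix.blockDiagonalRingHom (Fin m) s (ZMod p)).toMonoidHom.comp
      (MonoidHom.pi fun α : s => ρ.comp ((Pi.evalMonoidHom _ α).comp j))
  have hρ' : Injective ρ' := fun x y e =>
    hj (funext fun α => hρ (congrFun (Matrix.blockDiagonal_injective e) α))
  have hcard : Fintype.card (Fin m × s) ≤ d := by
    rw [Fintype.card_prod, Fintype.card_fin, Fintype.card_coe, hd]
    exact Nat.mul_le_mul hm hs1
  rcases le_or_gt p C with hpC | hpC
  · refine hsmall ((Nat.card_le_card_of_injective _ hρ').trans ((card_matrix_le hcard).trans ?_))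
    have := Nat.pow_le_pow_left hpC (d * d)
    omega
  by_cases hpX : p ∣ Nat.card X
  · obtain ⟨u, hu⟩ := exists_prime_orderOf_dvd_card' p hpX
    have h1 : Gp p X = ⊤ := (hcs _ inferInstance).resolve_left fun h => by
      have h2 : u = 1 := Subgroup.mem_bot.mp (h ▸ mem_Gp (hu ▸ pow_orderOf_eq_one u))
      rw [h2, orderOf_one] at hu
      exact (Fact.out : p.Prime).one_lt.ne hu
    obtain ⟨m', hm', σ, hσ⟩ := hC p hpC hcard ρ' hρ' h1
    exact ((hB p (by simpa using hm')).of_inj σ hσ).mono (Nat.le_add_right _ _)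
  · have hpS : ¬ p ∣ Nat.card (X ⧸ M) := fun h => hpX (h.trans (Subgroup.index_dvd_card M))
    obtain ⟨a, b, hab⟩ := hp.resolve_left hpS
    obtain ⟨T, h1, h2, -⟩ := hJ p (by simpa using hm) hpS ρ hρ
    have h3 := index_normalCore_le T h1
    rcases hS.eq_bot_or_eq_top_of_normal T.normalCore inferInstance with h | h
    · rw [h, Subgroup.index_bot] at h3
      refine hsmall ((Nat.card_le_card_of_injective _ hj).trans ?_)
      rw [Nat.card_fun, Nat.card_eq_fintype_card (α := s), Fintype.card_coe]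
      have := (Nat.pow_le_pow_left h3 s.card).trans (Nat.pow_le_pow_right (Nat.factorial_pos c) hs1)
      omega
    · have h4 : ∀ x, x ∈ T := fun x => T.normalCore_le (h ▸ Subgroup.mem_top x)
      exact absurd (h2 a (h4 a) b (h4 b)) hab

theorem cov_main (G : Type) [Group G] [Finite G] (n k : ℕ) : ∃ B,
    ∀ (X : Type) [Group X] [Finite X], cardFactors (Nat.card X) ≤ k → Hyp n X →
      Cov G B (MulAut X) := by
  have htriv : ∀ (X : Type) [Group X] [Finite X], Nat.card X ≤ 1 → Cov G 1 (MulAut X) := by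
    intro X _ _ h
    simpa using cov_of_card (G := G) (card_mulAut_le h)
  induction k with
  | zero =>
    refine ⟨1, fun X _ _ hk _ => htriv X ?_⟩
    have := cardFactors_eq_zero_iff_eq_zero_or_one.mp (Nat.le_zero.mp hk)
    omega
  | succ k ih =>
    obtain ⟨B, hB⟩ := ih
    obtain ⟨B', hB'⟩ := cov_charsimple G n (k + 1)
    refine ⟨1 + B' + B * (B * Nat.card G) * ((Nat.card G ^ (k + 1)) ^ (k + 1 + 1)) ^ Nat.card G,
      fun X _ _ hk hX => ?_⟩
    rcases subsingleton_or_nontrivial X with h | h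
    · exact (htriv X (Finite.card_le_one_iff_subsingleton.mpr h)).mono (by omega)
    by_cases hcs : ∀ M : Subgroup X, M.Characteristic → M = ⊥ ∨ M = ⊤
    · exact (hB' X hk hX h hcs).mono (by omega)
    push Not at hcs
    obtain ⟨M, hM, h1, h2⟩ := hcs
    have h3 := om_lt (bot_lt_iff_ne_bot.mpr h1)
    have h4 := om_lt (lt_top_iff_ne_top.mpr h2)
    rw [Subgroup.card_top] at h4
    have h5 : cardFactors (Nat.card X) = cardFactors (Nat.card (X ⧸ M)) +
        cardFactors (Nat.card M) := by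
      rw [Subgroup.card_eq_card_quotient_mul_card_subgroup M,
        cardFactors_mul Nat.card_pos.ne' Nat.card_pos.ne']
    exact (cov_ext hk M (hB M (by omega) (hX.sub M)) (hB _ (by omega)
      (hX.quot _ (QuotientGroup.mk'_surjective M)))).mono (Nat.le_add_left _ _)

theorem final (G : Type) [Group G] [Finite G] : ∃ f : ℕ → ℕ → ℕ, ∀ (n : ℕ) (X : Type) [Group X]
    [Finite X], Hyp n X → Nat.card (Quot (fun φ ψ : G →* MulAut X =>
      ∃ a : MulAut X, ∀ g : G, ψ g = a * φ g * a⁻¹)) ≤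
        f n (Nat.primeFactorsList (Nat.card X)).length := by
  choose f hf using cov_main G
  exact ⟨f, fun n X _ _ hX =>
    (hf n _ X le_rfl hX (MulAut X) (MonoidHom.id _) injective_id).card_quot_le⟩

end Pool.Agent.MP_5f7865_al.H99
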